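import Pool.Agent.H779R2.Glam.Defs

open MeasureTheory Set Filter
open scoped ENNReal NNReal Topology

namespace Pool.Agent.H779R2.Glam

/-- The Poisson integral `f(z,y) = (1/π) ∫ y f(z-x) / (x²+y²) dx`. -/
noncomputable def poisson (f : ℝ → ℝ) (z y : ℝ) : ℝ :=
  (1 / Real.pi) * ∫ x, y * f (z - x) / (x ^ 2 + y ^ 2)

/-- The squared length of the gradient (in `(z,y)`) of the Poisson integral of `f`. -/
noncomputable def gradSq (f : ℝ → ℝ) (z y : ℝ) : ℝ :=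
  (deriv (fun z' => poisson f z' y) z) ^ 2 + (deriv (fun y' => poisson f z y') y) ^ 2

/-- The Littlewood-Paley function
`g_λ^*(x) = (∫_ℝ ∫_0^∞ (y/(|x-z|+y))^λ |∇f(z,y)|² dy dz)^(1/2)`, with values in `[0,∞]`. -/
noncomputable def gStar (lam : ℝ) (f : ℝ → ℝ) (x : ℝ) : ℝ≥0∞ :=
  (∫⁻ z : ℝ, ∫⁻ y in Ioi (0:ℝ),
    ENNReal.ofReal ((y / (|x - z| + y)) ^ lam * gradSq f z y)) ^ (1 / 2 : ℝ)

/-- The weighted inequality `(∗)`: there is a finite `C` with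
`∫ (g_λ^* f)^p U ≤ C ∫ |f|^p U` for all measurable `f` with finite right side. -/
def Star (lam p : ℝ) (U : ℝ → ℝ) : Prop :=
  ∃ C : ℝ≥0, ∀ f : ℝ → ℝ, AEStronglyMeasurable f volume →
    ∫⁻ x, ENNReal.ofReal (|f x| ^ p * U x) < ∞ →
    ∫⁻ x, gStar lam f x ^ p * ENNReal.ofReal (U x) ≤
      C * ∫⁻ x, ENNReal.ofReal (|f x| ^ p * U x)

end Pool.Agent.H779R2.Glam
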