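import Pool.Agent.H779R2.Glam.Green
import Pool.Agent.H779R2.Glam.GStar

open MeasureTheory Set Filter
open scoped ENNReal NNReal Topology

namespace Pool.Agent.H779R2.Glam

/-- The regularised Cauchy kernel. -/
noncomputable def ck (w : ℂ) (t : ℝ) : ℂ := ((t:ℂ) - w)⁻¹ - ((t / (1 + t ^ 2) : ℝ) : ℂ)

/-- The holomorphic function on the upper half-plane whose imaginary part is the Poisson
integral of `f`. -/
noncomputable def cauchyF (f : ℝ → ℝ) (w : ℂ) : ℂ :=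
  ((1 / Real.pi : ℝ) : ℂ) * ∫ t : ℝ, (f t : ℂ) * ck w t

lemma norm_sub_ge {w : ℂ} (t : ℝ) : w.im ≤ ‖(t:ℂ) - w‖ := by
  have h := Complex.abs_im_le_norm ((t:ℂ) - w)
  have : ((t:ℂ) - w).im = -w.im := by simp
  rw [this, abs_neg] at h
  exact (le_abs_self _).trans h

lemma sub_ne {w : ℂ} (hw : 0 < w.im) (t : ℝ) : (t:ℂ) - w ≠ 0 := by
  intro h
  have := norm_sub_ge (w := w) t
  rw [h, norm_zero] at this
  linarith

lemma one_add_sq_le {w : ℂ} {δ R : ℝ} (hδ : 0 < δ) (hw : δ ≤ w.im) (hR : ‖w‖ ≤ R) (t : ℝ) :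
    1 + t ^ 2 ≤ (2 + (2 * R ^ 2 + 1) / δ ^ 2) * ‖(t:ℂ) - w‖ ^ 2 := by
  have h1 : δ ≤ ‖(t:ℂ) - w‖ := hw.trans (norm_sub_ge t)
  have h2 : |t| ≤ ‖(t:ℂ) - w‖ + R := by
    have : ‖(t:ℂ)‖ ≤ ‖(t:ℂ) - w‖ + ‖w‖ := by
      calc ‖(t:ℂ)‖ = ‖((t:ℂ) - w) + w‖ := by ring_nf
        _ ≤ _ := norm_add_le _ _
    rw [Complex.norm_real, Real.norm_eq_abs] at this
    linarith
  have hR0 : 0 ≤ R := (norm_nonneg w).trans hR
  set s := ‖(t:ℂ) - w‖ with hs
  have hs0 : 0 < s := by linarith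
  have h3 : t ^ 2 ≤ 2 * s ^ 2 + 2 * R ^ 2 := by
    have : t ^ 2 ≤ (s + R) ^ 2 := by
      rw [← sq_abs t]
      exact pow_le_pow_left₀ (abs_nonneg t) h2 2
    nlinarith [sq_nonneg (s - R)]
  have h4 : 1 ≤ s ^ 2 / δ ^ 2 := by
    rw [le_div_iff₀ (by positivity), one_mul]
    exact pow_le_pow_left₀ hδ.le h1 2
  have h5 : 2 * R ^ 2 + 1 ≤ (2 * R ^ 2 + 1) * (s ^ 2 / δ ^ 2) :=
    le_mul_of_one_le_right (by positivity) h4
  calc 1 + t ^ 2 ≤ 2 * s ^ 2 + (2 * R ^ 2 + 1) := by linarith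
    _ ≤ 2 * s ^ 2 + (2 * R ^ 2 + 1) * (s ^ 2 / δ ^ 2) := by linarith
    _ = _ := by ring

lemma ck_eq {w : ℂ} (hw : 0 < w.im) (t : ℝ) :
    ck w t = (1 + t * w) / (((t:ℂ) - w) * ((1 + t ^ 2 : ℝ) : ℂ)) := by
  have h1 := sub_ne hw t
  have h2 : ((1 + t ^ 2 : ℝ) : ℂ) ≠ 0 := by
    have : (1 + t ^ 2 : ℝ) ≠ 0 := by positivity
    exact_mod_cast this
  unfold ck
  rw [Complex.ofReal_div]
  rw [eq_div_iff (mul_ne_zero h1 h2)]
  field_simp
  push_cast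
  ring

lemma ck_bound {w : ℂ} (hw : 0 < w.im) : ∃ C : ℝ, 0 ≤ C ∧ ∀ t : ℝ, ‖ck w t‖ ≤ C * (1 / (1 + t ^ 2)) := by
  refine ⟨(1 + ‖w‖ ^ 2) / w.im + ‖w‖, by positivity, fun t => ?_⟩
  rw [ck_eq hw, norm_div, norm_mul, Complex.norm_real, Real.norm_eq_abs,
    abs_of_pos (by positivity : (0:ℝ) < 1 + t ^ 2)]
  have h1 : w.im ≤ ‖(t:ℂ) - w‖ := norm_sub_ge t
  set s := ‖(t:ℂ) - w‖ with hs
  have hs0 : 0 < s := by linarith
  have h2 : |t| ≤ s + ‖w‖ := by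
    have : ‖(t:ℂ)‖ ≤ ‖(t:ℂ) - w‖ + ‖w‖ := by
      calc ‖(t:ℂ)‖ = ‖((t:ℂ) - w) + w‖ := by ring_nf
        _ ≤ _ := norm_add_le _ _
    rw [Complex.norm_real, Real.norm_eq_abs] at this
    linarith
  have h3 : ‖1 + (t:ℂ) * w‖ ≤ 1 + ‖w‖ * (s + ‖w‖) := by
    calc ‖1 + (t:ℂ) * w‖ ≤ ‖(1:ℂ)‖ + ‖(t:ℂ) * w‖ := norm_add_le _ _
      _ = 1 + |t| * ‖w‖ := by rw [norm_one, norm_mul, Complex.norm_real, Real.norm_eq_abs]
      _ ≤ 1 + ‖w‖ * (s + ‖w‖) := by
          have := mul_le_mul_of_nonneg_right h2 (norm_nonneg w)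
          linarith
  rw [div_le_iff₀ (by positivity)]
  have h4 : ((1 + ‖w‖ ^ 2) / w.im + ‖w‖) * (1 / (1 + t ^ 2)) * (s * (1 + t ^ 2))
      = ((1 + ‖w‖ ^ 2) / w.im) * s + ‖w‖ * s := by
    field_simp
  rw [h4]
  have h5 : 1 + ‖w‖ ^ 2 ≤ ((1 + ‖w‖ ^ 2) / w.im) * s := by
    rw [div_mul_eq_mul_div, le_div_iff₀ hw]
    exact mul_le_mul_of_nonneg_left h1 (by positivity)
  calc ‖1 + (t:ℂ) * w‖ ≤ 1 + ‖w‖ * (s + ‖w‖) := h3
    _ = (1 + ‖w‖ ^ 2) + ‖w‖ * s := by ring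
    _ ≤ _ := by linarith

lemma continuous_ck {w : ℂ} (hw : 0 < w.im) : Continuous (ck w) := by
  unfold ck
  have h1 : Continuous (fun t : ℝ => ((t:ℂ) - w)⁻¹) :=
    (Complex.continuous_ofReal.sub continuous_const).inv₀ (sub_ne hw)
  have h2 : Continuous (fun t : ℝ => ((t / (1 + t ^ 2) : ℝ) : ℂ)) := by
    apply Complex.continuous_ofReal.comp
    exact continuous_id.div (by fun_prop) (fun t => by positivity)
  exact h1.sub h2

lemma integrable_mul_ck {f : ℝ → ℝ} (hf : Measurable f)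
    (hfi : Integrable (fun t => f t / (1 + t ^ 2))) {w : ℂ} (hw : 0 < w.im) :
    Integrable (fun t : ℝ => (f t : ℂ) * ck w t) := by
  obtain ⟨C, hC0, hC⟩ := ck_bound hw
  refine Integrable.mono' (hfi.norm.const_mul C) ?_ (Eventually.of_forall (fun t => ?_))
  · exact ((Complex.measurable_ofReal.comp hf).mul
      (continuous_ck hw).measurable).aestronglyMeasurable
  · rw [norm_mul, Complex.norm_real]
    have h := mul_le_mul_of_nonneg_left (hC t) (norm_nonneg (f t))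
    have e : ‖f t / (1 + t ^ 2)‖ = ‖f t‖ * (1 / (1 + t ^ 2)) := by
      rw [norm_div, Real.norm_of_nonneg (by positivity : (0:ℝ) ≤ 1 + t ^ 2)]
      ring
    rw [e]
    calc _ ≤ _ := h
      _ = _ := by ring

lemma hasDerivAt_ck {w : ℂ} (hw : 0 < w.im) (t : ℝ) :
    HasDerivAt (fun w => ck w t) ((((t:ℂ) - w) ^ 2)⁻¹) w := by
  unfold ck
  have h1 : HasDerivAt (fun w : ℂ => (t:ℂ) - w) (-1) w := (hasDerivAt_id w).const_sub _
  have h2 := (h1.fun_inv (sub_ne hw t)).sub_const (((t / (1 + t ^ 2) : ℝ) : ℂ))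
  exact h2.congr_deriv (by field_simp)

lemma hasDerivAt_cauchyF {f : ℝ → ℝ} (hf : Measurable f)
    (hfi : Integrable (fun t => f t / (1 + t ^ 2))) {w : ℂ} (hw : 0 < w.im) :
    HasDerivAt (cauchyF f) (((1 / Real.pi : ℝ) : ℂ) * ∫ t : ℝ, (f t : ℂ) * (((t:ℂ) - w) ^ 2)⁻¹) w := by
  unfold cauchyF
  refine HasDerivAt.const_mul _ ?_
  set δ : ℝ := w.im / 2 with hδ
  have hδ0 : 0 < δ := by positivity
  set R : ℝ := ‖w‖ + δ with hR
  set C : ℝ := 2 + (2 * R ^ 2 + 1) / δ ^ 2 with hC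
  have hball : ∀ w' ∈ Metric.ball w δ, δ ≤ w'.im ∧ ‖w'‖ ≤ R := by
    intro w' hw'
    rw [Metric.mem_ball, dist_eq_norm] at hw'
    constructor
    · have h1 := (Complex.abs_im_le_norm (w' - w)).trans hw'.le
      rw [Complex.sub_im, abs_le] at h1
      linarith [h1.1]
    · calc ‖w'‖ = ‖(w' - w) + w‖ := by ring_nf
        _ ≤ ‖w' - w‖ + ‖w‖ := norm_add_le _ _
        _ ≤ R := by rw [hR]; linarith
  refine (hasDerivAt_integral_of_dominated_loc_of_deriv_le (μ := volume)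
    (F := fun w (t : ℝ) => (f t : ℂ) * ck w t) (F' := fun w (t : ℝ) => (f t : ℂ) * (((t:ℂ) - w) ^ 2)⁻¹)
    (bound := fun t => C * ‖f t / (1 + t ^ 2)‖)
    (Metric.ball_mem_nhds w hδ0) ?_ (integrable_mul_ck hf hfi hw) ?_ ?_ (hfi.norm.const_mul C)
    ?_).2
  · filter_upwards [Metric.ball_mem_nhds w hδ0] with w' hw'
    have h := (hball w' hw').1
    exact (integrable_mul_ck hf hfi (by linarith)).aestronglyMeasurable
  · refine ((Complex.measurable_ofReal.comp hf).mul ?_).aestronglyMeasurable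
    exact ((Complex.measurable_ofReal.sub_const w).pow_const 2).inv
  · refine Eventually.of_forall (fun t w' hw' => ?_)
    obtain ⟨h1, h2⟩ := hball w' hw'
    have h3 := one_add_sq_le hδ0 h1 h2 t
    have h4 : 0 < ‖(t:ℂ) - w'‖ := lt_of_lt_of_le (by linarith) (norm_sub_ge (w := w') t)
    rw [norm_mul, Complex.norm_real, norm_inv, norm_pow, norm_div,
      Real.norm_of_nonneg (by positivity : (0:ℝ) ≤ 1 + t ^ 2)]
    rw [← div_eq_mul_inv, ← mul_div_assoc, div_le_div_iff₀ (by positivity) (by positivity)]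
    calc ‖f t‖ * (1 + t ^ 2) ≤ ‖f t‖ * (C * ‖(t:ℂ) - w'‖ ^ 2) :=
          mul_le_mul_of_nonneg_left h3 (norm_nonneg _)
      _ = _ := by ring
  · refine Eventually.of_forall (fun t w' hw' => ?_)
    have h := (hball w' hw').1
    exact (hasDerivAt_ck (by linarith) t).const_mul _

lemma differentiableOn_cauchyF {f : ℝ → ℝ} (hf : Measurable f)
    (hfi : Integrable (fun t => f t / (1 + t ^ 2))) : DifferentiableOn ℂ (cauchyF f) HP :=
  fun _ hw => (hasDerivAt_cauchyF hf hfi hw).differentiableAt.differentiableWithinAt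

lemma ck_im (z y t : ℝ) : (ck ⟨z, y⟩ t).im = y / ((z - t) ^ 2 + y ^ 2) := by
  unfold ck
  rw [Complex.sub_im, Complex.ofReal_im, sub_zero, Complex.inv_im, Complex.normSq_apply]
  simp only [Complex.sub_im, Complex.ofReal_im, Complex.sub_re, Complex.ofReal_re]
  congr 1 <;> ring

lemma poisson_eq' (f : ℝ → ℝ) (z y : ℝ) :
    poisson f z y = (1 / Real.pi) * ∫ t, f t * (y / ((z - t) ^ 2 + y ^ 2)) := by
  unfold poisson
  congr 1
  rw [← integral_sub_left_eq_self (fun t => f t * (y / ((z - t) ^ 2 + y ^ 2))) volume z]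
  refine integral_congr_ae (Eventually.of_forall (fun x => ?_))
  simp only
  have : z - (z - x) = x := by ring
  rw [this]; ring

lemma cauchyF_im {f : ℝ → ℝ} (hf : Measurable f)
    (hfi : Integrable (fun t => f t / (1 + t ^ 2))) (z : ℝ) {y : ℝ} (hy : 0 < y) :
    (cauchyF f ⟨z, y⟩).im = poisson f z y := by
  rw [poisson_eq']
  unfold cauchyF
  rw [Complex.im_ofReal_mul]
  congr 1
  have h := Complex.imCLM.integral_comp_comm (integrable_mul_ck hf hfi (w := ⟨z, y⟩) hy)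
  simp only [Complex.imCLM_apply] at h
  rw [← h]
  refine integral_congr_ae (Eventually.of_forall (fun t => ?_))
  simp only
  rw [Complex.im_ofReal_mul, ck_im]

lemma gradSq_eq {f : ℝ → ℝ} (hf : Measurable f)
    (hfi : Integrable (fun t => f t / (1 + t ^ 2))) (z : ℝ) {y : ℝ} (hy : 0 < y) :
    gradSq f z y = ‖deriv (cauchyF f) ⟨z, y⟩‖ ^ 2 := by
  have hF := differentiableOn_cauchyF hf hfi
  have hw : (⟨z, y⟩ : ℂ) ∈ HP := hy
  have d0 := holo_hasDerivAt hF hw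
  have d1 := HasDerivAt.im' (hasDerivAt_re_dir d0)
  have d2 := HasDerivAt.im' (hasDerivAt_im_dir d0)
  have e1 : (fun z' => poisson f z' y) = fun t => (cauchyF f ⟨t, y⟩).im := by
    funext t; rw [cauchyF_im hf hfi t hy]
  have e2 : (fun y' => poisson f z y') =ᶠ[𝓝 y] fun t => (cauchyF f ⟨z, t⟩).im := by
    filter_upwards [lt_mem_nhds hy] with t ht
    rw [cauchyF_im hf hfi z ht]
  unfold gradSq
  rw [e1, d1.deriv, e2.deriv_eq, d2.deriv, Complex.sq_norm, Complex.normSq_apply]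
  simp
  ring

end Pool.Agent.H779R2.Glam
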