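import Pool.Agent.H779R2.Glam.Core3
import Pool.Agent.H779R2.Glam.Poisson

open MeasureTheory Set Filter
open scoped ENNReal NNReal Topology

namespace Pool.Agent.H779R2.Glam

/-- (P1) the Poisson kernel against a nonnegative function is controlled by the maximal
function. -/
lemma kernel_MM {F : ℝ → ℝ≥0∞} (hF : Measurable F) {z y x : ℝ} (hy : 0 < y) (hx : x ∈ J z y) :
    ∫⁻ t, ENNReal.ofReal (1 / (1 + (|t - z| / y) ^ (2:ℝ))) * F t ≤
      ENNReal.ofReal (32 * y) * MM volume F x := by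
  have h2 : (2:ℝ) ^ (-(2:ℝ)) = 1 / 4 := by
    rw [Real.rpow_neg (by norm_num)]; norm_num
  have h16 : (4:ℝ) ^ (2:ℝ) = 16 := by norm_num
  have hpt : ∀ t, ENNReal.ofReal (1 / (1 + (|t - z| / y) ^ (2:ℝ))) * F t ≤
      ∑' j : ℕ, (J z (2 ^ j * y)).indicator (fun t => ENNReal.ofReal (16 * (1 / 4) ^ j) * F t) t := by
    intro t
    obtain ⟨j, hj1, hj2⟩ := kernel_upper (q := 2) (by norm_num) (τ := |t - z| / y) (by positivity)
    refine le_trans ?_ (ENNReal.le_tsum j)
    rw [indicator_of_mem ((mem_J_iff hy j).2 hj1)]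
    rw [h2, h16] at hj2
    gcongr
  calc ∫⁻ t, ENNReal.ofReal (1 / (1 + (|t - z| / y) ^ (2:ℝ))) * F t
      ≤ ∫⁻ t, ∑' j : ℕ, (J z (2 ^ j * y)).indicator
          (fun t => ENNReal.ofReal (16 * (1 / 4) ^ j) * F t) t := lintegral_mono hpt
    _ = ∑' j : ℕ, ENNReal.ofReal (16 * (1 / 4) ^ j) * ∫⁻ t in J z (2 ^ j * y), F t := by
        rw [lintegral_tsum (fun j => ((hF.const_mul _).indicator measurableSet_Ioo).aemeasurable)]
        refine tsum_congr (fun j => ?_)
        rw [lintegral_indicator measurableSet_Ioo, lintegral_const_mul _ hF]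
    _ ≤ ∑' j : ℕ, ENNReal.ofReal (16 * (1 / 4) ^ j) *
          (MM volume F x * ENNReal.ofReal (2 ^ j * y)) := by
        refine ENNReal.tsum_le_tsum (fun j => ?_)
        refine mul_le_mul' le_rfl ?_
        have h1 : (1:ℝ) ≤ 2 ^ j := one_le_pow₀ (by norm_num)
        have h3 : y ≤ 2 ^ j * y := le_mul_of_one_le_left hy.le h1
        have hxj : x ∈ J z (2 ^ j * y) :=
          ⟨by have := hx.1; linarith, by have := hx.2; linarith⟩
        have h4 := le_MM volume F hxj
        have hv : volume (J z (2 ^ j * y)) = ENNReal.ofReal (2 ^ j * y) := volume_J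
        rw [hv] at h4
        rwa [ENNReal.div_le_iff (by simpa using (by positivity : 0 < 2 ^ j * y))
          ENNReal.ofReal_ne_top] at h4
    _ = ∑' j : ℕ, (MM volume F x) * ENNReal.ofReal (16 * y * (1 / 2) ^ j) := by
        refine tsum_congr (fun j => ?_)
        have : ENNReal.ofReal (16 * y * (1 / 2) ^ j) =
            ENNReal.ofReal (16 * (1 / 4) ^ j) * ENNReal.ofReal (2 ^ j * y) := by
          rw [← ENNReal.ofReal_mul (by positivity)]
          congr 1
          have : ((1:ℝ) / 2) ^ j = (1 / 4) ^ j * 2 ^ j := by rw [← mul_pow]; norm_num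
          rw [this]; ring
        rw [this]; ring
    _ = (MM volume F x) * ENNReal.ofReal (32 * y) := by
        rw [ENNReal.tsum_mul_left]
        congr 1
        rw [← ENNReal.ofReal_tsum_of_nonneg (fun n => by positivity)
          ((summable_geometric_of_lt_one (by norm_num) (by norm_num)).mul_left _), tsum_mul_left,
          tsum_geometric_of_lt_one (by norm_num) (by norm_num)]
        congr 1; ring
    _ = _ := mul_comm _ _

/-- (P2) -/
lemma poisson_MM {f : ℝ → ℝ} (hf : Measurable f) (h0 : ∀ t, 0 ≤ f t) {z y x : ℝ} (hy : 0 < y)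
    (hx : x ∈ J z y) : ENNReal.ofReal (poisson f z y) ≤
      11 * MM volume (fun t => ENNReal.ofReal (f t)) x := by
  rw [poisson_eq', ENNReal.ofReal_mul (by positivity)]
  set g : ℝ → ℝ := fun t => f t * (y / ((z - t) ^ 2 + y ^ 2)) with hg
  have hg0 : ∀ t, 0 ≤ g t := fun t => mul_nonneg (h0 t) (by positivity)
  have hgm : Measurable g := by
    refine hf.mul (measurable_const.div ?_)
    exact ((measurable_id.const_sub z).pow_const 2).add_const _
  have h1 : ENNReal.ofReal (∫ t, g t) ≤ ∫⁻ t, ENNReal.ofReal (g t) := by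
    rw [integral_eq_lintegral_of_nonneg_ae (Eventually.of_forall hg0) hgm.aestronglyMeasurable]
    exact ENNReal.ofReal_toReal_le
  have h2 : ∫⁻ t, ENNReal.ofReal (g t) = ENNReal.ofReal (1 / y) *
      ∫⁻ t, ENNReal.ofReal (1 / (1 + (|t - z| / y) ^ (2:ℝ))) * ENNReal.ofReal (f t) := by
    rw [← lintegral_const_mul' _ _ ENNReal.ofReal_ne_top]
    refine lintegral_congr (fun t => ?_)
    rw [← ENNReal.ofReal_mul (by positivity), ← ENNReal.ofReal_mul (by positivity)]
    congr 1
    simp only [hg]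
    rw [Real.rpow_two, div_pow, sq_abs]
    have : (z - t) ^ 2 = (t - z) ^ 2 := by ring
    rw [this]
    have h3 : 0 < (t - z) ^ 2 + y ^ 2 := by positivity
    have h4 : 0 < 1 + (t - z) ^ 2 / y ^ 2 := by positivity
    field_simp
    ring
  calc ENNReal.ofReal (1 / Real.pi) * ENNReal.ofReal (∫ t, g t)
      ≤ ENNReal.ofReal (1 / Real.pi) * (ENNReal.ofReal (1 / y) *
          (ENNReal.ofReal (32 * y) * MM volume (fun t => ENNReal.ofReal (f t)) x)) := by
        refine mul_le_mul' le_rfl (h1.trans ?_)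
        rw [h2]
        refine mul_le_mul' le_rfl ?_
        exact kernel_MM hf.ennreal_ofReal hy hx
    _ = ENNReal.ofReal (32 / Real.pi) * MM volume (fun t => ENNReal.ofReal (f t)) x := by
        rw [← mul_assoc, ← mul_assoc, ← ENNReal.ofReal_mul (by positivity),
          ← ENNReal.ofReal_mul (by positivity)]
        congr 2
        field_simp
    _ ≤ _ := by
        refine mul_le_mul' ?_ le_rfl
        have : (11:ℝ≥0∞) = ENNReal.ofReal 11 := by norm_num
        rw [this]
        refine ENNReal.ofReal_le_ofReal ?_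
        rw [div_le_iff₀ Real.pi_pos]
        have := Real.pi_gt_three
        linarith

/-- A zero of the nonnegative imaginary part is a critical point. -/
lemma crit_of_zero {F : ℂ → ℂ} (hF : DifferentiableOn ℂ F HP) (hpos : ∀ w ∈ HP, 0 ≤ (F w).im)
    {z y : ℝ} (hy : 0 < y) (h0 : (F ⟨z, y⟩).im = 0) : deriv F ⟨z, y⟩ = 0 := by
  have hw : (⟨z, y⟩ : ℂ) ∈ HP := hy
  have d0 := holo_hasDerivAt hF hw
  have d1 := HasDerivAt.im' (hasDerivAt_re_dir d0)
  have d2 := HasDerivAt.im' (hasDerivAt_im_dir d0)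
  have m1 : IsLocalMin (fun t : ℝ => (F ⟨t, y⟩).im) z :=
    Eventually.of_forall (fun t => by
      show (F ⟨z, y⟩).im ≤ (F ⟨t, y⟩).im
      rw [h0]; exact hpos _ hy)
  have m2 : IsLocalMin (fun t : ℝ => (F ⟨z, t⟩).im) y := by
    filter_upwards [lt_mem_nhds hy] with t ht
    show (F ⟨z, y⟩).im ≤ (F ⟨z, t⟩).im
    rw [h0]; exact hpos _ ht
  have e1 := m1.hasDerivAt_eq_zero d1
  have e2 := m2.hasDerivAt_eq_zero d2
  have e3 : (deriv F ⟨z, y⟩ * Complex.I).im = (deriv F ⟨z, y⟩).re := by simp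
  rw [e3] at e2
  exact Complex.ext e2 e1

/-- the Poisson integral on the upper half-plane, extended by zero -/
noncomputable def VV (f : ℝ → ℝ) : ℝ × ℝ → ℝ := by
  classical
  exact UH.piecewise (fun q => (cauchyF f ⟨q.1, q.2⟩).im) 0

/-- the squared gradient on the upper half-plane, extended by zero -/
noncomputable def DD (f : ℝ → ℝ) : ℝ × ℝ → ℝ := by
  classical
  exact UH.piecewise (fun q => ‖deriv (cauchyF f) ⟨q.1, q.2⟩‖ ^ 2) 0

lemma VV_of_mem (f : ℝ → ℝ) {q : ℝ × ℝ} (hq : q ∈ UH) : VV f q = (cauchyF f ⟨q.1, q.2⟩).im := by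
  classical
  unfold VV; rw [piecewise_eq_of_mem _ _ _ hq]

lemma DD_of_mem (f : ℝ → ℝ) {q : ℝ × ℝ} (hq : q ∈ UH) :
    DD f q = ‖deriv (cauchyF f) ⟨q.1, q.2⟩‖ ^ 2 := by
  classical
  unfold DD; rw [piecewise_eq_of_mem _ _ _ hq]

lemma VV_of_notMem (f : ℝ → ℝ) {q : ℝ × ℝ} (hq : q ∉ UH) : VV f q = 0 := by
  classical
  unfold VV; rw [piecewise_eq_of_notMem _ _ _ hq]; rfl

lemma DD_of_notMem (f : ℝ → ℝ) {q : ℝ × ℝ} (hq : q ∉ UH) : DD f q = 0 := by
  classical
  unfold DD; rw [piecewise_eq_of_notMem _ _ _ hq]; rfl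

lemma setup_of {f : ℝ → ℝ} (hf : Measurable f) (hf0 : ∀ t, 0 ≤ f t)
    (hfi : Integrable (fun t => f t / (1 + t ^ 2))) :
    Setup (VV f) (DD f) (MM volume (fun t => ENNReal.ofReal (f t))) := by
  have hF := differentiableOn_cauchyF hf hfi
  have hmaps : MapsTo (fun p : ℝ × ℝ => (⟨p.1, p.2⟩ : ℂ)) UH HP := fun p hp => hp
  have him : ∀ q ∈ UH, (cauchyF f ⟨q.1, q.2⟩).im = poisson f q.1 q.2 :=
    fun q hq => cauchyF_im hf hfi q.1 hq
  have hpos : ∀ w ∈ HP, 0 ≤ (cauchyF f w).im := by
    intro w hw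
    have h1 := cauchyF_im hf hfi w.re (y := w.im) hw
    have h2 : (⟨w.re, w.im⟩ : ℂ) = w := Complex.eta w
    rw [h2] at h1
    rw [h1, poisson_eq']
    refine mul_nonneg (by positivity) (integral_nonneg (fun t => ?_))
    have hw' : 0 < w.im := hw
    exact mul_nonneg (hf0 t) (by positivity)
  refine ⟨?_, ?_, measurable_MM _ _, ?_, ?_, ?_, ?_, ?_, ?_⟩
  · unfold VV
    classical
    refine ContinuousOn.measurable_piecewise ?_ continuousOn_const measurableSet_UH
    exact Complex.continuous_im.comp_continuousOn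
      (hF.continuousOn.comp continuous_pt.continuousOn hmaps)
  · unfold DD
    classical
    refine ContinuousOn.measurable_piecewise ?_ continuousOn_const measurableSet_UH
    exact (((holo_deriv hF).continuousOn.comp continuous_pt.continuousOn hmaps).norm).pow 2
  · intro q
    by_cases hq : q ∈ UH
    · rw [VV_of_mem f hq]; exact hpos _ hq
    · rw [VV_of_notMem f hq]
  · intro q
    by_cases hq : q ∈ UH
    · rw [DD_of_mem f hq]; positivity
    · rw [DD_of_notMem f hq]
  · intro N hN a b hab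
    refine le_trans (le_of_eq ?_) (green_tent hF hpos hN hab)
    refine setLIntegral_congr_fun (measurableSet_tent_Ioo a b) (fun q hq => ?_)
    have hqU : q ∈ UH := hq.1
    rw [VV_of_mem f hqU, DD_of_mem f hqU]
  · intro q hq t ht
    rw [VV_of_mem f hq, him q hq]
    exact poisson_MM hf hf0 hq ht
  · intro q hq h0
    rw [VV_of_mem f hq] at h0
    rw [DD_of_mem f hq, crit_of_zero hF hpos hq h0]
    simp
  · intro t
    exact isOpen_MM _ _ _

end Pool.Agent.H779R2.Glam
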