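import Pool.Agent.H779R2.Glam.Defs

open MeasureTheory Set Filter
open scoped ENNReal NNReal Topology

namespace Pool.Agent.H779R2.Glam

/-- The Carleson tail lemma in its discrete form: sums of tails bounded by the first term
give geometric decay. -/
lemma decay_of_tail {b : ℕ → ℝ} {C : ℝ} (hC : 1 ≤ C)
    (h : ∀ k n, k ≤ n → ∑ j ∈ Finset.Icc k n, b j ≤ C * b k) (n : ℕ) :
    b n ≤ C * (1 - 1 / C) ^ n * b 0 := by
  have hC0 : 0 < C := by linarith
  have hθ : 0 ≤ 1 - 1 / C := by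
    have : 1 / C ≤ 1 := by rw [div_le_one hC0]; exact hC
    linarith
  -- T k = sum over Icc k n
  have key : ∀ k, k ≤ n → ∑ j ∈ Finset.Icc k n, b j ≤ (1 - 1 / C) ^ k * (C * b 0) := by
    intro k
    induction k with
    | zero =>
      intro _
      simpa using h 0 n (Nat.zero_le n)
    | succ k ih =>
      intro hk
      have h1 := ih (by omega)
      have h2 : ∑ j ∈ Finset.Icc k n, b j = b k + ∑ j ∈ Finset.Icc (k+1) n, b j := by
        rw [← Finset.sum_Ioc_add_eq_sum_Icc (by omega : k ≤ n), add_comm]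
        congr 1
        refine Finset.sum_congr ?_ (fun _ _ => rfl)
        ext x
        simp only [Finset.mem_Ioc, Finset.mem_Icc]
        omega
      have h3 := h k n (by omega)
      have h4 : ∑ j ∈ Finset.Icc (k+1) n, b j ≤ (1 - 1 / C) * ∑ j ∈ Finset.Icc k n, b j := by
        have h5 : (1 / C) * ∑ j ∈ Finset.Icc k n, b j ≤ b k := by
          have := mul_le_mul_of_nonneg_left h3 (by positivity : 0 ≤ 1 / C)
          have e : 1 / C * (C * b k) = b k := by field_simp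
          linarith
        have : (1 - 1 / C) * ∑ j ∈ Finset.Icc k n, b j
            = ∑ j ∈ Finset.Icc k n, b j - (1 / C) * ∑ j ∈ Finset.Icc k n, b j := by ring
        rw [this]
        linarith
      calc ∑ j ∈ Finset.Icc (k+1) n, b j ≤ (1 - 1 / C) * ∑ j ∈ Finset.Icc k n, b j := h4
        _ ≤ (1 - 1 / C) * ((1 - 1 / C) ^ k * (C * b 0)) := mul_le_mul_of_nonneg_left h1 hθ
        _ = (1 - 1 / C) ^ (k+1) * (C * b 0) := by ring
  have h6 := key n le_rfl
  rw [Finset.Icc_self, Finset.sum_singleton] at h6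
  calc b n ≤ (1 - 1 / C) ^ n * (C * b 0) := h6
    _ = C * (1 - 1 / C) ^ n * b 0 := by ring

/-- Pointwise lower bound for the kernel by dyadic indicators. -/
lemma kernel_lower {r : ℝ} (hr : 0 < r) {τ : ℝ} (hτ : 0 ≤ τ) (n : ℕ) :
    ∑ j ∈ Finset.range n, (if τ < 2 ^ j / 2 then ((2:ℝ) ^ (-r)) ^ j else 0)
      ≤ 2 / (1 - (2:ℝ) ^ (-r)) * (1 / (1 + τ ^ r)) := by
  set a : ℝ := (2:ℝ) ^ (-r) with ha
  have ha0 : 0 < a := by positivity
  have ha1 : a < 1 := Real.rpow_lt_one_of_one_lt_of_neg (by norm_num) (by linarith)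
  have h1a : 0 < 1 - a := by linarith
  have hτr : 0 ≤ τ ^ r := Real.rpow_nonneg hτ r
  -- existence of the least j0
  obtain ⟨j1, hj1⟩ : ∃ j : ℕ, τ < 2 ^ j / 2 := by
    obtain ⟨j, hj⟩ := pow_unbounded_of_one_lt (2 * τ) (by norm_num : (1:ℝ) < 2)
    exact ⟨j, by linarith⟩
  classical
  set j0 := Nat.find (⟨j1, hj1⟩ : ∃ j : ℕ, τ < 2 ^ j / 2) with hj0
  have hj0s : τ < 2 ^ j0 / 2 := Nat.find_spec (⟨j1, hj1⟩ : ∃ j : ℕ, τ < 2 ^ j / 2)
  have hiff : ∀ j : ℕ, τ < 2 ^ j / 2 ↔ j0 ≤ j := by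
    intro j
    constructor
    · intro h; exact Nat.find_min' _ h
    · intro h
      have : (2:ℝ) ^ j0 ≤ 2 ^ j := pow_le_pow_right₀ (by norm_num) h
      linarith
  have hsum : ∑ j ∈ Finset.range n, (if τ < 2 ^ j / 2 then a ^ j else 0) ≤ a ^ j0 / (1 - a) := by
    calc ∑ j ∈ Finset.range n, (if τ < 2 ^ j / 2 then a ^ j else 0)
        = ∑ j ∈ Finset.range n, (if j0 ≤ j then a ^ j else 0) := by
          refine Finset.sum_congr rfl (fun j _ => ?_)
          simp only [hiff j]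
      _ ≤ ∑ j ∈ Finset.range (j0 + n), (if j0 ≤ j then a ^ j else 0) := by
          refine Finset.sum_le_sum_of_subset_of_nonneg ?_ ?_
          · intro j hj; simp only [Finset.mem_range] at hj ⊢; omega
          · intro j _ _; split_ifs <;> positivity
      _ = ∑ k ∈ Finset.range n, a ^ (j0 + k) := by
          rw [Finset.sum_range_add]
          have : ∑ x ∈ Finset.range j0, (if j0 ≤ x then a ^ x else 0) = 0 := by
            refine Finset.sum_eq_zero (fun x hx => ?_)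
            simp only [Finset.mem_range] at hx
            rw [if_neg (by omega)]
          rw [this, zero_add]
          refine Finset.sum_congr rfl (fun k _ => ?_)
          rw [if_pos (by omega)]
      _ = a ^ j0 * ∑ k ∈ Finset.range n, a ^ k := by
          rw [Finset.mul_sum]
          refine Finset.sum_congr rfl (fun k _ => ?_)
          rw [pow_add]
      _ ≤ a ^ j0 * (1 - a)⁻¹ := by
          refine mul_le_mul_of_nonneg_left ?_ (by positivity)
          rw [← tsum_geometric_of_lt_one ha0.le ha1]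
          exact (summable_geometric_of_lt_one ha0.le ha1).sum_le_tsum _ (fun _ _ => by positivity)
      _ = a ^ j0 / (1 - a) := by rw [div_eq_mul_inv]
  have hpow : a ^ j0 * (1 + τ ^ r) ≤ 2 := by
    have h1 : a ^ j0 ≤ 1 := pow_le_one₀ ha0.le ha1.le
    have h2 : a ^ j0 * τ ^ r ≤ 1 := by
      have h3 : τ ^ r ≤ ((2:ℝ) ^ j0) ^ r := Real.rpow_le_rpow hτ (by linarith [pow_pos (by norm_num : (0:ℝ) < 2) j0]) hr.le
      have h4 : a ^ j0 = (((2:ℝ) ^ j0) ^ r)⁻¹ := by
        rw [ha, ← Real.rpow_natCast ((2:ℝ) ^ (-r)) j0, ← Real.rpow_mul (by norm_num),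
          ← Real.rpow_natCast 2 j0, ← Real.rpow_mul (by norm_num), ← Real.rpow_neg (by norm_num)]
        congr 1; ring
      have h5 : 0 < ((2:ℝ) ^ j0) ^ r := by positivity
      rw [h4]
      rw [inv_mul_le_iff₀ h5]
      linarith
    nlinarith
  have h1τ : 0 < 1 + τ ^ r := by linarith
  refine hsum.trans ?_
  rw [div_mul_div_comm, mul_one, div_le_div_iff₀ h1a (by positivity)]
  nlinarith [mul_le_mul_of_nonneg_right hpow h1a.le]

/-- Pointwise upper bound for the kernel by a dyadic indicator. -/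
lemma kernel_upper {q : ℝ} (hq : 0 < q) {τ : ℝ} (hτ : 0 ≤ τ) :
    ∃ j : ℕ, τ < 2 ^ j / 2 ∧ 1 / (1 + τ ^ q) ≤ (4:ℝ) ^ q * ((2:ℝ) ^ (-q)) ^ j := by
  obtain ⟨j1, hj1⟩ : ∃ j : ℕ, τ < 2 ^ j / 2 := by
    obtain ⟨j, hj⟩ := pow_unbounded_of_one_lt (2 * τ) (by norm_num : (1:ℝ) < 2)
    exact ⟨j, by linarith⟩
  classical
  set j0 := Nat.find (⟨j1, hj1⟩ : ∃ j : ℕ, τ < 2 ^ j / 2) with hj0
  have hj0s : τ < 2 ^ j0 / 2 := Nat.find_spec (⟨j1, hj1⟩ : ∃ j : ℕ, τ < 2 ^ j / 2)
  have hτr : 0 ≤ τ ^ q := Real.rpow_nonneg hτ q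
  have e4 : ∀ j : ℕ, ((2:ℝ) ^ (-q)) ^ j = (((2:ℝ) ^ j) ^ q)⁻¹ := by
    intro j
    rw [← Real.rpow_natCast ((2:ℝ) ^ (-q)) j, ← Real.rpow_mul (by norm_num),
          ← Real.rpow_natCast 2 j, ← Real.rpow_mul (by norm_num), ← Real.rpow_neg (by norm_num)]
    congr 1; ring
  refine ⟨j0, hj0s, ?_⟩
  rcases Nat.eq_zero_or_pos j0 with h0 | h0
  · rw [h0, pow_zero, mul_one]
    have h1 : (1:ℝ) ≤ 4 ^ q := Real.one_le_rpow (by norm_num) hq.le
    have h2 : 1 / (1 + τ ^ q) ≤ 1 := by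
      rw [div_le_one (by linarith)]; linarith
    linarith
  · have hmin : ¬ (τ < 2 ^ (j0 - 1) / 2) := Nat.find_min (⟨j1, hj1⟩ : ∃ j : ℕ, τ < 2 ^ j / 2)
      (by omega)
    push Not at hmin
    obtain ⟨m, hm⟩ : ∃ m, j0 = m + 1 := ⟨j0 - 1, by omega⟩
    rw [hm] at hmin ⊢
    simp only [Nat.add_sub_cancel] at hmin
    have h2m : (0:ℝ) < 2 ^ m := by positivity
    have hτ0 : 0 < τ := lt_of_lt_of_le (by positivity) hmin
    have h3 : ((2:ℝ) ^ (m+1)) ^ q ≤ (4 * τ) ^ q := by
      refine Real.rpow_le_rpow (by positivity) ?_ hq.le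
      rw [pow_succ]; linarith
    rw [Real.mul_rpow (by norm_num) hτ] at h3
    rw [e4, ← div_eq_mul_inv, div_le_div_iff₀ (by linarith) (by positivity)]
    have h4 : 0 < (4:ℝ) ^ q := by positivity
    nlinarith

/-- interval with centre `c` and length `l` -/
abbrev J (c l : ℝ) : Set ℝ := Ioo (c - l / 2) (c + l / 2)

/-- `B_r` for a measure. -/
def BMeas (r : ℝ) (μ : Measure ℝ) : Prop :=
  ∃ C : ℝ≥0, ∀ c l : ℝ, 0 < l →
    ∫⁻ x, ENNReal.ofReal (1 / (1 + (|x - c| / l) ^ r)) ∂μ ≤ C * μ (J c l)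

/-- Polynomial growth of order `s` for the measure of dilated intervals. -/
def Dbl (s : ℝ) (μ : Measure ℝ) : Prop :=
  ∃ C : ℝ≥0, ∀ (c l : ℝ) (n : ℕ), 0 < l →
    μ (J c (2 ^ n * l)) ≤ C * ENNReal.ofReal (((2:ℝ) ^ s) ^ n) * μ (J c l)

lemma mem_J_iff {c l x : ℝ} (hl : 0 < l) (n : ℕ) :
    x ∈ J c (2 ^ n * l) ↔ |x - c| / l < 2 ^ n / 2 := by
  rw [mem_Ioo, div_lt_iff₀ hl, abs_lt]
  constructor
  · rintro ⟨h1, h2⟩; constructor <;> linarith
  · rintro ⟨h1, h2⟩; constructor <;> linarith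

lemma measurable_kernel (r c l : ℝ) :
    Measurable (fun x : ℝ => ENNReal.ofReal (1 / (1 + (|x - c| / l) ^ r))) := by
  have : Measurable (fun x : ℝ => |x - c| / l) := by
    have := (measurable_id.sub_const c).abs.div_const l
    simpa using this
  exact (measurable_const.div (measurable_const.add (this.pow_const r))).ennreal_ofReal

lemma tail_le {r : ℝ} (hr : 0 < r) {μ : Measure ℝ} {C : ℝ≥0}
    (hB : ∀ c l : ℝ, 0 < l →
      ∫⁻ x, ENNReal.ofReal (1 / (1 + (|x - c| / l) ^ r)) ∂μ ≤ C * μ (J c l))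
    (c l : ℝ) (hl : 0 < l) (n : ℕ) :
    ∑ j ∈ Finset.range n, ENNReal.ofReal (((2:ℝ) ^ (-r)) ^ j) * μ (J c (2 ^ j * l))
      ≤ ENNReal.ofReal (2 / (1 - (2:ℝ) ^ (-r))) * C * μ (J c l) := by
  have ha1 : (2:ℝ) ^ (-r) < 1 := Real.rpow_lt_one_of_one_lt_of_neg (by norm_num) (by linarith)
  calc ∑ j ∈ Finset.range n, ENNReal.ofReal (((2:ℝ) ^ (-r)) ^ j) * μ (J c (2 ^ j * l))
      = ∑ j ∈ Finset.range n, ∫⁻ x, (J c (2 ^ j * l)).indicator
          (fun _ => ENNReal.ofReal (((2:ℝ) ^ (-r)) ^ j)) x ∂μ := by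
        refine Finset.sum_congr rfl (fun j _ => ?_)
        rw [lintegral_indicator_const measurableSet_Ioo]
    _ = ∫⁻ x, ∑ j ∈ Finset.range n, (J c (2 ^ j * l)).indicator
          (fun _ => ENNReal.ofReal (((2:ℝ) ^ (-r)) ^ j)) x ∂μ := by
        rw [lintegral_finsetSum _ (fun j _ => measurable_const.indicator measurableSet_Ioo)]
    _ ≤ ∫⁻ x, ENNReal.ofReal (2 / (1 - (2:ℝ) ^ (-r))) *
          ENNReal.ofReal (1 / (1 + (|x - c| / l) ^ r)) ∂μ := by
        refine lintegral_mono (fun x => ?_)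
        have h := kernel_lower hr (τ := |x - c| / l) (by positivity) n
        rw [← ENNReal.ofReal_mul (by
          have : 0 < 1 - (2:ℝ) ^ (-r) := by linarith
          positivity)]
        refine le_trans (le_of_eq ?_) (ENNReal.ofReal_le_ofReal h)
        rw [ENNReal.ofReal_sum_of_nonneg (fun j _ => by split_ifs <;> positivity)]
        refine Finset.sum_congr rfl (fun j _ => ?_)
        by_cases hx : x ∈ J c (2 ^ j * l)
        · rw [indicator_of_mem hx, if_pos ((mem_J_iff hl j).1 hx)]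
        · rw [indicator_of_notMem hx, if_neg (fun h => hx ((mem_J_iff hl j).2 h)),
            ENNReal.ofReal_zero]
    _ = ENNReal.ofReal (2 / (1 - (2:ℝ) ^ (-r))) *
          ∫⁻ x, ENNReal.ofReal (1 / (1 + (|x - c| / l) ^ r)) ∂μ := by
        rw [lintegral_const_mul _ (measurable_kernel r c l)]
    _ ≤ ENNReal.ofReal (2 / (1 - (2:ℝ) ^ (-r))) * (C * μ (J c l)) := by
        gcongr
        exact hB c l hl
    _ = _ := by ring

/-- Self-improvement: `B_r` gives polynomial growth of an order strictly below `r`. -/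
lemma BMeas.exists_dbl {r : ℝ} (hr : 0 < r) {μ : Measure ℝ} (hfin : ∀ a b, μ (Ioo a b) < ∞)
    (hB : BMeas r μ) : ∃ s, s < r ∧ Dbl s μ := by
  obtain ⟨C, hC⟩ := hB
  set a : ℝ := (2:ℝ) ^ (-r) with ha
  have ha0 : 0 < a := by positivity
  have ha1 : a < 1 := Real.rpow_lt_one_of_one_lt_of_neg (by norm_num) (by linarith)
  have h1a : 0 < 1 - a := by linarith
  set D : ℝ := 2 / (1 - a) * C + 2 with hD
  have hC0 : (0:ℝ) ≤ C := C.2
  have hD2 : 2 ≤ D := by rw [hD]; have : 0 ≤ 2 / (1 - a) * (C:ℝ) := by positivity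
                         linarith
  have hD0 : 0 < D := by linarith
  set θ : ℝ := 1 - 1 / D with hθ
  have hθ0 : 0 < θ := by
    have : 1 / D ≤ 1 / 2 := by apply one_div_le_one_div_of_le <;> linarith
    rw [hθ]; linarith
  have hθ1 : θ < 1 := by
    have : 0 < 1 / D := by positivity
    rw [hθ]; linarith
  have hreal : ∀ (c l : ℝ) (n : ℕ), 0 < l →
      ∑ j ∈ Finset.range n, a ^ j * μ.real (J c (2 ^ j * l)) ≤ D * μ.real (J c l) := by
    intro c l n hl
    have h := tail_le hr hC c l hl n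
    have hne : ENNReal.ofReal (2 / (1 - a)) * C * μ (J c l) ≠ ∞ := by
      refine ENNReal.mul_ne_top (ENNReal.mul_ne_top ENNReal.ofReal_ne_top ENNReal.coe_ne_top)
        (hfin _ _).ne
    have h2 := (ENNReal.toReal_le_toReal (ne_top_of_le_ne_top hne h) hne).2 h
    rw [ENNReal.toReal_sum (fun j _ => ENNReal.mul_ne_top ENNReal.ofReal_ne_top (hfin _ _).ne)] at h2
    simp only [ENNReal.toReal_mul] at h2
    rw [ENNReal.toReal_ofReal (by positivity)] at h2
    have e1 : ∀ j : ℕ, (ENNReal.ofReal (a ^ j)).toReal = a ^ j := fun j =>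
      ENNReal.toReal_ofReal (by positivity)
    rw [← ha] at h2
    simp only [e1] at h2
    have h3 : 0 ≤ (μ (J c l)).toReal := ENNReal.toReal_nonneg
    calc _ ≤ 2 / (1 - a) * C * (μ (J c l)).toReal := h2
      _ ≤ D * (μ (J c l)).toReal := by
          apply mul_le_mul_of_nonneg_right _ h3
          rw [hD]; linarith
  have hdec : ∀ (c l : ℝ) (n : ℕ), 0 < l →
      a ^ n * μ.real (J c (2 ^ n * l)) ≤ D * θ ^ n * μ.real (J c l) := by
    intro c l n hl
    have := decay_of_tail (b := fun j => a ^ j * μ.real (J c (2 ^ j * l))) (C := D)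
      (by linarith) ?_ n
    · simpa [hθ] using this
    · intro k m hkm
      have h1 := hreal c (2 ^ k * l) (m + 1 - k) (by positivity)
      have e1 : ∑ j ∈ Finset.Icc k m, a ^ j * μ.real (J c (2 ^ j * l))
          = a ^ k * ∑ j ∈ Finset.range (m + 1 - k), a ^ j * μ.real (J c (2 ^ j * (2 ^ k * l))) := by
        rw [← Finset.Ico_add_one_right_eq_Icc, Finset.sum_Ico_eq_sum_range, Finset.mul_sum]
        refine Finset.sum_congr rfl (fun j _ => ?_)
        rw [pow_add, pow_add]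
        have : (2:ℝ) ^ k * 2 ^ j * l = 2 ^ j * (2 ^ k * l) := by ring
        rw [this]; ring
      have h2 := mul_le_mul_of_nonneg_left h1 (by positivity : 0 ≤ a ^ k)
      show ∑ j ∈ Finset.Icc k m, a ^ j * μ.real (J c (2 ^ j * l)) ≤
        D * (a ^ k * μ.real (J c (2 ^ k * l)))
      rw [e1]
      linarith
  -- s with 2^s = θ 2^r
  refine ⟨r + Real.logb 2 θ, ?_, ⟨D.toNNReal, ?_⟩⟩
  · have : Real.logb 2 θ < 0 := Real.logb_neg (by norm_num) hθ0 hθ1
    linarith
  · intro c l n hl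
    have h := hdec c l n hl
    have e2 : (2:ℝ) ^ (r + Real.logb 2 θ) = θ / a := by
      rw [Real.rpow_add (by norm_num), Real.rpow_logb (by norm_num) (by norm_num) hθ0, ha,
        Real.rpow_neg (by norm_num)]
      field_simp
    rw [e2]
    have h4 : μ.real (J c (2 ^ n * l)) ≤ D * (θ / a) ^ n * μ.real (J c l) := by
      have han : 0 < a ^ n := by positivity
      rw [div_pow]
      have : D * (θ ^ n / a ^ n) * μ.real (J c l) = (D * θ ^ n * μ.real (J c l)) / a ^ n := by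
        ring
      rw [this, le_div_iff₀ han]
      linarith
    have h5 : μ (J c (2 ^ n * l)) = ENNReal.ofReal (μ.real (J c (2 ^ n * l))) := by
      rw [Measure.real, ENNReal.ofReal_toReal (hfin _ _).ne]
    have h6 : μ (J c l) = ENNReal.ofReal (μ.real (J c l)) := by
      rw [Measure.real, ENNReal.ofReal_toReal (hfin _ _).ne]
    rw [h5, h6]
    have h7 : (D.toNNReal : ℝ≥0∞) = ENNReal.ofReal D := rfl
    rw [h7, ← ENNReal.ofReal_mul hD0.le, ← ENNReal.ofReal_mul (by positivity)]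
    exact ENNReal.ofReal_le_ofReal h4

/-- Polynomial growth of order `s` gives `B_q` for every `q > s`. -/
lemma Dbl.bMeas {s q : ℝ} (hsq : s < q) (hq : 0 < q) {μ : Measure ℝ} (hD : Dbl s μ) :
    BMeas q μ := by
  obtain ⟨C, hC⟩ := hD
  set a : ℝ := (2:ℝ) ^ (-q) with ha
  have ha0 : 0 < a := by positivity
  set b : ℝ := a * (2:ℝ) ^ s with hb
  have hb0 : 0 < b := by positivity
  have hb1 : b < 1 := by
    rw [hb, ha, ← Real.rpow_add (by norm_num)]
    exact Real.rpow_lt_one_of_one_lt_of_neg (by norm_num) (by linarith)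
  refine ⟨((4:ℝ) ^ q).toNNReal * C * (1 / (1 - b)).toNNReal, fun c l hl => ?_⟩
  have hpt : ∀ x, ENNReal.ofReal (1 / (1 + (|x - c| / l) ^ q)) ≤
      ∑' j : ℕ, (J c (2 ^ j * l)).indicator (fun _ => ENNReal.ofReal ((4:ℝ) ^ q * a ^ j)) x := by
    intro x
    obtain ⟨j, hj1, hj2⟩ := kernel_upper hq (τ := |x - c| / l) (by positivity)
    refine le_trans ?_ (ENNReal.le_tsum j)
    rw [indicator_of_mem ((mem_J_iff hl j).2 hj1)]
    exact ENNReal.ofReal_le_ofReal hj2
  calc ∫⁻ x, ENNReal.ofReal (1 / (1 + (|x - c| / l) ^ q)) ∂μ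
      ≤ ∫⁻ x, ∑' j : ℕ, (J c (2 ^ j * l)).indicator
          (fun _ => ENNReal.ofReal ((4:ℝ) ^ q * a ^ j)) x ∂μ := lintegral_mono hpt
    _ = ∑' j : ℕ, ENNReal.ofReal ((4:ℝ) ^ q * a ^ j) * μ (J c (2 ^ j * l)) := by
        rw [lintegral_tsum (fun j => (measurable_const.indicator measurableSet_Ioo).aemeasurable)]
        refine tsum_congr (fun j => ?_)
        rw [lintegral_indicator_const measurableSet_Ioo]
    _ ≤ ∑' j : ℕ, ENNReal.ofReal ((4:ℝ) ^ q * a ^ j) *
          (C * ENNReal.ofReal (((2:ℝ) ^ s) ^ j) * μ (J c l)) := by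
        refine ENNReal.tsum_le_tsum (fun j => ?_)
        gcongr
        exact hC c l j hl
    _ = ∑' j : ℕ, (((4:ℝ) ^ q).toNNReal * C * μ (J c l)) * ENNReal.ofReal (b ^ j) := by
        refine tsum_congr (fun j => ?_)
        have e1 : ENNReal.ofReal ((4:ℝ) ^ q * a ^ j) =
            ENNReal.ofReal ((4:ℝ) ^ q) * ENNReal.ofReal (a ^ j) := by
          rw [ENNReal.ofReal_mul (by positivity)]
        have e2 : ENNReal.ofReal (b ^ j) =
            ENNReal.ofReal (a ^ j) * ENNReal.ofReal (((2:ℝ) ^ s) ^ j) := by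
          rw [hb, mul_pow, ENNReal.ofReal_mul (by positivity)]
        have e3 : (((4:ℝ) ^ q).toNNReal : ℝ≥0∞) = ENNReal.ofReal ((4:ℝ) ^ q) := rfl
        rw [e1, e2, e3]
        ring
    _ = (((4:ℝ) ^ q).toNNReal * C * μ (J c l)) * ENNReal.ofReal (1 / (1 - b)) := by
        rw [ENNReal.tsum_mul_left]
        congr 1
        rw [← ENNReal.ofReal_tsum_of_nonneg (fun n => by positivity)
          (summable_geometric_of_lt_one hb0.le hb1), tsum_geometric_of_lt_one hb0.le hb1,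
          one_div]
    _ = _ := by
        push_cast
        have e4 : (((1 / (1 - b)).toNNReal : ℝ≥0) : ℝ≥0∞) = ENNReal.ofReal (1 / (1 - b)) := rfl
        rw [e4]
        ring

/-- `B_q` implies `B_r` for `q ≤ r`. -/
lemma BMeas.mono {q r : ℝ} (hq : 0 < q) (hqr : q ≤ r) {μ : Measure ℝ} (h : BMeas q μ) :
    BMeas r μ := by
  obtain ⟨C, hC⟩ := h
  refine ⟨2 * C, fun c l hl => ?_⟩
  calc ∫⁻ x, ENNReal.ofReal (1 / (1 + (|x - c| / l) ^ r)) ∂μ
      ≤ ∫⁻ x, 2 * ENNReal.ofReal (1 / (1 + (|x - c| / l) ^ q)) ∂μ := by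
        refine lintegral_mono (fun x => ?_)
        set τ := |x - c| / l with hτ
        have hτ0 : 0 ≤ τ := by positivity
        have hq0 : 0 ≤ τ ^ q := Real.rpow_nonneg hτ0 q
        have hr0 : 0 ≤ τ ^ r := Real.rpow_nonneg hτ0 r
        have h1 : τ ^ q ≤ 1 + τ ^ r := by
          rcases le_total τ 1 with h | h
          · have : τ ^ q ≤ 1 := Real.rpow_le_one hτ0 h hq.le
            linarith
          · have : τ ^ q ≤ τ ^ r := Real.rpow_le_rpow_of_exponent_le h hqr
            linarith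
        have e : (2:ℝ≥0∞) = ENNReal.ofReal 2 := by norm_num
        rw [e, ← ENNReal.ofReal_mul (by norm_num)]
        refine ENNReal.ofReal_le_ofReal ?_
        rw [mul_one_div, div_le_div_iff₀ (by linarith) (by linarith)]
        linarith
    _ = 2 * ∫⁻ x, ENNReal.ofReal (1 / (1 + (|x - c| / l) ^ q)) ∂μ := by
        rw [lintegral_const_mul _ (measurable_kernel q c l)]
    _ ≤ 2 * (C * μ (J c l)) := by gcongr; exact hC c l hl
    _ = _ := by push_cast; ring

/-- the measure `U dx` -/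
noncomputable abbrev wMeas (U : ℝ → ℝ) : Measure ℝ := volume.withDensity (fun x => ENNReal.ofReal (U x))

lemma IsWeight.aemeasurable {U : ℝ → ℝ} (hU : IsWeight U) :
    AEMeasurable (fun x => ENNReal.ofReal (U x)) volume :=
  (hU.2.aestronglyMeasurable.aemeasurable).ennreal_ofReal

lemma IsWeight.fin {U : ℝ → ℝ} (hU : IsWeight U) (a b : ℝ) : wMeas U (Ioo a b) < ∞ := by
  rw [wMeas, withDensity_apply _ measurableSet_Ioo]
  have h1 : IntegrableOn U (Icc a b) volume := hU.2.integrableOn_isCompact isCompact_Icc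
  have h2 : IntegrableOn U (Ioo a b) volume := h1.mono_set Ioo_subset_Icc_self
  have h3 := h2.2
  rw [hasFiniteIntegral_iff_norm] at h3
  refine lt_of_le_of_lt (lintegral_mono (fun x => ?_)) h3
  exact ENNReal.ofReal_le_ofReal (Real.le_norm_self _)

lemma memB_iff {r : ℝ} {U : ℝ → ℝ} (hU : IsWeight U) : MemB r U ↔ BMeas r (wMeas U) := by
  have key : ∀ c l : ℝ, 0 < l → ∫⁻ x, ENNReal.ofReal (l ^ (r - 1) * U x / (l ^ r + |x - c| ^ r))
      = ENNReal.ofReal (1 / l) *
        ∫⁻ x, ENNReal.ofReal (1 / (1 + (|x - c| / l) ^ r)) ∂(wMeas U) := by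
    intro c l hl
    rw [wMeas, lintegral_withDensity_eq_lintegral_mul₀ hU.aemeasurable
      (measurable_kernel r c l).aemeasurable,
      ← lintegral_const_mul'' _ (hU.aemeasurable.mul (measurable_kernel r c l).aemeasurable)]
    refine lintegral_congr (fun x => ?_)
    simp only [Pi.mul_apply]
    have h0 : 0 ≤ U x := hU.1 x
    rw [← ENNReal.ofReal_mul h0, ← ENNReal.ofReal_mul (by positivity)]
    congr 1
    have hlr : 0 < l ^ r := by positivity
    have h3 : 0 ≤ |x - c| ^ r := by positivity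
    rw [Real.div_rpow (abs_nonneg _) hl.le, Real.rpow_sub hl, Real.rpow_one]
    have : l ^ r + |x - c| ^ r ≠ 0 := by positivity
    have : 1 + |x - c| ^ r / l ^ r ≠ 0 := by positivity
    field_simp
  have key2 : ∀ c l : ℝ, ∫⁻ x in Ioo (c - l / 2) (c + l / 2), ENNReal.ofReal (U x)
      = wMeas U (J c l) := by
    intro c l
    rw [wMeas, withDensity_apply _ measurableSet_Ioo]
  constructor
  · rintro ⟨C, hC⟩
    refine ⟨C, fun c l hl => ?_⟩
    have h := hC c l hl
    rw [key c l hl, key2] at h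
    have h0 : ENNReal.ofReal (1 / l) = 1 / ENNReal.ofReal l := by
      rw [ENNReal.ofReal_div_of_pos hl, ENNReal.ofReal_one]
    have hlne : ENNReal.ofReal l ≠ 0 := by simpa using hl
    have h1 := mul_le_mul_right h (ENNReal.ofReal l)
    rw [h0] at h1
    rw [← mul_assoc, ← mul_assoc, ENNReal.mul_div_cancel hlne ENNReal.ofReal_ne_top,
      ENNReal.mul_div_cancel hlne ENNReal.ofReal_ne_top, one_mul] at h1
    exact h1
  · rintro ⟨C, hC⟩
    refine ⟨C, fun c l hl => ?_⟩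
    rw [key c l hl, key2]
    have h0 : ENNReal.ofReal (1 / l) = 1 / ENNReal.ofReal l := by
      rw [ENNReal.ofReal_div_of_pos hl, ENNReal.ofReal_one]
    calc _ ≤ ENNReal.ofReal (1 / l) * (C * wMeas U (J c l)) := by
          gcongr; exact hC c l hl
      _ = _ := by rw [h0, ← mul_assoc, one_div, ENNReal.div_eq_inv_mul]

end Pool.Agent.H779R2.Glam
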