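import Pool.Agent.H779R2.Glam.MaxFn
import Pool.Agent.H779R2.Glam.Doubling

open MeasureTheory Set Filter
open scoped ENNReal NNReal Topology

namespace Pool.Agent.H779R2.Glam

/-- The tent over a set. -/
def tent (O : Set ℝ) : Set (ℝ × ℝ) := {p | 0 < p.2 ∧ J p.1 p.2 ⊆ O}

lemma tent_Ioo' (a b : ℝ) : tent (Ioo a b) =
    {p : ℝ × ℝ | 0 < p.2 ∧ a ≤ p.1 - p.2 / 2 ∧ p.1 + p.2 / 2 ≤ b} := by
  ext p
  constructor
  · rintro ⟨h0, h⟩
    exact ⟨h0, (Ioo_subset_Ioo_iff (by linarith : p.1 - p.2 / 2 < p.1 + p.2 / 2)).1 h⟩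
  · rintro ⟨h0, h⟩
    exact ⟨h0, Ioo_subset_Ioo h.1 h.2⟩

lemma measurableSet_tent_Ioo' (a b : ℝ) : MeasurableSet (tent (Ioo a b)) := by
  rw [tent_Ioo']
  have m1 : Measurable (fun p : ℝ × ℝ => p.1 - p.2 / 2) :=
    measurable_fst.sub (measurable_snd.div_const 2)
  have m2 : Measurable (fun p : ℝ × ℝ => p.1 + p.2 / 2) :=
    measurable_fst.add (measurable_snd.div_const 2)
  exact (measurableSet_lt measurable_const measurable_snd).inter
    ((measurableSet_le measurable_const m1).inter (measurableSet_le m2 measurable_const))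

lemma tent_mono {O O' : Set ℝ} (h : O ⊆ O') : tent O ⊆ tent O' :=
  fun _ hp => ⟨hp.1, hp.2.trans h⟩

lemma tent_conn_le (ν : Measure (ℝ × ℝ)) {c : ℝ≥0}
    (h : ∀ a b : ℝ, a < b → ν (tent (Ioo a b)) ≤ c * ENNReal.ofReal (b - a)) {C : Set ℝ}
    (hC : IsPreconnected C) (hne : C.Nonempty) (hvol : volume C ≠ ∞) :
    ν (tent C) ≤ c * volume C := by
  have hbb : BddBelow C := by
    by_contra hb
    by_cases ha : BddAbove C
    · have := measure_mono (μ := volume) (hC.Iio_csSup_subset hb ha)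
      rw [Real.volume_Iio] at this
      exact hvol (top_le_iff.1 this)
    · have := hC.eq_univ_of_unbounded hb ha
      rw [this] at hvol
      simp at hvol
  have hba : BddAbove C := by
    by_contra ha
    have := measure_mono (μ := volume) (hC.Ioi_csInf_subset hbb ha)
    rw [Real.volume_Ioi] at this
    exact hvol (top_le_iff.1 this)
  rcases (tent C).eq_empty_or_nonempty with he | ⟨p, hp⟩
  · rw [he, measure_empty]; exact bot_le
  · have hp0 : 0 < p.2 := hp.1
    have h1 : p.1 - p.2 / 4 ∈ C := hp.2 ⟨by linarith, by linarith⟩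
    have h2 : p.1 + p.2 / 4 ∈ C := hp.2 ⟨by linarith, by linarith⟩
    have h3 : sInf C ≤ p.1 - p.2 / 4 := csInf_le hbb h1
    have h4 : p.1 + p.2 / 4 ≤ sSup C := le_csSup hba h2
    have hlt : sInf C < sSup C := by linarith
    have hsub : tent C ⊆ tent (Ioo (sInf C) (sSup C)) := by
      intro q hq
      refine ⟨hq.1, ?_⟩
      have h5 : J q.1 q.2 ⊆ Icc (sInf C) (sSup C) :=
        hq.2.trans (fun x hx => ⟨csInf_le hbb hx, le_csSup hba hx⟩)
      have h6 := interior_mono h5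
      rwa [isOpen_Ioo.interior_eq, interior_Icc] at h6
    calc ν (tent C) ≤ ν (tent (Ioo (sInf C) (sSup C))) := measure_mono hsub
      _ ≤ c * ENNReal.ofReal (sSup C - sInf C) := h _ _ hlt
      _ = c * volume (Ioo (sInf C) (sSup C)) := by rw [Real.volume_Ioo]
      _ ≤ c * volume C := by
          gcongr
          exact IsConnected.Ioo_csInf_csSup_subset ⟨hne, hC⟩ hbb hba

lemma tent_open_le (ν : Measure (ℝ × ℝ)) {c : ℝ≥0} (hc : 0 < c)
    (h : ∀ a b : ℝ, a < b → ν (tent (Ioo a b)) ≤ c * ENNReal.ofReal (b - a)) {O : Set ℝ}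
    (hO : IsOpen O) : ν (tent O) ≤ c * volume O := by
  by_cases hvol : volume O = ∞
  · rw [hvol, ENNReal.mul_top (by exact_mod_cast hc.ne')]
    exact le_top
  set 𝒞 : Set (Set ℝ) := (fun q : ℚ => connectedComponentIn O q) '' {q : ℚ | (q:ℝ) ∈ O} with h𝒞
  have hcount : 𝒞.Countable := (Set.to_countable _).image _
  have hcov : tent O ⊆ ⋃ C ∈ 𝒞, tent C := by
    intro p hp
    obtain ⟨q, hq1, hq2⟩ := exists_rat_btwn (show p.1 - p.2 / 2 < p.1 + p.2 / 2 by
      have := hp.1; linarith)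
    have hq : (q:ℝ) ∈ J p.1 p.2 := ⟨hq1, hq2⟩
    refine mem_biUnion (mem_image_of_mem _ (hp.2 hq)) ⟨hp.1, ?_⟩
    exact isPreconnected_Ioo.subset_connectedComponentIn hq hp.2
  have hsubO : ∀ C ∈ 𝒞, C ⊆ O := by
    rintro _ ⟨q, _, rfl⟩
    exact connectedComponentIn_subset O q
  have hdisj : 𝒞.PairwiseDisjoint id := by
    rintro _ ⟨q, _, rfl⟩ _ ⟨q', _, rfl⟩ hne
    rw [Function.onFun, id, id, Set.disjoint_left]
    intro x hx hx'
    exact hne ((connectedComponentIn_eq hx).trans (connectedComponentIn_eq hx').symm)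
  have hmeas : ∀ C ∈ 𝒞, MeasurableSet (id C) := by
    rintro _ ⟨q, _, rfl⟩
    exact (hO.connectedComponentIn).measurableSet
  calc ν (tent O) ≤ ν (⋃ C ∈ 𝒞, tent C) := measure_mono hcov
    _ ≤ ∑' C : 𝒞, ν (tent C) := measure_biUnion_le ν hcount _
    _ ≤ ∑' C : 𝒞, c * volume (C : Set ℝ) := by
        refine ENNReal.tsum_le_tsum (fun C => ?_)
        obtain ⟨C, hC⟩ := C
        have hCO := hsubO C hC
        obtain ⟨q, hq, rfl⟩ := hC
        exact tent_conn_le ν h isPreconnected_connectedComponentIn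
          ⟨q, mem_connectedComponentIn hq⟩ (ne_top_of_le_ne_top hvol (measure_mono hCO))
    _ = c * ∑' C : 𝒞, volume (C : Set ℝ) := ENNReal.tsum_mul_left
    _ = c * volume (⋃ C ∈ 𝒞, id C) := by
        rw [measure_biUnion hcount hdisj hmeas]
        rfl
    _ ≤ c * volume O := by
        gcongr
        exact iUnion₂_subset hsubO

lemma measurable_avg {g : ℝ → ℝ≥0∞} (hg : Measurable g) :
    Measurable (fun p : ℝ × ℝ => ∫⁻ t in J p.1 p.2, g t) := by
  have h1 : ∀ p : ℝ × ℝ, ∫⁻ t in J p.1 p.2, g t =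
      ∫⁻ t, (if p.1 - p.2 / 2 < t ∧ t < p.1 + p.2 / 2 then g t else 0) := by
    intro p
    rw [← lintegral_indicator measurableSet_Ioo]
    refine lintegral_congr (fun t => ?_)
    rw [indicator_apply]
    rfl
  simp only [h1]
  refine Measurable.lintegral_prod_right' (f := fun q : (ℝ × ℝ) × ℝ =>
    if q.1.1 - q.1.2 / 2 < q.2 ∧ q.2 < q.1.1 + q.1.2 / 2 then g q.2 else 0) ?_
  refine Measurable.ite ?_ (hg.comp measurable_snd) measurable_const
  have m1 : Measurable (fun q : (ℝ × ℝ) × ℝ => q.1.1 - q.1.2 / 2) :=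
    (measurable_fst.fst).sub (measurable_fst.snd.div_const 2)
  have m2 : Measurable (fun q : (ℝ × ℝ) × ℝ => q.1.1 + q.1.2 / 2) :=
    (measurable_fst.fst).add (measurable_fst.snd.div_const 2)
  exact (measurableSet_lt m1 measurable_snd).inter (measurableSet_lt measurable_snd m2)

/-- The Carleson embedding theorem with exponent two. -/
theorem carleson_embedding : ∃ K : ℝ≥0, ∀ (ν : Measure (ℝ × ℝ)) [SFinite ν] (c : ℝ≥0), 0 < c →
    (∀ a b : ℝ, a < b → ν (tent (Ioo a b)) ≤ c * ENNReal.ofReal (b - a)) →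
    ∀ g : ℝ → ℝ≥0∞, Measurable g →
      ∫⁻ p in {p : ℝ × ℝ | 0 < p.2}, ((∫⁻ t in J p.1 p.2, g t) / ENNReal.ofReal p.2) ^ (2:ℝ) ∂ν
        ≤ K * c * ∫⁻ t, g t ^ (2:ℝ) := by
  obtain ⟨K, hK⟩ := MM_strong (ρ := 2) (by norm_num)
  refine ⟨K, fun ν _ c hc h g hg => ?_⟩
  have hS : MeasurableSet {p : ℝ × ℝ | 0 < p.2} := measurableSet_lt measurable_const measurable_snd
  set F : ℝ × ℝ → ℝ≥0∞ := fun p => (∫⁻ t in J p.1 p.2, g t) / ENNReal.ofReal p.2 with hF
  have hFm : Measurable F := (measurable_avg hg).div measurable_snd.ennreal_ofReal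
  calc ∫⁻ p in {p : ℝ × ℝ | 0 < p.2}, F p ^ (2:ℝ) ∂ν
      = ∫⁻ t in Ioi (0:ℝ), ENNReal.ofReal (2 * t ^ ((2:ℝ) - 1)) *
        (ν.restrict {p : ℝ × ℝ | 0 < p.2}) {p | ENNReal.ofReal t < F p} :=
        lintegral_rpow_layer _ hFm (by norm_num)
    _ ≤ ∫⁻ t in Ioi (0:ℝ), ENNReal.ofReal (2 * t ^ ((2:ℝ) - 1)) *
        (c * volume {x | ENNReal.ofReal t < MM volume g x}) := by
        refine lintegral_mono (fun t => ?_)
        refine mul_le_mul' le_rfl ?_
        rw [Measure.restrict_apply (measurableSet_lt measurable_const hFm)]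
        refine le_trans (measure_mono ?_) (tent_open_le ν hc h (isOpen_MM volume g _))
        rintro p ⟨hp1, hp2⟩
        refine ⟨hp2, fun x hx => ?_⟩
        have hv : volume (J p.1 p.2) = ENNReal.ofReal p.2 := by
          rw [Real.volume_Ioo]; congr 1; ring
        have := le_MM volume g hx
        rw [hv] at this
        exact lt_of_lt_of_le hp1 this
    _ = ∫⁻ t in Ioi (0:ℝ), c * (ENNReal.ofReal (2 * t ^ ((2:ℝ) - 1)) *
        volume {x | ENNReal.ofReal t < MM volume g x}) := by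
        refine lintegral_congr (fun t => ?_)
        ring
    _ = c * ∫⁻ x, MM volume g x ^ (2:ℝ) := by
        rw [lintegral_const_mul' _ _ ENNReal.coe_ne_top,
          lintegral_rpow_layer volume (measurable_MM volume g) (by norm_num)]
    _ ≤ c * (K * ∫⁻ t, g t ^ (2:ℝ)) := by gcongr; exact hK volume g hg
    _ = _ := by ring

end Pool.Agent.H779R2.Glam
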