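import Pool.Agent.H779R2.Glam.Muck
import Pool.Agent.H779R2.Glam.Carleson

open MeasureTheory Set Filter
open scoped ENNReal NNReal Topology

namespace Pool.Agent.H779R2.Glam

/-- the open upper half-plane as a subset of `ℝ × ℝ` -/
def UH : Set (ℝ × ℝ) := {p | 0 < p.2}

lemma measurableSet_UH : MeasurableSet UH := measurableSet_lt measurable_const measurable_snd

/-- A level set estimate: the abstract set-up. `V` plays the role of the Poisson integral, `D` of
its squared gradient, `M` of the maximal function. -/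
structure Setup (V D : ℝ × ℝ → ℝ) (M : ℝ → ℝ≥0∞) : Prop where
  mV : Measurable V
  mD : Measurable D
  mM : Measurable M
  V0 : ∀ p, 0 ≤ V p
  D0 : ∀ p, 0 ≤ D p
  green : ∀ N : ℝ, 0 < N → ∀ a b : ℝ, a < b →
    ∫⁻ p in tent (Ioo a b), ENNReal.ofReal (p.2 * (D p * Real.exp (-V p / N)))
      ≤ ENNReal.ofReal (312 * N ^ 2 * (b - a))
  loc : ∀ p ∈ UH, ∀ t ∈ J p.1 p.2, ENNReal.ofReal (V p) ≤ 11 * M t
  crit : ∀ p ∈ UH, V p = 0 → D p = 0
  openM : ∀ t : ℝ≥0∞, IsOpen {x | t < M x}

variable {V D : ℝ × ℝ → ℝ} {M : ℝ → ℝ≥0∞}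

/-- the level set of `V` -/
def lev (V : ℝ × ℝ → ℝ) (N : ℝ) : Set (ℝ × ℝ) := {p | 0 < p.2 ∧ N / 2 < V p ∧ V p ≤ N}

lemma measurableSet_lev (hV : Measurable V) (N : ℝ) : MeasurableSet (lev V N) :=
  (measurableSet_lt measurable_const measurable_snd).inter
    ((measurableSet_lt measurable_const hV).inter (measurableSet_le hV measurable_const))

lemma volume_J {z y : ℝ} : volume (J z y) = ENNReal.ofReal y := by
  rw [Real.volume_Ioo]; congr 1; ring

/-- (P5) The weighted estimate on a level set. -/
theorem level_est {p : ℝ} (hp : 1 < p) (Q : ℝ≥0) : ∃ C : ℝ≥0, ∀ (u : ℝ → ℝ≥0∞), ApW p u Q →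
    ∀ (V D : ℝ × ℝ → ℝ) (M : ℝ → ℝ≥0∞), Setup V D M → ∀ N : ℝ, 0 < N →
      ∫⁻ q in lev V N, volume.withDensity u (J q.1 q.2) * ENNReal.ofReal (D q) ≤
        C * ENNReal.ofReal (N ^ 2) * volume.withDensity u {x | ENNReal.ofReal (N / 22) < M x} := by
  obtain ⟨K, hK⟩ := carleson_embedding
  refine ⟨Q * K * 900, fun u h V D M hS N hN => ?_⟩
  set O : Set ℝ := {x | ENNReal.ofReal (N / 22) < M x} with hO
  have hOm : MeasurableSet O := (hS.openM _).measurableSet
  set g : ℝ → ℝ≥0∞ := O.indicator (fun x => u x ^ (1 / 2 : ℝ)) with hg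
  have hgm : Measurable g := (h.meas.pow_const _).indicator hOm
  set m : ℝ × ℝ → ℝ≥0∞ := (lev V N).indicator (fun q => ENNReal.ofReal (q.2 * D q)) with hm
  have hmm : Measurable m :=
    (measurable_snd.mul hS.mD).ennreal_ofReal.indicator (measurableSet_lev hS.mV N)
  set ν : Measure (ℝ × ℝ) := volume.withDensity m with hν
  set c : ℝ≥0 := (900 * N ^ 2).toNNReal with hc
  have hc0 : 0 < c := by rw [hc, Real.toNNReal_pos]; positivity
  have hcarl : ∀ a b : ℝ, a < b → ν (tent (Ioo a b)) ≤ c * ENNReal.ofReal (b - a) := by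
    intro a b hab
    rw [hν, withDensity_apply _ (measurableSet_tent_Ioo' a b)]
    calc ∫⁻ q in tent (Ioo a b), m q
        ≤ ∫⁻ q in tent (Ioo a b), ENNReal.ofReal (Real.exp 1) *
            ENNReal.ofReal (q.2 * (D q * Real.exp (-V q / N))) := by
          refine setLIntegral_mono' (measurableSet_tent_Ioo' a b) (fun q hq => ?_)
          simp only [hm]
          by_cases hql : q ∈ lev V N
          · rw [indicator_of_mem hql, ← ENNReal.ofReal_mul (Real.exp_pos 1).le]
            refine ENNReal.ofReal_le_ofReal ?_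
            have h1 : Real.exp (-1) ≤ Real.exp (-V q / N) := by
              apply Real.exp_le_exp.2
              rw [le_div_iff₀ hN]
              linarith [hql.2.2]
            have h2 : Real.exp 1 * Real.exp (-1) = 1 := by
              rw [← Real.exp_add]; simp
            have h3 : 0 ≤ q.2 * D q := mul_nonneg hq.1.le (hS.D0 q)
            calc q.2 * D q = (Real.exp 1 * Real.exp (-1)) * (q.2 * D q) := by rw [h2, one_mul]
              _ ≤ (Real.exp 1 * Real.exp (-V q / N)) * (q.2 * D q) := by
                  apply mul_le_mul_of_nonneg_right _ h3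
                  exact mul_le_mul_of_nonneg_left h1 (Real.exp_pos 1).le
              _ = _ := by ring
          · rw [indicator_of_notMem hql]; exact bot_le
      _ = ENNReal.ofReal (Real.exp 1) * ∫⁻ q in tent (Ioo a b),
            ENNReal.ofReal (q.2 * (D q * Real.exp (-V q / N))) := by
          rw [lintegral_const_mul' _ _ ENNReal.ofReal_ne_top]
      _ ≤ ENNReal.ofReal (Real.exp 1) * ENNReal.ofReal (312 * N ^ 2 * (b - a)) := by
          gcongr
          exact hS.green N hN a b hab
      _ ≤ c * ENNReal.ofReal (b - a) := by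
          have e1 : (c : ℝ≥0∞) = ENNReal.ofReal (900 * N ^ 2) := rfl
          rw [e1, ← ENNReal.ofReal_mul (Real.exp_pos 1).le, ← ENNReal.ofReal_mul (by positivity)]
          refine ENNReal.ofReal_le_ofReal ?_
          have h1 : Real.exp 1 < 2.7182818286 := Real.exp_one_lt_d9
          have h2 : 0 < N ^ 2 * (b - a) := by
            have : 0 < b - a := by linarith
            positivity
          calc Real.exp 1 * (312 * N ^ 2 * (b - a)) = (Real.exp 1 * 312) * (N ^ 2 * (b - a)) := by ring
            _ ≤ 900 * (N ^ 2 * (b - a)) := by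
                apply mul_le_mul_of_nonneg_right _ h2.le
                linarith
            _ = _ := by ring
  have hemb := hK ν c hc0 hcarl g hgm
  have hgsq : ∫⁻ t, g t ^ (2:ℝ) = volume.withDensity u O := by
    rw [withDensity_apply _ hOm, ← lintegral_indicator hOm]
    refine lintegral_congr (fun t => ?_)
    simp only [hg]
    by_cases ht : t ∈ O
    · rw [indicator_of_mem ht, indicator_of_mem ht, ← ENNReal.rpow_mul]
      norm_num
    · rw [indicator_of_notMem ht, indicator_of_notMem ht]
      simp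
  rw [hgsq] at hemb
  have hFm : Measurable (fun q : ℝ × ℝ => ((∫⁻ t in J q.1 q.2, g t) / ENNReal.ofReal q.2) ^ (2:ℝ)) :=
    ((measurable_avg hgm).div measurable_snd.ennreal_ofReal).pow_const _
  calc ∫⁻ q in lev V N, volume.withDensity u (J q.1 q.2) * ENNReal.ofReal (D q)
      ≤ ∫⁻ q in lev V N, Q * (m q * ((∫⁻ t in J q.1 q.2, g t) / ENNReal.ofReal q.2) ^ (2:ℝ)) := by
        refine setLIntegral_mono' (measurableSet_lev hS.mV N) (fun q hq => ?_)
        have hq0 : 0 < q.2 := hq.1
        have hJO : J q.1 q.2 ⊆ O := by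
          intro t ht
          have h1 := hS.loc q hq0 t ht
          have h2 : ENNReal.ofReal (N / 2) < 11 * M t :=
            lt_of_lt_of_le ((ENNReal.ofReal_lt_ofReal_iff (by linarith [hq.2.1])).2 hq.2.1) h1
          have e : ENNReal.ofReal (N / 2) = 11 * ENNReal.ofReal (N / 22) := by
            have : (11:ℝ≥0∞) = ENNReal.ofReal 11 := by norm_num
            rw [this, ← ENNReal.ofReal_mul (by norm_num)]
            congr 1; ring
          rw [e] at h2
          exact (ENNReal.mul_lt_mul_iff_right (by norm_num) (by norm_num)).1 h2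
        have eg : ∫⁻ t in J q.1 q.2, g t = ∫⁻ t in J q.1 q.2, u t ^ (1 / 2 : ℝ) := by
          refine setLIntegral_congr_fun measurableSet_Ioo (fun t ht => ?_)
          simp only [hg]
          rw [indicator_of_mem (hJO ht)]
        have hhalf := h.half hp (a := q.1 - q.2 / 2) (b := q.1 + q.2 / 2) (by linarith)
        have eb : q.1 + q.2 / 2 - (q.1 - q.2 / 2) = q.2 := by ring
        rw [eb] at hhalf
        rw [eg]
        simp only [hm]
        rw [indicator_of_mem hq, ENNReal.ofReal_mul hq0.le]
        have hy0 : ENNReal.ofReal q.2 ≠ 0 := by simpa using hq0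
        have hyt : ENNReal.ofReal q.2 ≠ ∞ := ENNReal.ofReal_ne_top
        set A := ∫⁻ t in J q.1 q.2, u t ^ (1 / 2 : ℝ) with hA
        set y := ENNReal.ofReal q.2 with hy
        have h4 : volume.withDensity u (J q.1 q.2) ≤ Q * (y * (A / y) ^ (2:ℝ)) := by
          rw [← ENNReal.mul_le_mul_iff_left hy0 hyt]
          refine hhalf.trans (le_of_eq ?_)
          rw [ENNReal.rpow_two, ENNReal.rpow_two]
          calc (Q:ℝ≥0∞) * A ^ 2 = Q * (y * (A / y)) ^ 2 := by
                rw [ENNReal.mul_div_cancel hy0 hyt]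
            _ = _ := by ring
        calc volume.withDensity u (J q.1 q.2) * ENNReal.ofReal (D q)
            ≤ (Q * (y * (A / y) ^ (2:ℝ))) * ENNReal.ofReal (D q) := by gcongr
          _ = _ := by ring
    _ ≤ ∫⁻ q in UH, Q * (m q * ((∫⁻ t in J q.1 q.2, g t) / ENNReal.ofReal q.2) ^ (2:ℝ)) :=
        lintegral_mono_set (fun q hq => hq.1)
    _ = Q * ∫⁻ q in UH, ((∫⁻ t in J q.1 q.2, g t) / ENNReal.ofReal q.2) ^ (2:ℝ) ∂ν := by
        rw [lintegral_const_mul' _ _ ENNReal.coe_ne_top, hν,
          setLIntegral_withDensity_eq_setLIntegral_mul _ hmm hFm measurableSet_UH]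
        rfl
    _ ≤ Q * (K * c * volume.withDensity u O) := by gcongr; exact hemb
    _ = _ := by
        have e1 : (c : ℝ≥0∞) = 900 * ENNReal.ofReal (N ^ 2) := by
          have e2 : (900:ℝ≥0∞) = ENNReal.ofReal 900 := by norm_num
          rw [e2, ← ENNReal.ofReal_mul (by norm_num)]
          rfl
        rw [e1]
        push_cast
        ring

end Pool.Agent.H779R2.Glam
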