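import Pool.Agent.H779R2.Glam.Core

open MeasureTheory Set Filter
open scoped ENNReal NNReal Topology

namespace Pool.Agent.H779R2.Glam

variable {V D : ℝ × ℝ → ℝ} {M : ℝ → ℝ≥0∞}

lemma measurable_muJ {u : ℝ → ℝ≥0∞} (hu : Measurable u) :
    Measurable (fun q : ℝ × ℝ => volume.withDensity u (J q.1 q.2)) := by
  have : (fun q : ℝ × ℝ => volume.withDensity u (J q.1 q.2)) =
      fun q : ℝ × ℝ => ∫⁻ t in J q.1 q.2, u t := by
    funext q
    rw [withDensity_apply _ measurableSet_Ioo]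
  rw [this]
  exact measurable_avg hu

open scoped Classical in
/-- the pointwise decomposition into level sets -/
lemma level_decomp {p : ℝ} (hp : 1 < p) (hp2 : p < 2) (hS : Setup V D M) {q : ℝ × ℝ}
    (hq : q ∈ UH) : ENNReal.ofReal (D q * V q ^ (p - 2)) ≤
      ∫⁻ N in Ioi (0:ℝ), (if q ∈ lev V N then ENNReal.ofReal (4 * N ^ (p - 3)) *
        ENNReal.ofReal (D q) else 0) := by
  rcases (hS.V0 q).eq_or_lt with h0 | h0
  · rw [hS.crit q hq h0.symm, zero_mul, ENNReal.ofReal_zero]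
    exact bot_le
  set v := V q with hv
  have hsub : Ico v (2 * v) ⊆ Ioi (0:ℝ) := fun N hN => lt_of_lt_of_le h0 hN.1
  have hD := hS.D0 q
  calc ENNReal.ofReal (D q * v ^ (p - 2))
      ≤ ENNReal.ofReal (4 * (2 * v) ^ (p - 3) * D q) * volume (Ico v (2 * v)) := by
        rw [Real.volume_Ico, ← ENNReal.ofReal_mul (by positivity)]
        refine ENNReal.ofReal_le_ofReal ?_
        have e1 : (2 * v) ^ (p - 3) = 2 ^ (p - 3) * v ^ (p - 3) :=
          Real.mul_rpow (by norm_num) h0.le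
        have e2 : v ^ (p - 2) = v ^ (p - 3) * v := by
          rw [← Real.rpow_add_one h0.ne']; congr 1; ring
        have e3 : (1:ℝ) ≤ 4 * 2 ^ (p - 3) := by
          have h4 : (4:ℝ) = 2 ^ (2:ℝ) := by norm_num
          rw [h4, ← Real.rpow_add (by norm_num)]
          exact Real.one_le_rpow (by norm_num) (by linarith)
        rw [e1, e2]
        have h5 : 0 ≤ D q * (v ^ (p - 3) * v) := by positivity
        calc D q * (v ^ (p - 3) * v) ≤ (4 * 2 ^ (p - 3)) * (D q * (v ^ (p - 3) * v)) :=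
              le_mul_of_one_le_left h5 e3
          _ = _ := by ring
    _ = ∫⁻ N in Ico v (2 * v), ENNReal.ofReal (4 * (2 * v) ^ (p - 3) * D q) := by
        rw [setLIntegral_const]
    _ ≤ ∫⁻ N in Ico v (2 * v), (if q ∈ lev V N then ENNReal.ofReal (4 * N ^ (p - 3)) *
        ENNReal.ofReal (D q) else 0) := by
        refine setLIntegral_mono' measurableSet_Ico (fun N hN => ?_)
        have hN0 : 0 < N := hsub hN
        have hmem : q ∈ lev V N := ⟨hq, by linarith [hN.2], hN.1⟩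
        rw [if_pos hmem, ← ENNReal.ofReal_mul (by positivity)]
        refine ENNReal.ofReal_le_ofReal ?_
        apply mul_le_mul_of_nonneg_right _ hD
        apply mul_le_mul_of_nonneg_left _ (by norm_num)
        exact Real.rpow_le_rpow_of_nonpos hN0 hN.2.le (by linarith)
    _ ≤ _ := lintegral_mono_set hsub

open scoped Classical in
theorem area_est {p : ℝ} (hp : 1 < p) (hp2 : p < 2) (Q : ℝ≥0) : ∃ C : ℝ≥0,
    ∀ (u : ℝ → ℝ≥0∞), ApW p u Q → ∀ (V D : ℝ × ℝ → ℝ) (M : ℝ → ℝ≥0∞), Setup V D M →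
      ∫⁻ q in UH, volume.withDensity u (J q.1 q.2) * ENNReal.ofReal (D q * V q ^ (p - 2)) ≤
        C * ∫⁻ x, M x ^ p ∂(volume.withDensity u) := by
  obtain ⟨C, hC⟩ := level_est hp Q
  refine ⟨4 * C * (1 / p).toNNReal * 22 ^ p, fun u h V D M hS => ?_⟩
  have hlf := h.lf
  set μ := volume.withDensity u with hμ
  have hp0 : 0 < p := by linarith
  calc ∫⁻ q in UH, μ (J q.1 q.2) * ENNReal.ofReal (D q * V q ^ (p - 2))
      ≤ ∫⁻ q in UH, μ (J q.1 q.2) * ∫⁻ N in Ioi (0:ℝ), (if q ∈ lev V N then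
          ENNReal.ofReal (4 * N ^ (p - 3)) * ENNReal.ofReal (D q) else 0) := by
        refine setLIntegral_mono' measurableSet_UH (fun q hq => ?_)
        exact mul_le_mul' le_rfl (level_decomp hp hp2 hS hq)
    _ = ∫⁻ q in UH, ∫⁻ N in Ioi (0:ℝ), (if q ∈ lev V N then
          ENNReal.ofReal (4 * N ^ (p - 3)) * (μ (J q.1 q.2) * ENNReal.ofReal (D q)) else 0) := by
        refine lintegral_congr (fun q => ?_)
        have hm : Measurable (fun N : ℝ => if q ∈ lev V N then
          ENNReal.ofReal (4 * N ^ (p - 3)) * ENNReal.ofReal (D q) else 0) := by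
          refine Measurable.ite ?_ ?_ measurable_const
          · exact (MeasurableSet.const _).inter ((measurableSet_lt (measurable_id.div_const 2)
              measurable_const).inter (measurableSet_le measurable_const measurable_id))
          · exact ((measurable_id.pow_const _).const_mul 4).ennreal_ofReal.mul_const _
        rw [← lintegral_const_mul _ hm]
        refine lintegral_congr (fun N => ?_)
        rw [mul_ite, mul_zero]
        congr 1
        ring
    _ = ∫⁻ N in Ioi (0:ℝ), ∫⁻ q in UH, (if q ∈ lev V N then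
          ENNReal.ofReal (4 * N ^ (p - 3)) * (μ (J q.1 q.2) * ENNReal.ofReal (D q)) else 0) := by
        rw [lintegral_lintegral_swap]
        refine Measurable.aemeasurable ?_
        refine Measurable.ite ?_ ?_ measurable_const
        · exact (measurableSet_lt measurable_const measurable_fst.snd).inter
            ((measurableSet_lt (measurable_snd.div_const 2) (hS.mV.comp measurable_fst)).inter
              (measurableSet_le (hS.mV.comp measurable_fst) measurable_snd))
        · exact (((measurable_snd.pow_const _).const_mul 4).ennreal_ofReal).mul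
            (((measurable_muJ h.meas).comp measurable_fst).mul
              (hS.mD.comp measurable_fst).ennreal_ofReal)
    _ = ∫⁻ N in Ioi (0:ℝ), ENNReal.ofReal (4 * N ^ (p - 3)) *
          ∫⁻ q in lev V N, μ (J q.1 q.2) * ENNReal.ofReal (D q) := by
        refine lintegral_congr (fun N => ?_)
        have hl := measurableSet_lev hS.mV N
        rw [← lintegral_indicator hl, ← lintegral_const_mul' _ _ ENNReal.ofReal_ne_top,
          ← lintegral_indicator measurableSet_UH]
        refine lintegral_congr (fun q => ?_)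
        by_cases hq : q ∈ lev V N
        · rw [indicator_of_mem hq, indicator_of_mem (show q ∈ UH from hq.1), if_pos hq]
        · rw [indicator_of_notMem hq, mul_zero, indicator_apply]
          simp [hq]
    _ ≤ ∫⁻ N in Ioi (0:ℝ), 4 * C * (1 / p).toNNReal * (ENNReal.ofReal (p * N ^ (p - 1)) *
          μ {x | ENNReal.ofReal N < 22 * M x}) := by
        refine setLIntegral_mono' measurableSet_Ioi (fun N hN => ?_)
        have hN0 : 0 < N := hN
        have h1 := hC u h V D M hS N hN0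
        have e0 : {x | ENNReal.ofReal (N / 22) < M x} = {x | ENNReal.ofReal N < 22 * M x} := by
          ext x
          have e : ENNReal.ofReal N = 22 * ENNReal.ofReal (N / 22) := by
            have : (22:ℝ≥0∞) = ENNReal.ofReal 22 := by norm_num
            rw [this, ← ENNReal.ofReal_mul (by norm_num)]
            congr 1; ring
          simp only [mem_ofPred_eq]
          rw [e]
          exact (ENNReal.mul_lt_mul_iff_right (by norm_num) (by norm_num)).symm
        rw [e0] at h1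
        have e1 : ENNReal.ofReal (4 * N ^ (p - 3)) * ENNReal.ofReal (N ^ 2) =
            4 * ENNReal.ofReal (1 / p) * ENNReal.ofReal (p * N ^ (p - 1)) := by
          have e4 : (4:ℝ≥0∞) = ENNReal.ofReal 4 := by norm_num
          rw [e4, ← ENNReal.ofReal_mul (by positivity), ← ENNReal.ofReal_mul (by positivity),
            ← ENNReal.ofReal_mul (by positivity)]
          congr 1
          have : N ^ (p - 1) = N ^ (p - 3) * N ^ 2 := by
            rw [← Real.rpow_add_natCast hN0.ne']; congr 1; push_cast; ring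
          rw [this]
          field_simp
        calc ENNReal.ofReal (4 * N ^ (p - 3)) *
              ∫⁻ q in lev V N, μ (J q.1 q.2) * ENNReal.ofReal (D q)
            ≤ ENNReal.ofReal (4 * N ^ (p - 3)) * (C * ENNReal.ofReal (N ^ 2) *
                μ {x | ENNReal.ofReal N < 22 * M x}) := mul_le_mul' le_rfl h1
          _ = (ENNReal.ofReal (4 * N ^ (p - 3)) * ENNReal.ofReal (N ^ 2)) *
                (C * μ {x | ENNReal.ofReal N < 22 * M x}) := by ring
          _ = _ := by
              rw [e1]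
              have : ((1 / p).toNNReal : ℝ≥0∞) = ENNReal.ofReal (1 / p) := rfl
              rw [this]
              ring
    _ = 4 * C * (1 / p).toNNReal * ∫⁻ x, (22 * M x) ^ p ∂μ := by
        rw [lintegral_const_mul' _ _ (by
          exact ENNReal.mul_ne_top (ENNReal.mul_ne_top (by norm_num) ENNReal.coe_ne_top)
            ENNReal.coe_ne_top), lintegral_rpow_layer μ (hS.mM.const_mul 22) hp0]
    _ = _ := by
        have : ∀ x, (22 * M x) ^ p = 22 ^ p * M x ^ p := fun x =>
          ENNReal.mul_rpow_of_nonneg _ _ hp0.le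
        simp only [this]
        rw [lintegral_const_mul _ (hS.mM.pow_const p)]
        push_cast
        rw [ENNReal.coe_rpow_of_nonneg _ hp0.le]
        push_cast
        ring

lemma dyadic_scale {τ : ℝ} (hτ : 0 ≤ τ) : ∃ n : ℕ, τ < 2 ^ n / 2 ∧ (2:ℝ) ^ n ≤ 4 * (1 + τ) := by
  obtain ⟨j1, hj1⟩ : ∃ j : ℕ, τ < 2 ^ j / 2 := by
    obtain ⟨j, hj⟩ := pow_unbounded_of_one_lt (2 * τ) (by norm_num : (1:ℝ) < 2)
    exact ⟨j, by linarith⟩
  classical
  set j0 := Nat.find (⟨j1, hj1⟩ : ∃ j : ℕ, τ < 2 ^ j / 2) with hj0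
  refine ⟨j0, Nat.find_spec (⟨j1, hj1⟩ : ∃ j : ℕ, τ < 2 ^ j / 2), ?_⟩
  rcases Nat.eq_zero_or_pos j0 with h0 | h0
  · rw [h0, pow_zero]; linarith
  · obtain ⟨m, hm⟩ : ∃ m, j0 = m + 1 := ⟨j0 - 1, by omega⟩
    have hmin : ¬ (τ < 2 ^ m / 2) := Nat.find_min (⟨j1, hj1⟩ : ∃ j : ℕ, τ < 2 ^ j / 2)
      (by omega)
    push Not at hmin
    rw [hm, pow_succ]
    linarith

/-- (P7) The pointwise estimate using the growth of the weight. -/
lemma growth_est {p s a : ℝ} (hs : 0 ≤ s) (ha : 0 < a) {Q : ℝ≥0} {u : ℝ → ℝ≥0∞}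
    (h : ApW p u Q) {CD : ℝ≥0}
    (hD : ∀ (c l : ℝ) (n : ℕ), 0 < l → volume.withDensity u (J c (2 ^ n * l)) ≤
      CD * ENNReal.ofReal (((2:ℝ) ^ s) ^ n) * volume.withDensity u (J c l))
    (hS : Setup V D M) (x : ℝ) {q : ℝ × ℝ} (hq : q ∈ UH) :
    ENNReal.ofReal (V q) ^ a * ENNReal.ofReal ((q.2 / (|x - q.1| + q.2)) ^ s) ≤
      11 ^ a * CD * ENNReal.ofReal (4 ^ s) * MM (volume.withDensity u) (fun t => M t ^ a) x := by
  set μ := volume.withDensity u with hμ
  have hq0 : 0 < q.2 := hq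
  set τ : ℝ := |x - q.1| / q.2 with hτ
  have hτ0 : 0 ≤ τ := by positivity
  obtain ⟨n, hn1, hn2⟩ := dyadic_scale hτ0
  have hxJ : x ∈ J q.1 (2 ^ n * q.2) := (mem_J_iff hq0 n).2 hn1
  have hμ0 : μ (J q.1 q.2) ≠ 0 := h.pos (by linarith)
  have hμt : μ (J q.1 q.2) ≠ ∞ := (h.fin _ _).ne
  have hμ0' : μ (J q.1 (2 ^ n * q.2)) ≠ 0 := h.pos (by
    have : 0 < 2 ^ n * q.2 := by positivity
    linarith)
  have hμt' : μ (J q.1 (2 ^ n * q.2)) ≠ ∞ := (h.fin _ _).ne
  have hsub : J q.1 q.2 ⊆ J q.1 (2 ^ n * q.2) := by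
    have h1 : (1:ℝ) ≤ 2 ^ n := one_le_pow₀ (by norm_num)
    have h2 : q.2 ≤ 2 ^ n * q.2 := le_mul_of_one_le_left hq0.le h1
    exact Ioo_subset_Ioo (by linarith) (by linarith)
  set Y := MM μ (fun t => M t ^ a) x with hY
  have e1 : ENNReal.ofReal (V q) ^ a * μ (J q.1 q.2) ≤ 11 ^ a * ∫⁻ t in J q.1 q.2, M t ^ a ∂μ := by
    rw [← setLIntegral_const, ← lintegral_const_mul _ (hS.mM.pow_const a)]
    refine setLIntegral_mono' measurableSet_Ioo (fun t ht => ?_)
    rw [← ENNReal.mul_rpow_of_nonneg _ _ ha.le]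
    exact ENNReal.rpow_le_rpow (hS.loc q hq t ht) ha.le
  have e2 : ∫⁻ t in J q.1 q.2, M t ^ a ∂μ ≤ Y * μ (J q.1 (2 ^ n * q.2)) := by
    calc ∫⁻ t in J q.1 q.2, M t ^ a ∂μ ≤ ∫⁻ t in J q.1 (2 ^ n * q.2), M t ^ a ∂μ :=
          lintegral_mono_set hsub
      _ = (∫⁻ t in J q.1 (2 ^ n * q.2), M t ^ a ∂μ) / μ (J q.1 (2 ^ n * q.2)) *
            μ (J q.1 (2 ^ n * q.2)) := by rw [ENNReal.div_mul_cancel hμ0' hμt']
      _ ≤ _ := by
          gcongr
          exact le_MM μ (fun t => M t ^ a) hxJ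
  have e3 : ENNReal.ofReal (V q) ^ a * μ (J q.1 q.2) ≤
      (11 ^ a * (Y * (CD * ENNReal.ofReal (((2:ℝ) ^ s) ^ n)))) * μ (J q.1 q.2) := by
    calc _ ≤ 11 ^ a * ∫⁻ t in J q.1 q.2, M t ^ a ∂μ := e1
      _ ≤ 11 ^ a * (Y * μ (J q.1 (2 ^ n * q.2))) := by gcongr
      _ ≤ 11 ^ a * (Y * (CD * ENNReal.ofReal (((2:ℝ) ^ s) ^ n) * μ (J q.1 q.2))) := by
          gcongr
          exact hD _ _ _ hq0
      _ = _ := by ring
  rw [ENNReal.mul_le_mul_iff_left hμ0 hμt] at e3
  have hK : q.2 / (|x - q.1| + q.2) = 1 / (1 + τ) := by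
    rw [hτ]; field_simp; ring
  have e4 : ENNReal.ofReal (((2:ℝ) ^ s) ^ n) * ENNReal.ofReal ((q.2 / (|x - q.1| + q.2)) ^ s) ≤
      ENNReal.ofReal (4 ^ s) := by
    rw [← ENNReal.ofReal_mul (by positivity)]
    refine ENNReal.ofReal_le_ofReal ?_
    have e5 : ((2:ℝ) ^ s) ^ n = ((2:ℝ) ^ n) ^ s := by
      rw [← Real.rpow_natCast, ← Real.rpow_natCast, ← Real.rpow_mul (by norm_num),
        ← Real.rpow_mul (by norm_num), mul_comm]
    rw [e5, ← Real.mul_rpow (by positivity) (by positivity), hK]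
    refine Real.rpow_le_rpow (by positivity) ?_ hs
    rw [mul_one_div, div_le_iff₀ (by positivity)]
    exact hn2
  calc ENNReal.ofReal (V q) ^ a * ENNReal.ofReal ((q.2 / (|x - q.1| + q.2)) ^ s)
      ≤ (11 ^ a * (Y * (CD * ENNReal.ofReal (((2:ℝ) ^ s) ^ n)))) *
          ENNReal.ofReal ((q.2 / (|x - q.1| + q.2)) ^ s) := by gcongr
    _ = 11 ^ a * CD * (ENNReal.ofReal (((2:ℝ) ^ s) ^ n) *
          ENNReal.ofReal ((q.2 / (|x - q.1| + q.2)) ^ s)) * Y := by ring
    _ ≤ 11 ^ a * CD * ENNReal.ofReal (4 ^ s) * Y := by gcongr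

end Pool.Agent.H779R2.Glam
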