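import Pool.Agent.H779R2.Glam.Core2

open MeasureTheory Set Filter
open scoped ENNReal NNReal Topology

namespace Pool.Agent.H779R2.Glam

variable {V D : ℝ × ℝ → ℝ} {M : ℝ → ℝ≥0∞}

lemma measurable_K (x : ℝ) (e : ℝ) :
    Measurable (fun q : ℝ × ℝ => (q.2 / (|x - q.1| + q.2)) ^ e) :=
  (measurable_snd.div ((measurable_fst.const_sub x).abs.add measurable_snd)).pow_const e

lemma measurable_K2 (e : ℝ) :
    Measurable (fun w : ℝ × (ℝ × ℝ) => (w.2.2 / (|w.1 - w.2.1| + w.2.2)) ^ e) :=
  (measurable_snd.snd.div ((measurable_fst.sub measurable_snd.fst).abs.add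
    measurable_snd.snd)).pow_const e

/-- the pointwise splitting -/
lemma ptwise_split {lam p : ℝ} (hp2 : p < 2) {K v d : ℝ} (hK : 0 < K)
    (hv : 0 ≤ v) (hc : v = 0 → d = 0) {H : ℝ≥0∞}
    (hH : ENNReal.ofReal (v * K ^ (lam / 2)) ≤ H) :
    ENNReal.ofReal (K ^ lam * d) ≤
      H ^ (2 - p) * ENNReal.ofReal (K ^ (lam * p / 2) * (d * v ^ (p - 2))) := by
  rcases hv.eq_or_lt with h0 | h0
  · rw [hc h0.symm, mul_zero, ENNReal.ofReal_zero]; exact bot_le
  · have h2p : 0 < 2 - p := by linarith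
    have e : K ^ lam * d = (v * K ^ (lam / 2)) ^ (2 - p) *
        (K ^ (lam * p / 2) * (d * v ^ (p - 2))) := by
      rw [Real.mul_rpow h0.le (by positivity), ← Real.rpow_mul hK.le]
      have e1 : v ^ (2 - p) * v ^ (p - 2) = 1 := by
        rw [← Real.rpow_add h0]
        have : 2 - p + (p - 2) = 0 := by ring
        rw [this, Real.rpow_zero]
      have e2 : K ^ (lam / 2 * (2 - p)) * K ^ (lam * p / 2) = K ^ lam := by
        rw [← Real.rpow_add hK]
        congr 1; ring
      calc K ^ lam * d = (v ^ (2 - p) * v ^ (p - 2)) * (K ^ (lam / 2 * (2 - p)) *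
            K ^ (lam * p / 2)) * d := by rw [e1, e2]; ring
        _ = _ := by ring
    rw [e, ENNReal.ofReal_mul (by positivity), ← ENNReal.ofReal_rpow_of_nonneg (by positivity) h2p.le]
    gcongr

theorem core {lam p s : ℝ} (hlam : 1 < lam) (hp : 1 < p) (hp1 : 2 / lam < p) (hp2 : p < 2)
    (hs0 : 0 < s) (hs : s < lam * p / 2) (Q CB CD : ℝ≥0) :
    ∃ C : ℝ≥0, ∀ (u : ℝ → ℝ≥0∞), ApW p u Q →
      (∀ c l : ℝ, 0 < l →
        ∫⁻ x, ENNReal.ofReal (1 / (1 + (|x - c| / l) ^ (lam * p / 2))) ∂(volume.withDensity u)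
          ≤ CB * volume.withDensity u (J c l)) →
      (∀ (c l : ℝ) (n : ℕ), 0 < l → volume.withDensity u (J c (2 ^ n * l)) ≤
        CD * ENNReal.ofReal (((2:ℝ) ^ s) ^ n) * volume.withDensity u (J c l)) →
      ∀ (V D : ℝ × ℝ → ℝ) (M : ℝ → ℝ≥0∞), Setup V D M →
        ∫⁻ x, (∫⁻ q in UH, ENNReal.ofReal ((q.2 / (|x - q.1| + q.2)) ^ lam * D q)) ^ (p / 2)
          ∂(volume.withDensity u) ≤ C * ∫⁻ x, M x ^ p ∂(volume.withDensity u) := by
  have hp0 : 0 < p := by linarith
  have h2p : 0 < 2 - p := by linarith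
  have hl0 : 0 < lam := by linarith
  set r : ℝ := lam * p / 2 with hr
  have hr1 : 1 < r := by
    rw [div_lt_iff₀ hl0] at hp1
    rw [hr]; linarith
  have hr0 : 0 < r := by linarith
  set a : ℝ := p * s / r with ha
  have ha0 : 0 < a := by positivity
  have hpa : p / a = r / s := by rw [ha]; field_simp
  have hpa1 : 1 < p / a := by rw [hpa, lt_div_iff₀ hs0]; linarith
  have hsa : s / a = lam / 2 := by rw [ha, hr]; field_simp
  obtain ⟨C2, hC2⟩ := MM_strong hpa1
  obtain ⟨C3, hC3⟩ := area_est hp hp2 Q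
  set C1 : ℝ≥0 := 11 ^ a * CD * (4 ^ s : ℝ).toNNReal with hC1
  refine ⟨(C1 ^ (p / a) * C2) ^ ((2 - p) / 2) * (CB * C3) ^ (p / 2), fun u h hB hD V D M hS => ?_⟩
  have hlf := h.lf
  set μ := volume.withDensity u with hμ
  set Y : ℝ → ℝ≥0∞ := fun x => C1 * MM μ (fun t => M t ^ a) x with hY
  have hYm : Measurable Y := (measurable_MM _ _).const_mul _
  set H : ℝ → ℝ≥0∞ := fun x => Y x ^ (1 / a) with hH
  have hHm : Measurable H := hYm.pow_const _
  have hC1e : (C1 : ℝ≥0∞) = 11 ^ a * CD * ENNReal.ofReal (4 ^ s) := by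
    rw [hC1]
    push_cast
    rw [ENNReal.coe_rpow_of_nonneg _ ha0.le]
    rfl
  set A : ℝ → ℝ≥0∞ := fun x => ∫⁻ q in UH,
    ENNReal.ofReal ((q.2 / (|x - q.1| + q.2)) ^ r * (D q * V q ^ (p - 2))) with hA
  have hVDm : Measurable (fun q => D q * V q ^ (p - 2)) := hS.mD.mul (hS.mV.pow_const _)
  have hAjm : Measurable (fun w : ℝ × (ℝ × ℝ) =>
      ENNReal.ofReal ((w.2.2 / (|w.1 - w.2.1| + w.2.2)) ^ r * (D w.2 * V w.2 ^ (p - 2)))) :=
    ((measurable_K2 r).mul (hVDm.comp measurable_snd)).ennreal_ofReal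
  have hAm : Measurable A := hAjm.lintegral_prod_right'
  -- pointwise bound of the inner integral
  have hin : ∀ x, ∫⁻ q in UH, ENNReal.ofReal ((q.2 / (|x - q.1| + q.2)) ^ lam * D q) ≤
      H x ^ (2 - p) * A x := by
    intro x
    have hkm : Measurable (fun q : ℝ × ℝ =>
        ENNReal.ofReal ((q.2 / (|x - q.1| + q.2)) ^ r * (D q * V q ^ (p - 2)))) :=
      ((measurable_K x r).mul hVDm).ennreal_ofReal
    show _ ≤ H x ^ (2 - p) * ∫⁻ q in UH,
        ENNReal.ofReal ((q.2 / (|x - q.1| + q.2)) ^ r * (D q * V q ^ (p - 2)))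
    rw [← lintegral_const_mul _ hkm]
    refine setLIntegral_mono' measurableSet_UH (fun q hq => ?_)
    have hq0 : 0 < q.2 := hq
    set K := q.2 / (|x - q.1| + q.2) with hK
    have hK0 : 0 < K := by positivity
    refine ptwise_split hp2 hK0 (hS.V0 q) (hS.crit q hq) ?_
    have hg := growth_est hs0.le ha0 h hD hS x hq
    rw [← hC1e] at hg
    have h3 : ENNReal.ofReal (V q * K ^ (lam / 2)) ^ a ≤ Y x := by
      have e : ENNReal.ofReal (V q * K ^ (lam / 2)) ^ a =
          ENNReal.ofReal (V q) ^ a * ENNReal.ofReal (K ^ s) := by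
        rw [ENNReal.ofReal_mul (hS.V0 q), ENNReal.mul_rpow_of_nonneg _ _ ha0.le]
        congr 1
        rw [ENNReal.ofReal_rpow_of_nonneg (by positivity) ha0.le, ← Real.rpow_mul hK0.le, ← hsa]
        congr 2
        field_simp
      rw [e]; exact hg
    rw [hH]
    simp only
    rw [one_div, ENNReal.le_rpow_inv_iff ha0]
    exact h3
  -- integral of A
  have hAint : ∫⁻ x, A x ∂μ ≤ CB * C3 * ∫⁻ x, M x ^ p ∂μ := by
    calc ∫⁻ x, A x ∂μ = ∫⁻ q in UH, (∫⁻ x, ENNReal.ofReal ((q.2 / (|x - q.1| + q.2)) ^ r *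
          (D q * V q ^ (p - 2))) ∂μ) := by
          rw [hA, lintegral_lintegral_swap]
          exact hAjm.aemeasurable
      _ ≤ ∫⁻ q in UH, CB * (μ (J q.1 q.2) * ENNReal.ofReal (D q * V q ^ (p - 2))) := by
          refine setLIntegral_mono' measurableSet_UH (fun q hq => ?_)
          have hq0 : 0 < q.2 := hq
          have hVD0 : 0 ≤ D q * V q ^ (p - 2) :=
            mul_nonneg (hS.D0 q) (Real.rpow_nonneg (hS.V0 q) _)
          calc ∫⁻ x, ENNReal.ofReal ((q.2 / (|x - q.1| + q.2)) ^ r * (D q * V q ^ (p - 2))) ∂μ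
              ≤ ∫⁻ x, ENNReal.ofReal (1 / (1 + (|x - q.1| / q.2) ^ r)) *
                  ENNReal.ofReal (D q * V q ^ (p - 2)) ∂μ := by
                refine lintegral_mono (fun x => ?_)
                simp only
                rw [← ENNReal.ofReal_mul (by positivity)]
                refine ENNReal.ofReal_le_ofReal ?_
                apply mul_le_mul_of_nonneg_right _ hVD0
                set τ := |x - q.1| / q.2 with hτ
                have hτ0 : 0 ≤ τ := by positivity
                have e : q.2 / (|x - q.1| + q.2) = 1 / (1 + τ) := by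
                  rw [hτ]; field_simp; ring
                rw [e, Real.div_rpow zero_le_one (by positivity), Real.one_rpow]
                apply one_div_le_one_div_of_le (by positivity)
                have := Real.add_rpow_le_rpow_add zero_le_one hτ0 hr1.le
                rwa [Real.one_rpow] at this
            _ = (∫⁻ x, ENNReal.ofReal (1 / (1 + (|x - q.1| / q.2) ^ r)) ∂μ) *
                  ENNReal.ofReal (D q * V q ^ (p - 2)) := by
                rw [lintegral_mul_const' _ _ ENNReal.ofReal_ne_top]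
            _ ≤ (CB * μ (J q.1 q.2)) * ENNReal.ofReal (D q * V q ^ (p - 2)) := by
                gcongr
                exact hB _ _ hq0
            _ = _ := by ring
      _ = CB * ∫⁻ q in UH, μ (J q.1 q.2) * ENNReal.ofReal (D q * V q ^ (p - 2)) := by
          rw [lintegral_const_mul' _ _ ENNReal.coe_ne_top]
      _ ≤ CB * (C3 * ∫⁻ x, M x ^ p ∂μ) := by
          gcongr
          exact hC3 u h V D M hS
      _ = _ := by ring
  -- integral of H^p
  have hHint : ∫⁻ x, H x ^ p ∂μ ≤ C1 ^ (p / a) * C2 * ∫⁻ x, M x ^ p ∂μ := by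
    calc ∫⁻ x, H x ^ p ∂μ = ∫⁻ x, (C1:ℝ≥0∞) ^ (p / a) * MM μ (fun t => M t ^ a) x ^ (p / a) ∂μ := by
          refine lintegral_congr (fun x => ?_)
          simp only [hH, hY]
          rw [← ENNReal.rpow_mul, ENNReal.mul_rpow_of_nonneg _ _ (by positivity)]
          have : 1 / a * p = p / a := by ring
          rw [this]
      _ = (C1:ℝ≥0∞) ^ (p / a) * ∫⁻ x, MM μ (fun t => M t ^ a) x ^ (p / a) ∂μ := by
          rw [lintegral_const_mul _ ((measurable_MM _ _).pow_const _)]
      _ ≤ (C1:ℝ≥0∞) ^ (p / a) * (C2 * ∫⁻ x, (M x ^ a) ^ (p / a) ∂μ) := by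
          gcongr
          exact hC2 μ _ (hS.mM.pow_const a)
      _ = _ := by
          have : ∀ x, (M x ^ a) ^ (p / a) = M x ^ p := by
            intro x
            rw [← ENNReal.rpow_mul]
            congr 1; field_simp
          simp only [this]
          ring
  set X := ∫⁻ x, M x ^ p ∂μ with hX
  have hconj : (2 / (2 - p)).HolderConjugate (2 / p) := by
    rw [Real.holderConjugate_iff]
    constructor
    · rw [lt_div_iff₀ h2p]; linarith
    · field_simp; ring
  calc ∫⁻ x, (∫⁻ q in UH, ENNReal.ofReal ((q.2 / (|x - q.1| + q.2)) ^ lam * D q)) ^ (p / 2) ∂μ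
      ≤ ∫⁻ x, ((fun x => (H x ^ (2 - p)) ^ (p / 2)) * (fun x => A x ^ (p / 2))) x ∂μ := by
        refine lintegral_mono (fun x => ?_)
        simp only [Pi.mul_apply]
        rw [← ENNReal.mul_rpow_of_nonneg _ _ (by positivity)]
        exact ENNReal.rpow_le_rpow (hin x) (by positivity)
    _ ≤ (∫⁻ x, ((H x ^ (2 - p)) ^ (p / 2)) ^ (2 / (2 - p)) ∂μ) ^ (1 / (2 / (2 - p))) *
          (∫⁻ x, (A x ^ (p / 2)) ^ (2 / p) ∂μ) ^ (1 / (2 / p)) :=
        ENNReal.lintegral_mul_le_Lp_mul_Lq μ hconj ((hHm.pow_const _).pow_const _).aemeasurable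
          (hAm.pow_const _).aemeasurable
    _ = (∫⁻ x, H x ^ p ∂μ) ^ ((2 - p) / 2) * (∫⁻ x, A x ∂μ) ^ (p / 2) := by
        have e1 : ∀ x, ((H x ^ (2 - p)) ^ (p / 2)) ^ (2 / (2 - p)) = H x ^ p := by
          intro x
          rw [← ENNReal.rpow_mul, ← ENNReal.rpow_mul]
          congr 1; field_simp
        have e2 : ∀ x, (A x ^ (p / 2)) ^ (2 / p) = A x := by
          intro x
          rw [← ENNReal.rpow_mul]
          have : p / 2 * (2 / p) = 1 := by field_simp
          rw [this, ENNReal.rpow_one]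
        simp only [e1, e2]
        have e3 : 1 / (2 / (2 - p)) = (2 - p) / 2 := by field_simp
        have e4 : 1 / (2 / p) = p / 2 := by field_simp
        rw [e3, e4]
    _ ≤ (C1 ^ (p / a) * C2 * X) ^ ((2 - p) / 2) * (CB * C3 * X) ^ (p / 2) := by
        gcongr
    _ = _ := by
        rw [ENNReal.mul_rpow_of_nonneg _ _ (by positivity : 0 ≤ (2 - p) / 2),
          ENNReal.mul_rpow_of_nonneg _ _ (by positivity : 0 ≤ p / 2)]
        have hXX : X ^ ((2 - p) / 2) * X ^ (p / 2) = X := by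
          rcases eq_or_ne X 0 with h0 | h0
          · rw [h0, ENNReal.zero_rpow_of_pos (by positivity), zero_mul]
          · rcases eq_or_ne X ⊤ with h1 | h1
            · rw [h1, ENNReal.top_rpow_of_pos (by positivity), ENNReal.top_rpow_of_pos (by positivity),
                ENNReal.top_mul_top]
            · rw [← ENNReal.rpow_add _ _ h0 h1]
              have : (2 - p) / 2 + p / 2 = 1 := by ring
              rw [this, ENNReal.rpow_one]
        push_cast
        rw [ENNReal.coe_rpow_of_nonneg _ (by positivity), ENNReal.coe_rpow_of_nonneg _ (by positivity)]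
        push_cast
        rw [ENNReal.coe_rpow_of_nonneg _ (by positivity)]
        calc _ = ((C1:ℝ≥0∞) ^ (p / a) * C2) ^ ((2 - p) / 2) * ((CB:ℝ≥0∞) * C3) ^ (p / 2) *
              (X ^ ((2 - p) / 2) * X ^ (p / 2)) := by ring
          _ = _ := by rw [hXX]

end Pool.Agent.H779R2.Glam
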