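import Mathlib

open MeasureTheory Set Filter
open scoped ENNReal NNReal Topology

namespace Pool.Agent.H779R2.Glam

/-- A weight on the line: nonnegative and locally integrable. -/
def IsWeight (U : ℝ → ℝ) : Prop := (∀ x, 0 ≤ U x) ∧ LocallyIntegrable U volume

/-- The Muckenhoupt condition `A_r`: the average of `U` over the interval `(a,b)` times the
`(r-1)`-st power of the average of `U^(-1/(r-1))` is at most `C`, for every interval
(values in `[0,∞]`, with `0^(-1/(r-1)) = ∞` and `0 · ∞ = 0`). -/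
def MemA (r : ℝ) (U : ℝ → ℝ) : Prop :=
  ∃ C : ℝ≥0, ∀ a b : ℝ, a < b →
    ((∫⁻ x in Ioo a b, ENNReal.ofReal (U x)) / ENNReal.ofReal (b - a)) *
      ((∫⁻ x in Ioo a b, ENNReal.ofReal (U x) ^ (-1 / (r - 1))) / ENNReal.ofReal (b - a)) ^ (r - 1)
      ≤ C

/-- The condition `B_r`: for every interval with centre `c` and length `l`,
`∫ l^(r-1) U(x) / (l^r + |x-c|^r) dx ≤ (C/l) ∫_{(c-l/2,c+l/2)} U`. -/
def MemB (r : ℝ) (U : ℝ → ℝ) : Prop :=
  ∃ C : ℝ≥0, ∀ c l : ℝ, 0 < l →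
    ∫⁻ x, ENNReal.ofReal (l ^ (r - 1) * U x / (l ^ r + |x - c| ^ r))
      ≤ C / ENNReal.ofReal l * ∫⁻ x in Ioo (c - l / 2) (c + l / 2), ENNReal.ofReal (U x)

end Pool.Agent.H779R2.Glam
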