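import Pool.Agent.H779R2.Glam.Apply

open MeasureTheory Set Filter
open scoped ENNReal NNReal Topology

namespace Pool.Agent.H779R2.Glam

lemma measurable_DD {f : ℝ → ℝ} (hf : Measurable f)
    (hfi : Integrable (fun t => f t / (1 + t ^ 2))) : Measurable (DD f) := by
  have hF := differentiableOn_cauchyF hf hfi
  have hmaps : MapsTo (fun p : ℝ × ℝ => (⟨p.1, p.2⟩ : ℂ)) UH HP := fun p hp => hp
  unfold DD
  classical
  refine ContinuousOn.measurable_piecewise ?_ continuousOn_const measurableSet_UH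
  exact (((holo_deriv hF).continuousOn.comp continuous_pt.continuousOn hmaps).norm).pow 2

lemma DD_nonneg (f : ℝ → ℝ) (q : ℝ × ℝ) : 0 ≤ DD f q := by
  by_cases hq : q ∈ UH
  · rw [DD_of_mem f hq]; positivity
  · rw [DD_of_notMem f hq]

/-- the squared `g_λ^*` function as an integral over the upper half-plane -/
noncomputable def gsq (lam : ℝ) (f : ℝ → ℝ) (x : ℝ) : ℝ≥0∞ :=
  ∫⁻ q in UH, ENNReal.ofReal ((q.2 / (|x - q.1| + q.2)) ^ lam * DD f q)

lemma gStar_eq {f : ℝ → ℝ} (hf : Measurable f) (hfi : Integrable (fun t => f t / (1 + t ^ 2)))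
    (lam x : ℝ) : gStar lam f x = gsq lam f x ^ (1 / 2 : ℝ) := by
  unfold gStar gsq
  congr 1
  have hU : UH = (univ : Set ℝ) ×ˢ Ioi (0:ℝ) := by
    ext q; simp [UH]
  have hm : Measurable (fun q : ℝ × ℝ =>
      ENNReal.ofReal ((q.2 / (|x - q.1| + q.2)) ^ lam * DD f q)) :=
    ((measurable_K x lam).mul (measurable_DD hf hfi)).ennreal_ofReal
  have hr : (volume : Measure (ℝ × ℝ)).restrict UH =
      (volume : Measure ℝ).prod (volume.restrict (Ioi (0:ℝ))) := by
    rw [hU, Measure.volume_eq_prod, ← Measure.prod_restrict, Measure.restrict_univ]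
  rw [hr, lintegral_prod _ hm.aemeasurable]
  refine lintegral_congr (fun z => ?_)
  refine setLIntegral_congr_fun measurableSet_Ioi (fun y hy => ?_)
  have hq : ((z, y) : ℝ × ℝ) ∈ UH := hy
  simp only
  rw [DD_of_mem f hq, gradSq_eq hf hfi z hy]

lemma DD_split {f : ℝ → ℝ} (hf : Measurable f)
    (hfi : Integrable (fun t => |f t| / (1 + t ^ 2))) (q : ℝ × ℝ) :
    DD f q ≤ 2 * DD (fun t => max (f t) 0) q + 2 * DD (fun t => max (-f t) 0) q := by
  by_cases hq : q ∈ UH
  swap
  · rw [DD_of_notMem _ hq, DD_of_notMem _ hq, DD_of_notMem _ hq]; norm_num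
  have hpm : Measurable (fun t => max (f t) 0) := hf.max measurable_const
  have hnm : Measurable (fun t => max (-f t) 0) := hf.neg.max measurable_const
  have hden : Measurable (fun t : ℝ => 1 + t ^ 2) := by fun_prop
  have hpi : Integrable (fun t => max (f t) 0 / (1 + t ^ 2)) := by
    refine hfi.mono' (hpm.div hden).aestronglyMeasurable (Eventually.of_forall (fun t => ?_))
    rw [norm_div, Real.norm_of_nonneg (le_max_right _ _),
      Real.norm_of_nonneg (by positivity : (0:ℝ) ≤ 1 + t ^ 2)]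
    gcongr
    exact max_le (le_abs_self _) (abs_nonneg _)
  have hni : Integrable (fun t => max (-f t) 0 / (1 + t ^ 2)) := by
    refine hfi.mono' (hnm.div hden).aestronglyMeasurable (Eventually.of_forall (fun t => ?_))
    rw [norm_div, Real.norm_of_nonneg (le_max_right _ _),
      Real.norm_of_nonneg (by positivity : (0:ℝ) ≤ 1 + t ^ 2)]
    gcongr
    exact max_le (neg_le_abs _) (abs_nonneg _)
  have heq : ∀ w ∈ HP, cauchyF f w =
      cauchyF (fun t => max (f t) 0) w - cauchyF (fun t => max (-f t) 0) w := by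
    intro w hw
    unfold cauchyF
    rw [← mul_sub, ← integral_sub (integrable_mul_ck hpm hpi hw) (integrable_mul_ck hnm hni hw)]
    congr 1
    refine integral_congr_ae (Eventually.of_forall (fun t => ?_))
    simp only
    rw [← sub_mul]
    congr 1
    have : f t = max (f t) 0 - max (-f t) 0 := by
      rcases le_total 0 (f t) with h | h
      · rw [max_eq_left h, max_eq_right (by linarith)]; ring
      · rw [max_eq_right h, max_eq_left (by linarith)]; ring
    exact_mod_cast this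
  have hw : (⟨q.1, q.2⟩ : ℂ) ∈ HP := hq
  have d1 := holo_hasDerivAt (differentiableOn_cauchyF hpm hpi) hw
  have d2 := holo_hasDerivAt (differentiableOn_cauchyF hnm hni) hw
  have hev : cauchyF f =ᶠ[𝓝 (⟨q.1, q.2⟩ : ℂ)]
      fun w => cauchyF (fun t => max (f t) 0) w - cauchyF (fun t => max (-f t) 0) w := by
    filter_upwards [isOpen_HP.mem_nhds hw] with w hw'
    exact heq w hw'
  have hd := (d1.fun_sub d2).congr_of_eventuallyEq hev
  rw [DD_of_mem _ hq, DD_of_mem _ hq, DD_of_mem _ hq, hd.deriv]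
  set A := deriv (cauchyF (fun t => max (f t) 0)) ⟨q.1, q.2⟩
  set B := deriv (cauchyF (fun t => max (-f t) 0)) ⟨q.1, q.2⟩
  have h1 : ‖A - B‖ ≤ ‖A‖ + ‖B‖ := norm_sub_le _ _
  have h2 : ‖A - B‖ ^ 2 ≤ (‖A‖ + ‖B‖) ^ 2 := pow_le_pow_left₀ (norm_nonneg _) h1 2
  nlinarith [sq_nonneg (‖A‖ - ‖B‖)]

lemma gsq_split {f : ℝ → ℝ} (hf : Measurable f)
    (hfi : Integrable (fun t => |f t| / (1 + t ^ 2))) (lam x : ℝ) :
    gsq lam f x ≤ 2 * gsq lam (fun t => max (f t) 0) x + 2 * gsq lam (fun t => max (-f t) 0) x := by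
  have hpm : Measurable (fun t => max (f t) 0) := hf.max measurable_const
  have hden : Measurable (fun t : ℝ => 1 + t ^ 2) := by fun_prop
  have hpi : Integrable (fun t => max (f t) 0 / (1 + t ^ 2)) := by
    refine hfi.mono' (hpm.div hden).aestronglyMeasurable (Eventually.of_forall (fun t => ?_))
    rw [norm_div, Real.norm_of_nonneg (le_max_right _ _),
      Real.norm_of_nonneg (by positivity : (0:ℝ) ≤ 1 + t ^ 2)]
    gcongr
    exact max_le (le_abs_self _) (abs_nonneg _)
  unfold gsq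
  rw [← lintegral_const_mul' _ _ (by norm_num), ← lintegral_const_mul' _ _ (by norm_num),
    ← lintegral_add_left]
  · refine setLIntegral_mono' measurableSet_UH (fun q hq => ?_)
    have hq0 : 0 < q.2 := hq
    have e2 : (2:ℝ≥0∞) = ENNReal.ofReal 2 := by norm_num
    have n1 := DD_nonneg (fun t => max (f t) 0) q
    have n2 := DD_nonneg (fun t => max (-f t) 0) q
    rw [e2, ← ENNReal.ofReal_mul (by norm_num), ← ENNReal.ofReal_mul (by norm_num),
      ← ENNReal.ofReal_add (by positivity) (by positivity)]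
    refine ENNReal.ofReal_le_ofReal ?_
    have h := DD_split hf hfi q
    have hK : 0 ≤ (q.2 / (|x - q.1| + q.2)) ^ lam := by positivity
    calc _ ≤ (q.2 / (|x - q.1| + q.2)) ^ lam *
          (2 * DD (fun t => max (f t) 0) q + 2 * DD (fun t => max (-f t) 0) q) :=
          mul_le_mul_of_nonneg_left h hK
      _ = _ := by ring
  · exact ((measurable_K x lam).mul (measurable_DD hpm hpi)).ennreal_ofReal.const_mul 2

/-- a function in `L^p(u)` is integrable against the Poisson kernel -/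
lemma integrable_of_Lp {p : ℝ} (hp : 1 < p) {Q : ℝ≥0} {u : ℝ → ℝ≥0∞} (h : ApW p u Q)
    {f : ℝ → ℝ} (hf : Measurable f)
    (hfin : ∫⁻ x, ENNReal.ofReal |f x| ^ p ∂(volume.withDensity u) < ∞) :
    Integrable (fun t => |f t| / (1 + t ^ 2)) := by
  obtain ⟨C, hC⟩ := muckenhoupt hp Q
  set μ := volume.withDensity u with hμ
  have hfa : Measurable (fun t => ENNReal.ofReal |f t|) := hf.abs.ennreal_ofReal
  have h1 := hC u h (fun t => ENNReal.ofReal |f t|) hfa
  have h2 : ∫⁻ x, MM volume (fun t => ENNReal.ofReal |f t|) x ^ p ∂μ < ∞ :=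
    lt_of_le_of_lt h1 (ENNReal.mul_lt_top ENNReal.coe_lt_top hfin)
  have h3 := ae_lt_top ((measurable_MM volume (fun t => ENNReal.ofReal |f t|)).pow_const p) h2.ne
  obtain ⟨x0, hx0⟩ : ∃ x0, MM volume (fun t => ENNReal.ofReal |f t|) x0 < ∞ := by
    by_contra hcon
    push Not at hcon
    have h4 : ∀ᵐ x ∂μ, False := by
      filter_upwards [h3] with x hx
      rw [top_le_iff.1 (hcon x), ENNReal.top_rpow_of_pos (by linarith)] at hx
      exact lt_irrefl _ hx
    have h5 : μ {x | ¬ False} = 0 := ae_iff.1 h4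
    have h6 : μ (Ioo 0 1) = 0 := measure_mono_null (fun x _ => by simp) h5
    exact h.pos zero_lt_one h6
  have h7 := kernel_MM hfa (z := x0) (y := 1) (x := x0) one_pos ⟨by linarith, by linarith⟩
  have hden : Measurable (fun t : ℝ => 1 + t ^ 2) := by fun_prop
  refine ⟨(hf.abs.div hden).aestronglyMeasurable, ?_⟩
  rw [hasFiniteIntegral_iff_norm]
  have h8 : ∫⁻ t, ENNReal.ofReal ‖|f t| / (1 + t ^ 2)‖ ≤ ENNReal.ofReal (2 * (1 + x0 ^ 2)) *
      ∫⁻ t, ENNReal.ofReal (1 / (1 + (|t - x0| / 1) ^ (2:ℝ))) * ENNReal.ofReal |f t| := by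
    rw [← lintegral_const_mul' _ _ ENNReal.ofReal_ne_top]
    refine lintegral_mono (fun t => ?_)
    simp only
    rw [← ENNReal.ofReal_mul (by positivity), ← ENNReal.ofReal_mul (by positivity)]
    refine ENNReal.ofReal_le_ofReal ?_
    rw [Real.norm_of_nonneg (by positivity), div_one, Real.rpow_two, sq_abs, ← mul_assoc,
      mul_comm _ |f t|, div_eq_mul_one_div]
    apply mul_le_mul_of_nonneg_left _ (abs_nonneg _)
    rw [mul_one_div, div_le_div_iff₀ (by positivity) (by positivity)]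
    nlinarith [sq_nonneg (t + x0), mul_nonneg (sq_nonneg t) (sq_nonneg x0)]
  refine lt_of_le_of_lt h8 (ENNReal.mul_lt_top ENNReal.ofReal_lt_top (lt_of_le_of_lt h7 ?_))
  exact ENNReal.mul_lt_top ENNReal.ofReal_lt_top hx0

/-- The main inequality for positive measurable weights and measurable functions. -/
theorem main_pos {lam p s : ℝ} (hlam : 1 < lam) (hp : 1 < p) (hp1 : 2 / lam < p) (hp2 : p < 2)
    (hs0 : 0 < s) (hs : s < lam * p / 2) (Q CB CD : ℝ≥0) :
    ∃ C : ℝ≥0, ∀ (u : ℝ → ℝ≥0∞), ApW p u Q →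
      (∀ c l : ℝ, 0 < l →
        ∫⁻ x, ENNReal.ofReal (1 / (1 + (|x - c| / l) ^ (lam * p / 2))) ∂(volume.withDensity u)
          ≤ CB * volume.withDensity u (J c l)) →
      (∀ (c l : ℝ) (n : ℕ), 0 < l → volume.withDensity u (J c (2 ^ n * l)) ≤
        CD * ENNReal.ofReal (((2:ℝ) ^ s) ^ n) * volume.withDensity u (J c l)) →
      ∀ f : ℝ → ℝ, Measurable f → ∫⁻ x, ENNReal.ofReal |f x| ^ p ∂(volume.withDensity u) < ∞ →
        ∫⁻ x, gStar lam f x ^ p ∂(volume.withDensity u) ≤
          C * ∫⁻ x, ENNReal.ofReal |f x| ^ p ∂(volume.withDensity u) := by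
  have hp0 : 0 < p := by linarith
  obtain ⟨C1, hC1⟩ := core hlam hp hp1 hp2 hs0 hs Q CB CD
  obtain ⟨C2, hC2⟩ := muckenhoupt hp Q
  refine ⟨4 * (C1 * C2), fun u h hB hD f hf hfin => ?_⟩
  set μ := volume.withDensity u with hμ
  have hfi := integrable_of_Lp hp h hf hfin
  have hpm : Measurable (fun t => max (f t) 0) := hf.max measurable_const
  have hnm : Measurable (fun t => max (-f t) 0) := hf.neg.max measurable_const
  have hden : Measurable (fun t : ℝ => 1 + t ^ 2) := by fun_prop
  have hfi' : Integrable (fun t => f t / (1 + t ^ 2)) := by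
    refine hfi.mono' (hf.div hden).aestronglyMeasurable (Eventually.of_forall (fun t => ?_))
    rw [norm_div, Real.norm_of_nonneg (by positivity : (0:ℝ) ≤ 1 + t ^ 2), Real.norm_eq_abs]
  have hpi : Integrable (fun t => max (f t) 0 / (1 + t ^ 2)) := by
    refine hfi.mono' (hpm.div hden).aestronglyMeasurable (Eventually.of_forall (fun t => ?_))
    rw [norm_div, Real.norm_of_nonneg (le_max_right _ _),
      Real.norm_of_nonneg (by positivity : (0:ℝ) ≤ 1 + t ^ 2)]
    gcongr
    exact max_le (le_abs_self _) (abs_nonneg _)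
  have hni : Integrable (fun t => max (-f t) 0 / (1 + t ^ 2)) := by
    refine hfi.mono' (hnm.div hden).aestronglyMeasurable (Eventually.of_forall (fun t => ?_))
    rw [norm_div, Real.norm_of_nonneg (le_max_right _ _),
      Real.norm_of_nonneg (by positivity : (0:ℝ) ≤ 1 + t ^ 2)]
    gcongr
    exact max_le (neg_le_abs _) (abs_nonneg _)
  have hS1 := setup_of hpm (fun t => le_max_right _ _) hpi
  have hS2 := setup_of hnm (fun t => le_max_right _ _) hni
  have e1 := hC1 u h hB hD _ _ _ hS1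
  have e2 := hC1 u h hB hD _ _ _ hS2
  have m1 := hC2 u h _ hpm.ennreal_ofReal
  have m2 := hC2 u h _ hnm.ennreal_ofReal
  set X := ∫⁻ x, ENNReal.ofReal |f x| ^ p ∂μ with hX
  have x1 : ∫⁻ x, ENNReal.ofReal (max (f x) 0) ^ p ∂μ ≤ X := by
    refine lintegral_mono (fun x => ?_)
    exact ENNReal.rpow_le_rpow (ENNReal.ofReal_le_ofReal (max_le (le_abs_self _) (abs_nonneg _)))
      hp0.le
  have x2 : ∫⁻ x, ENNReal.ofReal (max (-f x) 0) ^ p ∂μ ≤ X := by
    refine lintegral_mono (fun x => ?_)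
    exact ENNReal.rpow_le_rpow (ENNReal.ofReal_le_ofReal (max_le (neg_le_abs _) (abs_nonneg _)))
      hp0.le
  have f1 : ∫⁻ x, gsq lam (fun t => max (f t) 0) x ^ (p / 2) ∂μ ≤ C1 * C2 * X := by
    calc _ ≤ C1 * ∫⁻ x, MM volume (fun t => ENNReal.ofReal (max (f t) 0)) x ^ p ∂μ := e1
      _ ≤ C1 * (C2 * X) := by
          gcongr
          exact m1.trans (by gcongr)
      _ = _ := by ring
  have f2 : ∫⁻ x, gsq lam (fun t => max (-f t) 0) x ^ (p / 2) ∂μ ≤ C1 * C2 * X := by
    calc _ ≤ C1 * ∫⁻ x, MM volume (fun t => ENNReal.ofReal (max (-f t) 0)) x ^ p ∂μ := e2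
      _ ≤ C1 * (C2 * X) := by
          gcongr
          exact m2.trans (by gcongr)
      _ = _ := by ring
  have hgm : Measurable (fun x => gsq lam (fun t => max (f t) 0) x) := by
    unfold gsq
    have hj : Measurable (fun w : ℝ × (ℝ × ℝ) =>
        ENNReal.ofReal ((w.2.2 / (|w.1 - w.2.1| + w.2.2)) ^ lam *
          DD (fun t => max (f t) 0) w.2)) :=
      ((measurable_K2 lam).mul ((measurable_DD hpm hpi).comp measurable_snd)).ennreal_ofReal
    exact hj.lintegral_prod_right'
  have h22 : (2:ℝ≥0∞) ^ (p / 2) ≤ 2 := by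
    calc (2:ℝ≥0∞) ^ (p / 2) ≤ 2 ^ (1:ℝ) :=
          ENNReal.rpow_le_rpow_of_exponent_le (by norm_num) (by linarith)
      _ = 2 := ENNReal.rpow_one _
  calc ∫⁻ x, gStar lam f x ^ p ∂μ
      ≤ ∫⁻ x, (2 * gsq lam (fun t => max (f t) 0) x ^ (p / 2) +
          2 * gsq lam (fun t => max (-f t) 0) x ^ (p / 2)) ∂μ := by
        refine lintegral_mono (fun x => ?_)
        simp only
        rw [gStar_eq hf hfi', ← ENNReal.rpow_mul]
        have : 1 / 2 * p = p / 2 := by ring
        rw [this]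
        calc gsq lam f x ^ (p / 2)
            ≤ (2 * gsq lam (fun t => max (f t) 0) x + 2 * gsq lam (fun t => max (-f t) 0) x)
                ^ (p / 2) := ENNReal.rpow_le_rpow (gsq_split hf hfi lam x) (by positivity)
          _ ≤ (2 * gsq lam (fun t => max (f t) 0) x) ^ (p / 2) +
                (2 * gsq lam (fun t => max (-f t) 0) x) ^ (p / 2) :=
              ENNReal.rpow_add_le_add_rpow _ _ (by positivity) (by linarith)
          _ ≤ _ := by
              rw [ENNReal.mul_rpow_of_nonneg _ _ (by positivity),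
                ENNReal.mul_rpow_of_nonneg _ _ (by positivity)]
              gcongr
    _ = 2 * ∫⁻ x, gsq lam (fun t => max (f t) 0) x ^ (p / 2) ∂μ +
          2 * ∫⁻ x, gsq lam (fun t => max (-f t) 0) x ^ (p / 2) ∂μ := by
        rw [lintegral_add_left ((hgm.pow_const _).const_mul 2),
          lintegral_const_mul' _ _ (by norm_num), lintegral_const_mul' _ _ (by norm_num)]
    _ ≤ 2 * (C1 * C2 * X) + 2 * (C1 * C2 * X) := by gcongr
    _ = _ := by push_cast; ring

end Pool.Agent.H779R2.Glam
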