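import Pool.Agent.H779R2.Glam.Final

open MeasureTheory Set Filter
open scoped ENNReal NNReal Topology

namespace Pool.Agent.H779R2.Glam

lemma Dbl.mono {s s' : ℝ} (hss : s ≤ s') {μ : Measure ℝ} (h : Dbl s μ) : Dbl s' μ := by
  obtain ⟨C, hC⟩ := h
  refine ⟨C, fun c l n hl => (hC c l n hl).trans ?_⟩
  have : ((2:ℝ) ^ s) ^ n ≤ ((2:ℝ) ^ s') ^ n :=
    pow_le_pow_left₀ (by positivity) (Real.rpow_le_rpow_of_exponent_le (by norm_num) hss) n
  gcongr

/-- An `A_p` weight which is not almost everywhere zero is almost everywhere positive. -/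
lemma pos_of_memA {p : ℝ} (hp : 1 < p) {U : ℝ → ℝ} (hU : IsWeight U) (hA : MemA p U)
    (hne : ¬ (U =ᵐ[volume] 0)) : ∀ᵐ x, 0 < U x := by
  have hp1 : 0 < p - 1 := by linarith
  obtain ⟨C, hC⟩ := hA
  -- an interval with positive mass
  obtain ⟨n0, hn0⟩ : ∃ n0 : ℕ, ∫⁻ x in Ioo (-(n0:ℝ) - 1) (n0 + 1), ENNReal.ofReal (U x) ≠ 0 := by
    by_contra hcon
    push Not at hcon
    apply hne
    have h1 : ∀ n : ℕ, ∀ᵐ x, x ∈ Ioo (-(n:ℝ) - 1) (n + 1) → U x = 0 := by
      intro n
      have h2 := hcon n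
      rw [lintegral_eq_zero_iff' hU.aemeasurable.restrict] at h2
      rw [EventuallyEq, ae_restrict_iff' measurableSet_Ioo] at h2
      filter_upwards [h2] with x hx hxI
      have := hx hxI
      simp only [Pi.zero_apply, ENNReal.ofReal_eq_zero] at this
      exact le_antisymm this (hU.1 x)
    filter_upwards [ae_all_iff.2 h1] with x hx
    obtain ⟨n, hn⟩ := exists_nat_gt |x|
    have := abs_lt.1 hn
    exact hx n ⟨by linarith [this.1], by linarith [this.2]⟩
  have h3 : ∀ n : ℕ, ∀ᵐ x, x ∈ Ioo (-((n0:ℝ) + n) - 1) ((n0:ℝ) + n + 1) → 0 < U x := by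
    intro n
    set I := Ioo (-((n0:ℝ) + n) - 1) ((n0:ℝ) + n + 1) with hI
    have hab : -((n0:ℝ) + n) - 1 < (n0:ℝ) + n + 1 := by
      have : (0:ℝ) ≤ n0 := by positivity
      have : (0:ℝ) ≤ n := by positivity
      linarith
    have h4 := hC _ _ hab
    have h5 : ∫⁻ x in I, ENNReal.ofReal (U x) ≠ 0 := by
      intro h0
      apply hn0
      refine le_antisymm ?_ bot_le
      rw [← h0]
      refine lintegral_mono_set (Ioo_subset_Ioo ?_ ?_)
      · have : (0:ℝ) ≤ n := by positivity
        linarith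
      · have : (0:ℝ) ≤ n := by positivity
        linarith
    set L := ENNReal.ofReal ((n0:ℝ) + n + 1 - (-((n0:ℝ) + n) - 1)) with hL
    have hLt : L ≠ ∞ := ENNReal.ofReal_ne_top
    have hL0 : L ≠ 0 := by
      rw [hL]; simpa using hab
    have h6 : ∫⁻ x in I, ENNReal.ofReal (U x) ^ (-1 / (p - 1)) ≠ ∞ := by
      intro htop
      rw [htop, ENNReal.top_div_of_ne_top hLt, ENNReal.top_rpow_of_pos hp1,
        ENNReal.mul_top (ENNReal.div_ne_zero.2 ⟨h5, hLt⟩)] at h4
      exact ENNReal.coe_ne_top (top_le_iff.1 h4)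
    have hm : AEMeasurable (fun x => ENNReal.ofReal (U x) ^ (-1 / (p - 1)))
        (volume.restrict I) := (hU.aemeasurable.restrict).pow_const _
    have h7 := ae_lt_top' hm h6
    rw [ae_restrict_iff' measurableSet_Ioo] at h7
    filter_upwards [h7] with x hx hxI
    have h8 := hx hxI
    by_contra hcon
    have h9 : ENNReal.ofReal (U x) = 0 := by
      rw [ENNReal.ofReal_eq_zero]; exact not_lt.1 hcon
    rw [h9, ENNReal.zero_rpow_of_neg (by
      apply div_neg_of_neg_of_pos (by norm_num) hp1)] at h8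
    exact lt_irrefl _ h8
  filter_upwards [ae_all_iff.2 h3] with x hx
  obtain ⟨n, hn⟩ := exists_nat_gt |x|
  have := abs_lt.1 hn
  have h0 : (0:ℝ) ≤ n0 := by positivity
  exact hx n ⟨by linarith [this.1], by linarith [this.2]⟩

/-- Replacing a weight by a positive measurable version. -/
lemma exists_apW {p : ℝ} (hp : 1 < p) {U : ℝ → ℝ} (hU : IsWeight U) {C : ℝ≥0}
    (hC : ∀ a b : ℝ, a < b →
    ((∫⁻ x in Ioo a b, ENNReal.ofReal (U x)) / ENNReal.ofReal (b - a)) *
      ((∫⁻ x in Ioo a b, ENNReal.ofReal (U x) ^ (-1 / (p - 1))) / ENNReal.ofReal (b - a)) ^ (p - 1)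
      ≤ C)
    (hpos : ∀ᵐ x, 0 < U x) : ∃ u : ℝ → ℝ≥0∞, ApW p u C ∧ u =ᵐ[volume] fun x => ENNReal.ofReal (U x) := by
  have hp1 : 0 < p - 1 := by linarith
  have hUm : AEMeasurable U volume := hU.2.aestronglyMeasurable.aemeasurable
  set U' := hUm.mk U with hU'
  have hU'm : Measurable U' := hUm.measurable_mk
  have hUU' : U =ᵐ[volume] U' := hUm.ae_eq_mk
  classical
  set u : ℝ → ℝ≥0∞ := fun x => ENNReal.ofReal (if 0 < U' x then U' x else 1) with hu
  have hum : Measurable u :=
    (Measurable.ite (measurableSet_lt measurable_const hU'm) hU'm measurable_const).ennreal_ofReal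
  have hae : u =ᵐ[volume] fun x => ENNReal.ofReal (U x) := by
    filter_upwards [hUU', hpos] with x h1 h2
    simp only [hu]
    rw [← h1, if_pos h2]
  have hμ : volume.withDensity u = wMeas U := withDensity_congr_ae hae
  refine ⟨u, ⟨hum, ?_, fun x => ENNReal.ofReal_ne_top, ?_, ?_⟩, hae⟩
  · intro x
    have : 0 < (if 0 < U' x then U' x else 1) := by split_ifs with h <;> linarith
    simpa [hu] using this
  · intro a b
    rw [hμ]; exact hU.fin a b
  · intro a b hab
    have h1 := hC a b hab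
    have e1 : ∫⁻ x in Ioo a b, ENNReal.ofReal (U x) = volume.withDensity u (Ioo a b) := by
      rw [withDensity_apply _ measurableSet_Ioo]
      exact (lintegral_congr_ae (ae_restrict_of_ae hae)).symm
    have e2 : ∫⁻ x in Ioo a b, ENNReal.ofReal (U x) ^ (-1 / (p - 1)) =
        volume.withDensity (fun x => u x ^ (-1 / (p - 1))) (Ioo a b) := by
      rw [withDensity_apply _ measurableSet_Ioo]
      refine (lintegral_congr_ae (ae_restrict_of_ae ?_)).symm
      filter_upwards [hae] with x hx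
      rw [hx]
    rw [e1, e2] at h1
    set m := volume.withDensity u (Ioo a b)
    set n := volume.withDensity (fun x => u x ^ (-1 / (p - 1))) (Ioo a b)
    set L := ENNReal.ofReal (b - a) with hL
    have hLt : L ≠ ∞ := ENNReal.ofReal_ne_top
    have hL0 : L ≠ 0 := by rw [hL]; simpa using hab
    have hLp : L ^ p = L * L ^ (p - 1) := by
      have := ENNReal.rpow_add 1 (p - 1) hL0 hLt
      rw [ENNReal.rpow_one] at this
      rw [← this]; congr 1; ring
    calc m * n ^ (p - 1) = (m / L * L) * (n / L * L) ^ (p - 1) := by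
          rw [ENNReal.div_mul_cancel hL0 hLt, ENNReal.div_mul_cancel hL0 hLt]
      _ = (m / L * (n / L) ^ (p - 1)) * (L * L ^ (p - 1)) := by
          rw [ENNReal.mul_rpow_of_nonneg _ _ hp1.le]; ring
      _ ≤ C * (L * L ^ (p - 1)) := by gcongr
      _ = C * L ^ p := by rw [hLp]

lemma poisson_congr {f g : ℝ → ℝ} (h : f =ᵐ[volume] g) : poisson f = poisson g := by
  funext z y
  rw [poisson_eq', poisson_eq']
  congr 1
  refine integral_congr_ae ?_
  filter_upwards [h] with t ht
  rw [ht]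

lemma gStar_congr {f g : ℝ → ℝ} (h : f =ᵐ[volume] g) (lam : ℝ) : gStar lam f = gStar lam g := by
  funext x
  unfold gStar gradSq
  rw [poisson_congr h]

/-- **Sufficiency.** For `1 < lam ≤ 2` and `2/lam < p < 2`, every weight in
`A_p ∩ B_(lam p/2)` satisfies `(∗)`. -/
theorem sufficiency {lam p : ℝ} (h1 : 1 < lam) (h2 : lam ≤ 2) (hp1 : 2 / lam < p) (hp2 : p < 2)
    {U : ℝ → ℝ} (hU : IsWeight U) (hA : MemA p U) (hB : MemB (lam * p / 2) U) :
    Star lam p U := by
  have hl0 : 0 < lam := by linarith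
  have hp : 1 < p := by
    have : 1 ≤ 2 / lam := by rw [le_div_iff₀ hl0]; linarith
    linarith
  have hr1 : 1 < lam * p / 2 := by
    rw [div_lt_iff₀ hl0] at hp1
    linarith
  by_cases hne : U =ᵐ[volume] 0
  · refine ⟨0, fun f _ _ => ?_⟩
    have : ∫⁻ x, gStar lam f x ^ p * ENNReal.ofReal (U x) = 0 := by
      rw [← lintegral_zero (μ := (volume : Measure ℝ))]
      refine lintegral_congr_ae ?_
      filter_upwards [hne] with x hx
      rw [hx]; simp
    rw [this]; exact bot_le
  have hpos := pos_of_memA hp hU hA hne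
  obtain ⟨Q, hQ⟩ := hA
  obtain ⟨u, hu, hae⟩ := exists_apW hp hU hQ hpos
  have hμ : volume.withDensity u = wMeas U := withDensity_congr_ae hae
  have hBm := (memB_iff hU).1 hB
  obtain ⟨s0, hs0, hD0⟩ := hBm.exists_dbl (by linarith) hU.fin
  have hD1 : Dbl (max s0 1) (wMeas U) := hD0.mono (le_max_left _ _)
  obtain ⟨CB, hCB⟩ := hBm
  obtain ⟨CD, hCD⟩ := hD1
  have hm0 : 0 < max s0 1 := lt_of_lt_of_le one_pos (le_max_right _ _)
  have hm1 : max s0 1 < lam * p / 2 := max_lt hs0 hr1
  obtain ⟨C, hC⟩ := main_pos h1 hp hp1 hp2 hm0 hm1 Q CB CD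
  rw [← hμ] at hCB hCD
  have hmain := hC u hu hCB hCD
  refine ⟨C, fun f hf hfin => ?_⟩
  have hfm : AEMeasurable f volume := hf.aemeasurable
  set f' := hfm.mk f with hf'
  have hf'm : Measurable f' := hfm.measurable_mk
  have hff' : f =ᵐ[volume] f' := hfm.ae_eq_mk
  have hp0 : 0 ≤ p := by linarith
  have eR : ∫⁻ x, ENNReal.ofReal (|f x| ^ p * U x) =
      ∫⁻ x, ENNReal.ofReal |f' x| ^ p ∂(volume.withDensity u) := by
    rw [lintegral_withDensity_eq_lintegral_mul _ hu.meas (hf'm.abs.ennreal_ofReal.pow_const p)]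
    refine lintegral_congr_ae ?_
    filter_upwards [hff', hae] with x hx hx2
    simp only [Pi.mul_apply]
    rw [hx, hx2, ENNReal.ofReal_rpow_of_nonneg (abs_nonneg _) hp0, ENNReal.ofReal_mul (by positivity),
      mul_comm]
  rw [eR] at hfin ⊢
  have h := hmain f' hf'm hfin
  refine le_trans (le_of_eq ?_) h
  have hfi := integrable_of_Lp hp hu hf'm hfin
  have hden : Measurable (fun t : ℝ => 1 + t ^ 2) := by fun_prop
  have hfi' : Integrable (fun t => f' t / (1 + t ^ 2)) := by
    refine hfi.mono' (hf'm.div hden).aestronglyMeasurable (Eventually.of_forall (fun t => ?_))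
    rw [norm_div, Real.norm_of_nonneg (by positivity : (0:ℝ) ≤ 1 + t ^ 2), Real.norm_eq_abs]
  have hgm : Measurable (gStar lam f') := by
    have : gStar lam f' = fun x => gsq lam f' x ^ (1 / 2 : ℝ) := by
      funext x; exact gStar_eq hf'm hfi' lam x
    rw [this]
    unfold gsq
    have hj : Measurable (fun w : ℝ × (ℝ × ℝ) =>
        ENNReal.ofReal ((w.2.2 / (|w.1 - w.2.1| + w.2.2)) ^ lam * DD f' w.2)) :=
      ((measurable_K2 lam).mul ((measurable_DD hf'm hfi').comp measurable_snd)).ennreal_ofReal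
    exact hj.lintegral_prod_right'.pow_const _
  rw [lintegral_withDensity_eq_lintegral_mul _ hu.meas (hgm.pow_const p), gStar_congr hff']
  refine lintegral_congr_ae ?_
  filter_upwards [hae] with x hx
  simp only [Pi.mul_apply]
  rw [hx, mul_comm]

end Pool.Agent.H779R2.Glam
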