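import Pool.Agent.H779R2.Glam.Carleson

open MeasureTheory Set Filter
open scoped ENNReal NNReal Topology

namespace Pool.Agent.H779R2.Glam

lemma green1 {α β : ℝ} (hαβ : α ≤ β) {g g' g'' : ℝ → ℝ}
    (hg : ∀ t ∈ Icc α β, HasDerivAt g (g' t) t) (hg' : ∀ t ∈ Icc α β, HasDerivAt g' (g'' t) t)
    (hc : ContinuousOn g'' (Icc α β)) (h0 : ∀ t ∈ Icc α β, 0 ≤ g t)
    (h1 : ∀ t ∈ Icc α β, g t ≤ 1) :
    ∫ t in α..β, (t - α) * (β - t) * g'' t ≤ 2 * (β - α) := by
  have hgc : ContinuousOn g (Icc α β) := fun t ht => (hg t ht).continuousAt.continuousWithinAt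
  have hg'c : ContinuousOn g' (Icc α β) := fun t ht => (hg' t ht).continuousAt.continuousWithinAt
  have hu : uIcc α β = Icc α β := uIcc_of_le hαβ
  have i1 : IntervalIntegrable (fun t => (t - α) * (β - t) * g'' t) volume α β := by
    apply ContinuousOn.intervalIntegrable
    rw [hu]
    exact ((by fun_prop : ContinuousOn (fun t : ℝ => (t - α) * (β - t)) (Icc α β))).mul hc
  have i2 : IntervalIntegrable (fun t => 2 * g t) volume α β := by
    apply ContinuousOn.intervalIntegrable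
    rw [hu]
    exact continuousOn_const.mul hgc
  have key := intervalIntegral.integral_eq_sub_of_hasDerivAt (a := α) (b := β)
    (f := fun t => (t - α) * (β - t) * g' t - (α + β - 2 * t) * g t)
    (f' := fun t => (t - α) * (β - t) * g'' t + 2 * g t) ?_ (i1.add i2)
  · rw [intervalIntegral.integral_add i1 i2] at key
    have hpos : 0 ≤ ∫ t in α..β, 2 * g t :=
      intervalIntegral.integral_nonneg hαβ (fun t ht => by have := h0 t ht; linarith)
    have e1 := h1 α (left_mem_Icc.2 hαβ)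
    have e2 := h1 β (right_mem_Icc.2 hαβ)
    have e3 : (β - α) * (β - β) * g' β - (α + β - 2 * β) * g β -
        ((α - α) * (β - α) * g' α - (α + β - 2 * α) * g α) = (β - α) * (g β + g α) := by ring
    rw [e3] at key
    have e4 : (β - α) * (g β + g α) ≤ (β - α) * 2 := by
      apply mul_le_mul_of_nonneg_left _ (by linarith)
      linarith
    linarith
  · intro t ht
    rw [hu] at ht
    have d1 : HasDerivAt (fun t : ℝ => (t - α) * (β - t)) (1 * (β - t) + (t - α) * (-1)) t :=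
      ((hasDerivAt_id t).sub_const α).fun_mul ((hasDerivAt_id t).const_sub β)
    have d2 : HasDerivAt (fun t : ℝ => α + β - 2 * t) (-(2 * 1)) t :=
      ((hasDerivAt_id t).const_mul 2).const_sub (α + β)
    have := (d1.fun_mul (hg' t ht)).fun_sub (d2.fun_mul (hg t ht))
    exact this.congr_deriv (by ring)

lemma tent_Ioo (a b : ℝ) : tent (Ioo a b) =
    {p : ℝ × ℝ | 0 < p.2 ∧ a ≤ p.1 - p.2 / 2 ∧ p.1 + p.2 / 2 ≤ b} := by
  ext p
  constructor
  · rintro ⟨h0, h⟩
    exact ⟨h0, (Ioo_subset_Ioo_iff (by linarith : p.1 - p.2 / 2 < p.1 + p.2 / 2)).1 h⟩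
  · rintro ⟨h0, h⟩
    exact ⟨h0, Ioo_subset_Ioo h.1 h.2⟩

lemma measurableSet_tent_Ioo (a b : ℝ) : MeasurableSet (tent (Ioo a b)) := by
  rw [tent_Ioo]
  have m1 : Measurable (fun p : ℝ × ℝ => p.1 - p.2 / 2) :=
    measurable_fst.sub (measurable_snd.div_const 2)
  have m2 : Measurable (fun p : ℝ × ℝ => p.1 + p.2 / 2) :=
    measurable_fst.add (measurable_snd.div_const 2)
  exact (measurableSet_lt measurable_const measurable_snd).inter
    ((measurableSet_le measurable_const m1).inter (measurableSet_le m2 measurable_const))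

/-- The open upper half-plane. -/
def HP : Set ℂ := {w | 0 < w.im}

lemma isOpen_HP : IsOpen HP := isOpen_lt continuous_const Complex.continuous_im

lemma hasDerivAt_re_dir {F : ℂ → ℂ} {F' : ℂ} {z y : ℝ} (h : HasDerivAt F F' ⟨z, y⟩) :
    HasDerivAt (fun t : ℝ => F ⟨t, y⟩) F' z := by
  have e : ∀ t : ℝ, (⟨t, y⟩ : ℂ) = (t : ℂ) + y * Complex.I := fun t => Complex.mk_eq_add_mul_I t y
  rw [e] at h
  have h1 : HasDerivAt (fun w : ℂ => F (w + y * Complex.I)) F' (z : ℂ) :=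
    HasDerivAt.comp_add_const (z : ℂ) (y * Complex.I) h
  have h2 := h1.comp_ofReal
  simpa only [e] using h2

lemma hasDerivAt_im_dir {F : ℂ → ℂ} {F' : ℂ} {z y : ℝ} (h : HasDerivAt F F' ⟨z, y⟩) :
    HasDerivAt (fun t : ℝ => F ⟨z, t⟩) (F' * Complex.I) y := by
  have e : ∀ t : ℝ, (⟨z, t⟩ : ℂ) = (z : ℂ) + t * Complex.I := fun t => Complex.mk_eq_add_mul_I z t
  rw [e] at h
  have h0 : HasDerivAt (fun w : ℂ => (z : ℂ) + w * Complex.I) Complex.I (y : ℂ) := by
    simpa using ((hasDerivAt_id (y : ℂ)).mul_const Complex.I).const_add (z : ℂ)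
  have h1 : HasDerivAt (fun w : ℂ => F ((z : ℂ) + w * Complex.I)) (F' * Complex.I) (y : ℂ) :=
    HasDerivAt.comp (y : ℂ) h h0
  have h2 := h1.comp_ofReal
  simpa only [e] using h2

lemma HasDerivAt.im' {f : ℝ → ℂ} {f' : ℂ} {t : ℝ} (h : HasDerivAt f f' t) :
    HasDerivAt (fun t => (f t).im) f'.im t := by
  exact Complex.imCLM.hasFDerivAt.comp_hasDerivAt t h

lemma HasDerivAt.re' {f : ℝ → ℂ} {f' : ℂ} {t : ℝ} (h : HasDerivAt f f' t) :
    HasDerivAt (fun t => (f t).re) f'.re t := by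
  exact Complex.reCLM.hasFDerivAt.comp_hasDerivAt t h

section holo

variable {F : ℂ → ℂ}

lemma holo_hasDerivAt (hF : DifferentiableOn ℂ F HP) {w : ℂ} (hw : w ∈ HP) :
    HasDerivAt F (deriv F w) w :=
  (hF.differentiableAt (isOpen_HP.mem_nhds hw)).hasDerivAt

lemma holo_deriv (hF : DifferentiableOn ℂ F HP) : DifferentiableOn ℂ (deriv F) HP :=
  hF.deriv isOpen_HP

/-- the second `z`-derivative of `exp (- Im F / N)` -/
lemma vzz (hF : DifferentiableOn ℂ F HP) (N : ℝ) {z y : ℝ} (hy : 0 < y) :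
    HasDerivAt (fun t : ℝ => Real.exp (-(F ⟨t, y⟩).im / N))
      (-(deriv F ⟨z, y⟩).im / N * Real.exp (-(F ⟨z, y⟩).im / N)) z ∧
    HasDerivAt (fun t : ℝ => -(deriv F ⟨t, y⟩).im / N * Real.exp (-(F ⟨t, y⟩).im / N))
      ((-(deriv (deriv F) ⟨z, y⟩).im / N + ((deriv F ⟨z, y⟩).im / N) ^ 2) *
        Real.exp (-(F ⟨z, y⟩).im / N)) z := by
  have hw : (⟨z, y⟩ : ℂ) ∈ HP := hy
  have d1 := HasDerivAt.im' (hasDerivAt_re_dir (holo_hasDerivAt hF hw))
  have d2 := HasDerivAt.im' (hasDerivAt_re_dir (holo_hasDerivAt (holo_deriv hF) hw))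
  have e1 := (d1.fun_neg.div_const N).exp
  have e1' : HasDerivAt (fun t : ℝ => Real.exp (-(F ⟨t, y⟩).im / N))
      (-(deriv F ⟨z, y⟩).im / N * Real.exp (-(F ⟨z, y⟩).im / N)) z :=
    e1.congr_deriv (by ring)
  refine ⟨e1', ?_⟩
  exact ((d2.fun_neg.div_const N).fun_mul e1').congr_deriv (by ring)

/-- the second `y`-derivative of `exp (- Im F / N)` -/
lemma vyy (hF : DifferentiableOn ℂ F HP) (N : ℝ) {z y : ℝ} (hy : 0 < y) :
    HasDerivAt (fun t : ℝ => Real.exp (-(F ⟨z, t⟩).im / N))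
      (-(deriv F ⟨z, y⟩).re / N * Real.exp (-(F ⟨z, y⟩).im / N)) y ∧
    HasDerivAt (fun t : ℝ => -(deriv F ⟨z, t⟩).re / N * Real.exp (-(F ⟨z, t⟩).im / N))
      (((deriv (deriv F) ⟨z, y⟩).im / N + ((deriv F ⟨z, y⟩).re / N) ^ 2) *
        Real.exp (-(F ⟨z, y⟩).im / N)) y := by
  have hw : (⟨z, y⟩ : ℂ) ∈ HP := hy
  have d1 := HasDerivAt.im' (hasDerivAt_im_dir (holo_hasDerivAt hF hw))
  have d2 := HasDerivAt.re' (hasDerivAt_im_dir (holo_hasDerivAt (holo_deriv hF) hw))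
  have e1 := (d1.fun_neg.div_const N).exp
  have i1 : (deriv F ⟨z, y⟩ * Complex.I).im = (deriv F ⟨z, y⟩).re := by simp
  have i2 : (deriv (deriv F) ⟨z, y⟩ * Complex.I).re = -(deriv (deriv F) ⟨z, y⟩).im := by simp
  rw [i1] at e1
  rw [i2] at d2
  have e1' : HasDerivAt (fun t : ℝ => Real.exp (-(F ⟨z, t⟩).im / N))
      (-(deriv F ⟨z, y⟩).re / N * Real.exp (-(F ⟨z, y⟩).im / N)) y :=
    e1.congr_deriv (by ring)
  refine ⟨e1', ?_⟩
  exact ((d2.fun_neg.div_const N).fun_mul e1').congr_deriv (by ring)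

lemma continuous_pt : Continuous (fun p : ℝ × ℝ => (⟨p.1, p.2⟩ : ℂ)) := by
  have : (fun p : ℝ × ℝ => (⟨p.1, p.2⟩ : ℂ)) = fun p => (p.1 : ℂ) + p.2 * Complex.I := by
    funext p; exact Complex.mk_eq_add_mul_I _ _
  rw [this]
  fun_prop

/-- Green's estimate on a rectangle with the polynomial weight. -/
lemma green_rect (hF : DifferentiableOn ℂ F HP) (hpos : ∀ w ∈ HP, 0 ≤ (F w).im) {N : ℝ}
    (hN : 0 < N) {A B ε L : ℝ} (hAB : A < B) (hε : 0 < ε) (hεL : ε < L) :
    IntegrableOn (fun p : ℝ × ℝ => (p.1 - A) * (B - p.1) * ((p.2 - ε) * (L - p.2)) *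
      (‖deriv F ⟨p.1, p.2⟩‖ ^ 2 / N ^ 2 * Real.exp (-(F ⟨p.1, p.2⟩).im / N)))
      (Icc A B ×ˢ Icc ε L) ∧
    ∫ p in Icc A B ×ˢ Icc ε L, (p.1 - A) * (B - p.1) * ((p.2 - ε) * (L - p.2)) *
      (‖deriv F ⟨p.1, p.2⟩‖ ^ 2 / N ^ 2 * Real.exp (-(F ⟨p.1, p.2⟩).im / N))
      ≤ 2 * (B - A) * (L - ε) ^ 3 + 2 * (L - ε) * (B - A) ^ 3 := by
  set R : Set (ℝ × ℝ) := Icc A B ×ˢ Icc ε L with hR
  have hRc : IsCompact R := isCompact_Icc.prod isCompact_Icc
  have hmaps : MapsTo (fun p : ℝ × ℝ => (⟨p.1, p.2⟩ : ℂ)) R HP :=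
    fun p hp => lt_of_lt_of_le hε hp.2.1
  have cF : ContinuousOn (fun p : ℝ × ℝ => F ⟨p.1, p.2⟩) R :=
    hF.continuousOn.comp continuous_pt.continuousOn hmaps
  have cG : ContinuousOn (fun p : ℝ × ℝ => deriv F ⟨p.1, p.2⟩) R :=
    (holo_deriv hF).continuousOn.comp continuous_pt.continuousOn hmaps
  have cH : ContinuousOn (fun p : ℝ × ℝ => deriv (deriv F) ⟨p.1, p.2⟩) R :=
    (holo_deriv (holo_deriv hF)).continuousOn.comp continuous_pt.continuousOn hmaps
  have cFi : ContinuousOn (fun p : ℝ × ℝ => (F ⟨p.1, p.2⟩).im) R :=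
    Complex.continuous_im.comp_continuousOn cF
  have cGi : ContinuousOn (fun p : ℝ × ℝ => (deriv F ⟨p.1, p.2⟩).im) R :=
    Complex.continuous_im.comp_continuousOn cG
  have cGr : ContinuousOn (fun p : ℝ × ℝ => (deriv F ⟨p.1, p.2⟩).re) R :=
    Complex.continuous_re.comp_continuousOn cG
  have cHi : ContinuousOn (fun p : ℝ × ℝ => (deriv (deriv F) ⟨p.1, p.2⟩).im) R :=
    Complex.continuous_im.comp_continuousOn cH
  have cv : ContinuousOn (fun p : ℝ × ℝ => Real.exp (-(F ⟨p.1, p.2⟩).im / N)) R :=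
    Real.continuous_exp.comp_continuousOn (cFi.neg.div_const N)
  have cφ : ContinuousOn (fun p : ℝ × ℝ => (p.1 - A) * (B - p.1) * ((p.2 - ε) * (L - p.2))) R :=
    by fun_prop
  set f1 : ℝ × ℝ → ℝ := fun p => (p.1 - A) * (B - p.1) * ((p.2 - ε) * (L - p.2)) *
    ((-(deriv (deriv F) ⟨p.1, p.2⟩).im / N + ((deriv F ⟨p.1, p.2⟩).im / N) ^ 2) *
        Real.exp (-(F ⟨p.1, p.2⟩).im / N)) with hf1
  set f2 : ℝ × ℝ → ℝ := fun p => (p.1 - A) * (B - p.1) * ((p.2 - ε) * (L - p.2)) *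
    (((deriv (deriv F) ⟨p.1, p.2⟩).im / N + ((deriv F ⟨p.1, p.2⟩).re / N) ^ 2) *
        Real.exp (-(F ⟨p.1, p.2⟩).im / N)) with hf2
  have c1 : ContinuousOn f1 R :=
    cφ.mul (((cHi.neg.div_const N).add ((cGi.div_const N).pow 2)).mul cv)
  have c2 : ContinuousOn f2 R :=
    cφ.mul (((cHi.div_const N).add ((cGr.div_const N).pow 2)).mul cv)
  have i1 : IntegrableOn f1 R := c1.integrableOn_compact hRc
  have i2 : IntegrableOn f2 R := c2.integrableOn_compact hRc
  have hsum : (fun p : ℝ × ℝ => (p.1 - A) * (B - p.1) * ((p.2 - ε) * (L - p.2)) *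
      (‖deriv F ⟨p.1, p.2⟩‖ ^ 2 / N ^ 2 * Real.exp (-(F ⟨p.1, p.2⟩).im / N)))
      = fun p => f1 p + f2 p := by
    funext p
    have : ‖deriv F ⟨p.1, p.2⟩‖ ^ 2 = (deriv F ⟨p.1, p.2⟩).re ^ 2 + (deriv F ⟨p.1, p.2⟩).im ^ 2 := by
      rw [Complex.sq_norm, Complex.normSq_apply]; ring
    rw [this, hf1, hf2]
    ring
  have hv0 : ∀ z y : ℝ, 0 < y → 0 ≤ Real.exp (-(F ⟨z, y⟩).im / N) := fun z y _ =>
    (Real.exp_pos _).le
  have hv1 : ∀ z y : ℝ, 0 < y → Real.exp (-(F ⟨z, y⟩).im / N) ≤ 1 := by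
    intro z y hy
    rw [Real.exp_le_one_iff]
    have := hpos ⟨z, y⟩ hy
    exact div_nonpos_of_nonpos_of_nonneg (by linarith) hN.le
  rw [hsum]
  refine ⟨i1.add i2, ?_⟩
  have e1 : ∫ p in R, f1 p ≤ 2 * (B - A) * (L - ε) ^ 3 := by
    have hp : (volume.restrict (Icc A B)).prod (volume.restrict (Icc ε L))
        = (volume : Measure (ℝ × ℝ)).restrict R := by
      rw [Measure.prod_restrict]; rfl
    have i1' : Integrable f1 ((volume.restrict (Icc A B)).prod (volume.restrict (Icc ε L))) := by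
      rw [hp]; exact i1
    rw [← hp, integral_prod_symm _ i1']
    have hb : ∀ y ∈ Icc ε L, ∫ z in Icc A B, f1 (z, y) ≤ (L - ε) ^ 2 * (2 * (B - A)) := by
      intro y hy
      have hy0 : 0 < y := lt_of_lt_of_le hε hy.1
      have hg := green1 (α := A) (β := B) hAB.le
        (g := fun t : ℝ => Real.exp (-(F ⟨t, y⟩).im / N))
        (g' := fun t : ℝ => -(deriv F ⟨t, y⟩).im / N * Real.exp (-(F ⟨t, y⟩).im / N))
        (g'' := fun z : ℝ => (-(deriv (deriv F) ⟨z, y⟩).im / N + ((deriv F ⟨z, y⟩).im / N) ^ 2) *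
        Real.exp (-(F ⟨z, y⟩).im / N))
        (fun t _ => (vzz hF N hy0).1) (fun t _ => (vzz hF N hy0).2) ?_
        (fun t _ => hv0 t y hy0) (fun t _ => hv1 t y hy0)
      · rw [intervalIntegral.integral_of_le hAB.le, ← integral_Icc_eq_integral_Ioc] at hg
        have e : ∀ z, f1 (z, y) = ((y - ε) * (L - y)) * ((z - A) * (B - z) *
            ((-(deriv (deriv F) ⟨z, y⟩).im / N + ((deriv F ⟨z, y⟩).im / N) ^ 2) *
              Real.exp (-(F ⟨z, y⟩).im / N))) := by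
          intro z; simp only [hf1]; ring
        simp only [e]
        rw [integral_const_mul]
        have h1 : 0 ≤ (y - ε) * (L - y) := mul_nonneg (by linarith [hy.1]) (by linarith [hy.2])
        have h2 : (y - ε) * (L - y) ≤ (L - ε) ^ 2 := by
          rw [pow_two]
          exact mul_le_mul (by linarith [hy.2]) (by linarith [hy.1]) (by linarith [hy.2])
            (by linarith)
        calc _ ≤ (y - ε) * (L - y) * (2 * (B - A)) := mul_le_mul_of_nonneg_left hg h1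
          _ ≤ _ := mul_le_mul_of_nonneg_right h2 (by linarith)
      · have hc : Continuous (fun z : ℝ => ((z, y) : ℝ × ℝ)) := by fun_prop
        have hm : MapsTo (fun z : ℝ => ((z, y) : ℝ × ℝ)) (Icc A B) R := fun z hz => ⟨hz, hy⟩
        exact (((cHi.comp hc.continuousOn hm).neg.div_const N).add
          (((cGi.comp hc.continuousOn hm).div_const N).pow 2)).mul (cv.comp hc.continuousOn hm)
    calc ∫ y in Icc ε L, ∫ z in Icc A B, f1 (z, y)
        ≤ ∫ y in Icc ε L, (L - ε) ^ 2 * (2 * (B - A)) := by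
          refine setIntegral_mono_on i1'.integral_prod_right ?_ measurableSet_Icc hb
          exact integrableOn_const (by simp)
      _ = (L - ε) * ((L - ε) ^ 2 * (2 * (B - A))) := by
          rw [setIntegral_const, Measure.real, Real.volume_Icc, ENNReal.toReal_ofReal (by linarith),
            smul_eq_mul]
      _ = _ := by ring
  have e2 : ∫ p in R, f2 p ≤ 2 * (L - ε) * (B - A) ^ 3 := by
    have hp : (volume.restrict (Icc A B)).prod (volume.restrict (Icc ε L))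
        = (volume : Measure (ℝ × ℝ)).restrict R := by
      rw [Measure.prod_restrict]; rfl
    have i2' : Integrable f2 ((volume.restrict (Icc A B)).prod (volume.restrict (Icc ε L))) := by
      rw [hp]; exact i2
    rw [← hp, integral_prod _ i2']
    have hb : ∀ z ∈ Icc A B, ∫ y in Icc ε L, f2 (z, y) ≤ (B - A) ^ 2 * (2 * (L - ε)) := by
      intro z hz
      have hg := green1 (α := ε) (β := L) hεL.le
        (g := fun t : ℝ => Real.exp (-(F ⟨z, t⟩).im / N))
        (g' := fun t : ℝ => -(deriv F ⟨z, t⟩).re / N * Real.exp (-(F ⟨z, t⟩).im / N))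
        (g'' := fun y : ℝ => ((deriv (deriv F) ⟨z, y⟩).im / N + ((deriv F ⟨z, y⟩).re / N) ^ 2) *
        Real.exp (-(F ⟨z, y⟩).im / N))
        (fun t ht => (vyy hF N (lt_of_lt_of_le hε ht.1)).1)
        (fun t ht => (vyy hF N (lt_of_lt_of_le hε ht.1)).2) ?_
        (fun t ht => hv0 z t (lt_of_lt_of_le hε ht.1)) (fun t ht => hv1 z t (lt_of_lt_of_le hε ht.1))
      · rw [intervalIntegral.integral_of_le hεL.le, ← integral_Icc_eq_integral_Ioc] at hg
        have e : ∀ y, f2 (z, y) = ((z - A) * (B - z)) * ((y - ε) * (L - y) *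
            (((deriv (deriv F) ⟨z, y⟩).im / N + ((deriv F ⟨z, y⟩).re / N) ^ 2) *
              Real.exp (-(F ⟨z, y⟩).im / N))) := by
          intro y; simp only [hf2]; ring
        simp only [e]
        rw [integral_const_mul]
        have h1 : 0 ≤ (z - A) * (B - z) := mul_nonneg (by linarith [hz.1]) (by linarith [hz.2])
        have h2 : (z - A) * (B - z) ≤ (B - A) ^ 2 := by
          rw [pow_two]
          exact mul_le_mul (by linarith [hz.2]) (by linarith [hz.1]) (by linarith [hz.2])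
            (by linarith)
        calc _ ≤ (z - A) * (B - z) * (2 * (L - ε)) := mul_le_mul_of_nonneg_left hg h1
          _ ≤ _ := mul_le_mul_of_nonneg_right h2 (by linarith)
      · have hc : Continuous (fun y : ℝ => ((z, y) : ℝ × ℝ)) := by fun_prop
        have hm : MapsTo (fun y : ℝ => ((z, y) : ℝ × ℝ)) (Icc ε L) R := fun y hy => ⟨hz, hy⟩
        exact (((cHi.comp hc.continuousOn hm).div_const N).add
          (((cGr.comp hc.continuousOn hm).div_const N).pow 2)).mul (cv.comp hc.continuousOn hm)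
    calc ∫ z in Icc A B, ∫ y in Icc ε L, f2 (z, y)
        ≤ ∫ z in Icc A B, (B - A) ^ 2 * (2 * (L - ε)) := by
          refine setIntegral_mono_on i2'.integral_prod_left ?_ measurableSet_Icc hb
          exact integrableOn_const (by simp)
      _ = (B - A) * ((B - A) ^ 2 * (2 * (L - ε))) := by
          rw [setIntegral_const, Measure.real, Real.volume_Icc, ENNReal.toReal_ofReal (by linarith),
            smul_eq_mul]
      _ = _ := by ring
  rw [integral_add i1 i2]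
  linarith

/-- The measure `y |F'|² exp(-Im F/N) dz dy` is a Carleson measure with constant `C N²`. -/
theorem green_tent (hF : DifferentiableOn ℂ F HP) (hpos : ∀ w ∈ HP, 0 ≤ (F w).im) {N : ℝ}
    (hN : 0 < N) {a b : ℝ} (hab : a < b) :
    ∫⁻ p in tent (Ioo a b), ENNReal.ofReal (p.2 * (‖deriv F ⟨p.1, p.2⟩‖ ^ 2 *
      Real.exp (-(F ⟨p.1, p.2⟩).im / N))) ≤ ENNReal.ofReal (312 * N ^ 2 * (b - a)) := by
  set l : ℝ := b - a with hl
  have hl0 : 0 < l := by linarith
  set S : ℕ → Set (ℝ × ℝ) := fun n => tent (Ioo a b) ∩ {p | 2 * (l / (n + 2)) ≤ p.2} with hS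
  have hU : tent (Ioo a b) = ⋃ n, S n := by
    ext p
    simp only [mem_iUnion, hS, mem_inter_iff, exists_and_left, mem_ofPred_eq]
    constructor
    · intro hp
      refine ⟨hp, ?_⟩
      have hp0 : 0 < p.2 := hp.1
      obtain ⟨n, hn⟩ := exists_nat_gt (2 * l / p.2)
      refine ⟨n, ?_⟩
      rw [div_lt_iff₀ hp0] at hn
      rw [← mul_div_assoc, div_le_iff₀ (by positivity)]
      nlinarith
    · intro hp; exact hp.1
  have hmono : Monotone S := by
    intro m n hmn p hp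
    refine ⟨hp.1, ?_⟩
    have h1 : 2 * (l / ((m:ℝ) + 2)) ≤ p.2 := hp.2
    have h2 : l / ((n:ℝ) + 2) ≤ l / ((m:ℝ) + 2) := by
      apply div_le_div_of_nonneg_left hl0.le (by positivity)
      have : (m:ℝ) ≤ n := by exact_mod_cast hmn
      linarith
    show 2 * (l / ((n:ℝ) + 2)) ≤ p.2
    linarith
  rw [hU, setLIntegral_iUnion_of_directed _ hmono.directed_le]
  refine iSup_le (fun n => ?_)
  set ε : ℝ := l / (n + 2) with hεd
  have hε : 0 < ε := by positivity
  have hεl : ε < 2 * l := by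
    rw [hεd, div_lt_iff₀ (by positivity)]
    have : (0:ℝ) ≤ n := by positivity
    nlinarith
  obtain ⟨hint, hle⟩ := green_rect hF hpos hN (A := a - l) (B := b + l) (ε := ε) (L := 2 * l)
    (by linarith) hε hεl
  set Φ : ℝ × ℝ → ℝ := fun p => (p.1 - (a - l)) * (b + l - p.1) * ((p.2 - ε) * (2 * l - p.2)) *
      (‖deriv F ⟨p.1, p.2⟩‖ ^ 2 / N ^ 2 * Real.exp (-(F ⟨p.1, p.2⟩).im / N)) with hΦ
  set R : Set (ℝ × ℝ) := Icc (a - l) (b + l) ×ˢ Icc ε (2 * l) with hR
  have hRm : MeasurableSet R := measurableSet_Icc.prod measurableSet_Icc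
  have hΦ0 : ∀ p ∈ R, 0 ≤ Φ p := by
    intro p hp
    have h1 := hp.1.1
    have h2 := hp.1.2
    have h3 := hp.2.1
    have h4 := hp.2.2
    have g1 : 0 ≤ (p.1 - (a - l)) := by linarith
    have g2 : 0 ≤ (b + l - p.1) := by linarith
    have g3 : 0 ≤ p.2 - ε := by linarith
    have g4 : 0 ≤ 2 * l - p.2 := by linarith
    simp only [hΦ]
    positivity
  have hsub : S n ⊆ R := by
    rintro p ⟨hp, hp2⟩
    have hp0 : 0 < p.2 := hp.1
    have h := (Ioo_subset_Ioo_iff (by linarith : p.1 - p.2 / 2 < p.1 + p.2 / 2)).1 hp.2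
    have hp2' : 2 * ε ≤ p.2 := hp2
    refine ⟨⟨by linarith [h.1], by linarith [h.2]⟩, ⟨by linarith, by linarith [h.1, h.2]⟩⟩
  have hpt : ∀ p ∈ S n, ENNReal.ofReal (p.2 * (‖deriv F ⟨p.1, p.2⟩‖ ^ 2 *
      Real.exp (-(F ⟨p.1, p.2⟩).im / N))) ≤ ENNReal.ofReal (2 * N ^ 2 / l ^ 3 * Φ p) := by
    rintro p ⟨hp, hp2⟩
    have hp0 : 0 < p.2 := hp.1
    have h := (Ioo_subset_Ioo_iff (by linarith : p.1 - p.2 / 2 < p.1 + p.2 / 2)).1 hp.2
    have hp2' : 2 * ε ≤ p.2 := hp2
    refine ENNReal.ofReal_le_ofReal ?_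
    set E : ℝ := ‖deriv F ⟨p.1, p.2⟩‖ ^ 2 * Real.exp (-(F ⟨p.1, p.2⟩).im / N) with hE
    have hE0 : 0 ≤ E := by positivity
    have e : 2 * N ^ 2 / l ^ 3 * Φ p = (2 / l ^ 3 * ((p.1 - (a - l)) * (b + l - p.1) *
        ((p.2 - ε) * (2 * l - p.2)))) * E := by
      simp only [hΦ, hE]
      field_simp
    rw [e]
    apply mul_le_mul_of_nonneg_right _ hE0
    have g1 : l ≤ p.1 - (a - l) := by linarith [h.1]
    have g2 : l ≤ b + l - p.1 := by linarith [h.2]
    have g3 : p.2 / 2 ≤ p.2 - ε := by linarith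
    have g4 : l ≤ 2 * l - p.2 := by linarith [h.1, h.2]
    have k1 : l * l ≤ (p.1 - (a - l)) * (b + l - p.1) := mul_le_mul g1 g2 hl0.le (by linarith)
    have k2 : p.2 / 2 * l ≤ (p.2 - ε) * (2 * l - p.2) := mul_le_mul g3 g4 hl0.le (by linarith)
    have k3 : l * l * (p.2 / 2 * l) ≤ (p.1 - (a - l)) * (b + l - p.1) *
        ((p.2 - ε) * (2 * l - p.2)) := mul_le_mul k1 k2 (by positivity) (by nlinarith)
    calc p.2 = 2 / l ^ 3 * (l * l * (p.2 / 2 * l)) := by field_simp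
      _ ≤ _ := by
        apply mul_le_mul_of_nonneg_left k3
        positivity
  have hSm : MeasurableSet (S n) :=
    (measurableSet_tent_Ioo a b).inter (measurableSet_le measurable_const measurable_snd)
  calc ∫⁻ p in S n, ENNReal.ofReal (p.2 * (‖deriv F ⟨p.1, p.2⟩‖ ^ 2 *
        Real.exp (-(F ⟨p.1, p.2⟩).im / N)))
      ≤ ∫⁻ p in S n, ENNReal.ofReal (2 * N ^ 2 / l ^ 3 * Φ p) :=
        setLIntegral_mono' hSm hpt
    _ ≤ ∫⁻ p in R, ENNReal.ofReal (2 * N ^ 2 / l ^ 3 * Φ p) := lintegral_mono_set hsub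
    _ = ENNReal.ofReal (∫ p in R, 2 * N ^ 2 / l ^ 3 * Φ p) := by
        rw [ofReal_integral_eq_lintegral_ofReal (hint.const_mul _)]
        rw [EventuallyLE, ae_restrict_iff' hRm]
        refine Eventually.of_forall (fun p hp => ?_)
        have := hΦ0 p hp
        simp only [Pi.zero_apply]
        positivity
    _ ≤ _ := by
        rw [integral_const_mul]
        refine ENNReal.ofReal_le_ofReal ?_
        have hk : 0 ≤ 2 * N ^ 2 / l ^ 3 := by positivity
        have hBA : b + l - (a - l) = 3 * l := by rw [hl]; ring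
        rw [hBA] at hle
        have h5 : 2 * (3 * l) * (2 * l - ε) ^ 3 + 2 * (2 * l - ε) * (3 * l) ^ 3 ≤ 156 * l ^ 4 := by
          have h6 : 2 * l - ε ≤ 2 * l := by linarith
          have h7 : 0 ≤ 2 * l - ε := by linarith
          have h8 : (2 * l - ε) ^ 3 ≤ (2 * l) ^ 3 := pow_le_pow_left₀ h7 h6 3
          have h9 : 2 * (3 * l) * (2 * l - ε) ^ 3 ≤ 2 * (3 * l) * (2 * l) ^ 3 :=
            mul_le_mul_of_nonneg_left h8 (by positivity)
          have h10 : 2 * (2 * l - ε) * (3 * l) ^ 3 ≤ 2 * (2 * l) * (3 * l) ^ 3 := by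
            apply mul_le_mul_of_nonneg_right _ (by positivity)
            linarith
          calc _ ≤ 2 * (3 * l) * (2 * l) ^ 3 + 2 * (2 * l) * (3 * l) ^ 3 := add_le_add h9 h10
            _ = 156 * l ^ 4 := by ring
        calc 2 * N ^ 2 / l ^ 3 * ∫ p in R, Φ p ≤ 2 * N ^ 2 / l ^ 3 * (156 * l ^ 4) :=
              mul_le_mul_of_nonneg_left (hle.trans h5) hk
          _ = _ := by field_simp; ring

end holo

end Pool.Agent.H779R2.Glam
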