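import Mathlib

open MeasureTheory Set Filter
open scoped ENNReal NNReal Topology

namespace Pool.Agent.H779R2.Glam

/-- The uncentred maximal function over open intervals with respect to `μ`. -/
noncomputable def MM (μ : Measure ℝ) (g : ℝ → ℝ≥0∞) (x : ℝ) : ℝ≥0∞ :=
  ⨆ (a : ℝ) (b : ℝ) (_ : x ∈ Ioo a b), (∫⁻ t in Ioo a b, g t ∂μ) / μ (Ioo a b)

lemma le_MM (μ : Measure ℝ) (g : ℝ → ℝ≥0∞) {x a b : ℝ} (hx : x ∈ Ioo a b) :
    (∫⁻ t in Ioo a b, g t ∂μ) / μ (Ioo a b) ≤ MM μ g x := by
  unfold MM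
  exact le_iSup_of_le a (le_iSup_of_le b (le_iSup_of_le hx le_rfl))

lemma lt_MM_iff {μ : Measure ℝ} {g : ℝ → ℝ≥0∞} {x : ℝ} {t : ℝ≥0∞} :
    t < MM μ g x ↔ ∃ a b, x ∈ Ioo a b ∧ t < (∫⁻ t in Ioo a b, g t ∂μ) / μ (Ioo a b) := by
  unfold MM
  simp only [lt_iSup_iff, exists_prop]

lemma isOpen_MM (μ : Measure ℝ) (g : ℝ → ℝ≥0∞) (t : ℝ≥0∞) : IsOpen {x | t < MM μ g x} := by
  rw [isOpen_iff_forall_mem_open]
  intro x hx
  obtain ⟨a, b, hab, h⟩ := lt_MM_iff.1 hx
  exact ⟨Ioo a b, fun y hy => lt_MM_iff.2 ⟨a, b, hy, h⟩, isOpen_Ioo, hab⟩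

lemma measurable_MM (μ : Measure ℝ) (g : ℝ → ℝ≥0∞) : Measurable (MM μ g) :=
  measurable_of_Ioi (fun t => (isOpen_MM μ g t).measurableSet)

/-- A finite family of open intervals has a subfamily with the same union and overlap at
most two. -/
lemma exists_subfamily {ι : Type*} (a b : ι → ℝ) (s : Finset ι) :
    ∃ s' ⊆ s, (⋃ i ∈ s, Ioo (a i) (b i)) ⊆ (⋃ i ∈ s', Ioo (a i) (b i)) ∧
      ∀ x, {i ∈ s' | x ∈ Ioo (a i) (b i)}.card ≤ 2 := by
  classical
  induction s using Finset.strongInduction with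
  | H s ih =>
    by_cases h : ∀ x, {i ∈ s | x ∈ Ioo (a i) (b i)}.card ≤ 2
    · exact ⟨s, Finset.Subset.refl s, subset_rfl, h⟩
    · push Not at h
      obtain ⟨x, hx⟩ := h
      set F := {i ∈ s | x ∈ Ioo (a i) (b i)} with hF
      have hFne : F.Nonempty := Finset.card_pos.1 (by omega)
      obtain ⟨i0, hi0, hmin⟩ := Finset.exists_min_image F a hFne
      obtain ⟨j0, hj0, hmax⟩ := Finset.exists_max_image F b hFne
      have hc : ({i0, j0} : Finset ι).card < F.card := lt_of_le_of_lt Finset.card_le_two hx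
      obtain ⟨k, hkF, hk⟩ := Finset.exists_mem_notMem_of_card_lt_card hc
      have hks : k ∈ s := (Finset.mem_filter.1 hkF).1
      have hxk : x ∈ Ioo (a k) (b k) := (Finset.mem_filter.1 hkF).2
      have hxi : x ∈ Ioo (a i0) (b i0) := (Finset.mem_filter.1 hi0).2
      have hxj : x ∈ Ioo (a j0) (b j0) := (Finset.mem_filter.1 hj0).2
      have hik : i0 ≠ k := by rintro rfl; exact hk (by simp)
      have hjk : j0 ≠ k := by rintro rfl; exact hk (by simp)
      obtain ⟨s', hs', hU, hO⟩ := ih (s.erase k) (Finset.erase_ssubset hks)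
      refine ⟨s', hs'.trans (Finset.erase_subset _ _), ?_, hO⟩
      refine subset_trans ?_ hU
      intro t ht
      simp only [mem_iUnion, exists_prop] at ht ⊢
      obtain ⟨i, his, hti⟩ := ht
      by_cases hik' : i = k
      · subst hik'
        rcases le_or_gt t x with htx | htx
        · refine ⟨i0, Finset.mem_erase.2 ⟨hik, (Finset.mem_filter.1 hi0).1⟩, ?_, ?_⟩
          · exact lt_of_le_of_lt (hmin i hkF) hti.1
          · exact lt_of_le_of_lt htx hxi.2
        · refine ⟨j0, Finset.mem_erase.2 ⟨hjk, (Finset.mem_filter.1 hj0).1⟩, ?_, ?_⟩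
          · exact lt_trans hxj.1 htx
          · exact lt_of_lt_of_le hti.2 (hmax i hkF)
      · exact ⟨i, Finset.mem_erase.2 ⟨hik', his⟩, hti⟩

/-- Weak type (1,1) with constant 2, for every locally finite measure on the line. -/
lemma MM_weak (μ : Measure ℝ) [IsLocallyFiniteMeasure μ] {g : ℝ → ℝ≥0∞} (hg : Measurable g)
    (t : ℝ≥0∞) : t * μ {x | t < MM μ g x} ≤ 2 * ∫⁻ x, g x ∂μ := by
  classical
  rw [(isOpen_MM μ g t).measure_eq_iSup_isCompact, ENNReal.mul_iSup]
  refine iSup_le fun K => ?_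
  rw [ENNReal.mul_iSup]
  refine iSup_le fun hKE => ?_
  rw [ENNReal.mul_iSup]
  refine iSup_le fun hK => ?_
  have hch : ∀ x : ℝ, ∃ ab : ℝ × ℝ, x ∈ K → (x ∈ Ioo ab.1 ab.2 ∧
      t < (∫⁻ s in Ioo ab.1 ab.2, g s ∂μ) / μ (Ioo ab.1 ab.2)) := by
    intro x
    by_cases hx : x ∈ K
    · obtain ⟨a, b, h1, h2⟩ := lt_MM_iff.1 (hKE hx)
      exact ⟨(a, b), fun _ => ⟨h1, h2⟩⟩
    · exact ⟨(0, 0), fun h => absurd h hx⟩
  choose ab hab using hch
  obtain ⟨s, hsK, hcov⟩ := hK.elim_nhds_subcover (fun x => Ioo (ab x).1 (ab x).2)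
    (fun x hx => isOpen_Ioo.mem_nhds (hab x hx).1)
  obtain ⟨s', hs', hU, hO⟩ := exists_subfamily (fun x => (ab x).1) (fun x => (ab x).2) s
  have hKs : K ⊆ ⋃ i ∈ s', Ioo (ab i).1 (ab i).2 := hcov.trans hU
  calc t * μ K ≤ t * μ (⋃ i ∈ s', Ioo (ab i).1 (ab i).2) := by gcongr
    _ ≤ t * ∑ i ∈ s', μ (Ioo (ab i).1 (ab i).2) := by
        gcongr
        exact measure_biUnion_finset_le _ _
    _ = ∑ i ∈ s', t * μ (Ioo (ab i).1 (ab i).2) := by rw [Finset.mul_sum]
    _ ≤ ∑ i ∈ s', ∫⁻ x in Ioo (ab i).1 (ab i).2, g x ∂μ := by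
        refine Finset.sum_le_sum (fun i hi => ?_)
        exact ENNReal.mul_le_of_le_div (hab i (hsK i (hs' hi))).2.le
    _ = ∑ i ∈ s', ∫⁻ x, (Ioo (ab i).1 (ab i).2).indicator g x ∂μ := by
        refine Finset.sum_congr rfl (fun i _ => ?_)
        rw [lintegral_indicator measurableSet_Ioo]
    _ = ∫⁻ x, ∑ i ∈ s', (Ioo (ab i).1 (ab i).2).indicator g x ∂μ := by
        rw [lintegral_finsetSum _ (fun i _ => hg.indicator measurableSet_Ioo)]
    _ ≤ ∫⁻ x, 2 * g x ∂μ := by
        refine lintegral_mono (fun x => ?_)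
        have h1 : ∑ i ∈ s', (Ioo (ab i).1 (ab i).2).indicator g x
            = ∑ i ∈ s' with x ∈ Ioo (ab i).1 (ab i).2, g x := by
          rw [Finset.sum_filter]
          refine Finset.sum_congr rfl (fun i _ => ?_)
          rw [indicator_apply]
        simp only
        rw [h1, Finset.sum_const, nsmul_eq_mul]
        gcongr
        have := hO x
        exact_mod_cast this
    _ = 2 * ∫⁻ x, g x ∂μ := lintegral_const_mul _ hg

/-- Layer cake for powers in `[0,∞]`. -/
lemma rpow_eq_lintegral {ρ : ℝ} (hρ : 0 < ρ) (a : ℝ≥0∞) :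
    a ^ ρ = ∫⁻ t in Ioi (0:ℝ), (if ENNReal.ofReal t < a then ENNReal.ofReal (ρ * t ^ (ρ - 1))
      else 0) := by
  have hfin : ∀ r : ℝ, 0 ≤ r → ∫⁻ t in Ioo 0 r, ENNReal.ofReal (ρ * t ^ (ρ - 1))
      = ENNReal.ofReal (r ^ ρ) := by
    intro r hr
    have hint : IntervalIntegrable (fun t : ℝ => ρ * t ^ (ρ - 1)) volume 0 r :=
      (intervalIntegral.intervalIntegrable_rpow' (by linarith)).const_mul ρ
    have h1 : ∫ t in (0:ℝ)..r, ρ * t ^ (ρ - 1) = r ^ ρ := by
      rw [intervalIntegral.integral_const_mul, integral_rpow (Or.inl (by linarith))]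
      have : ρ - 1 + 1 = ρ := by ring
      rw [this, Real.zero_rpow hρ.ne']
      field_simp
      ring
    rw [intervalIntegral.integral_of_le hr, integral_Ioc_eq_integral_Ioo] at h1
    rw [← h1, ofReal_integral_eq_lintegral_ofReal]
    · rw [intervalIntegrable_iff_integrableOn_Ioc_of_le hr] at hint
      exact hint.mono_set Ioo_subset_Ioc_self
    · rw [EventuallyLE, ae_restrict_iff' measurableSet_Ioo]
      exact Eventually.of_forall (fun t ht => by
        have : 0 < t := ht.1
        simp only [Pi.zero_apply]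
        positivity)
  have hset : ∀ r : ℝ, 0 ≤ r → ∫⁻ t in Ioi (0:ℝ), (if ENNReal.ofReal t < ENNReal.ofReal r then
      ENNReal.ofReal (ρ * t ^ (ρ - 1)) else 0) = ENNReal.ofReal (r ^ ρ) := by
    intro r hr
    rw [← hfin r hr, ← lintegral_indicator measurableSet_Ioi, ← lintegral_indicator measurableSet_Ioo]
    refine lintegral_congr (fun t => ?_)
    by_cases h0 : 0 < t
    · rw [indicator_of_mem (show t ∈ Ioi (0:ℝ) from h0)]
      by_cases h1 : t < r
      · rw [indicator_of_mem (show t ∈ Ioo (0:ℝ) r from ⟨h0, h1⟩), if_pos]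
        exact (ENNReal.ofReal_lt_ofReal_iff_of_nonneg h0.le).2 h1
      · rw [indicator_of_notMem (fun h : t ∈ Ioo (0:ℝ) r => h1 h.2), if_neg]
        rw [ENNReal.ofReal_lt_ofReal_iff_of_nonneg h0.le]
        exact h1
    · rw [indicator_of_notMem (fun h : t ∈ Ioi (0:ℝ) => h0 h),
        indicator_of_notMem (fun h : t ∈ Ioo (0:ℝ) r => h0 h.1)]
  induction a using ENNReal.recTopCoe with
  | top =>
    rw [ENNReal.top_rpow_of_pos hρ]
    symm
    refine ENNReal.eq_top_of_forall_nnreal_le (fun r => ?_)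
    have h1 : ENNReal.ofReal (((r:ℝ) + 1) ^ (1/ρ)) ^ ρ ≤ ∫⁻ t in Ioi (0:ℝ),
        (if ENNReal.ofReal t < ⊤ then ENNReal.ofReal (ρ * t ^ (ρ - 1)) else 0) := by
      rw [ENNReal.ofReal_rpow_of_nonneg (by positivity) hρ.le]
      rw [← hset (((r:ℝ) + 1) ^ (1/ρ)) (by positivity)]
      refine lintegral_mono (fun t => ?_)
      dsimp only
      split_ifs with h1 h2 h3
      · exact le_rfl
      · exact absurd ENNReal.ofReal_lt_top h2
      · exact bot_le
      · exact le_rfl
    refine le_trans ?_ h1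
    rw [ENNReal.ofReal_rpow_of_nonneg (by positivity) hρ.le, ← Real.rpow_mul (by positivity)]
    have : 1 / ρ * ρ = 1 := by field_simp
    rw [this, Real.rpow_one]
    rw [← ENNReal.ofReal_coe_nnreal]
    exact ENNReal.ofReal_le_ofReal (by linarith)
  | coe x =>
    rw [← ENNReal.ofReal_coe_nnreal, hset (x:ℝ) x.coe_nonneg,
      ENNReal.ofReal_rpow_of_nonneg x.coe_nonneg hρ.le]

/-- Layer cake for a measurable function. -/
lemma lintegral_rpow_layer {α : Type*} [MeasurableSpace α] (μ : Measure α) [SFinite μ]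
    {F : α → ℝ≥0∞} (hF : Measurable F) {ρ : ℝ} (hρ : 0 < ρ) :
    ∫⁻ x, F x ^ ρ ∂μ = ∫⁻ t in Ioi (0:ℝ), ENNReal.ofReal (ρ * t ^ (ρ - 1)) *
      μ {x | ENNReal.ofReal t < F x} := by
  calc ∫⁻ x, F x ^ ρ ∂μ = ∫⁻ x, (∫⁻ t in Ioi (0:ℝ), (if ENNReal.ofReal t < F x then
        ENNReal.ofReal (ρ * t ^ (ρ - 1)) else 0)) ∂μ :=
        lintegral_congr (fun x => rpow_eq_lintegral hρ _)
    _ = ∫⁻ t in Ioi (0:ℝ), ∫⁻ x, (if ENNReal.ofReal t < F x then
        ENNReal.ofReal (ρ * t ^ (ρ - 1)) else 0) ∂μ := by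
        rw [lintegral_lintegral_swap]
        refine Measurable.aemeasurable ?_
        refine Measurable.ite ?_ ?_ measurable_const
        · exact measurableSet_lt (ENNReal.measurable_ofReal.comp measurable_snd)
            (hF.comp measurable_fst)
        · exact ((measurable_snd.pow_const _).const_mul ρ).ennreal_ofReal
    _ = _ := by
        refine lintegral_congr (fun t => ?_)
        have hm : MeasurableSet {x | ENNReal.ofReal t < F x} :=
          measurableSet_lt measurable_const hF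
        have : ∀ x, (if ENNReal.ofReal t < F x then ENNReal.ofReal (ρ * t ^ (ρ - 1)) else 0)
            = {x | ENNReal.ofReal t < F x}.indicator
              (fun _ => ENNReal.ofReal (ρ * t ^ (ρ - 1))) x := by
          intro x
          rw [indicator_apply]
          rfl
        simp only [this]
        rw [lintegral_indicator_const hm]

/-- The truncation inequality behind the strong type estimate. -/
lemma MM_weak' (μ : Measure ℝ) [IsLocallyFiniteMeasure μ] {g : ℝ → ℝ≥0∞} (hg : Measurable g)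
    {t : ℝ} (ht : 0 < t) : ENNReal.ofReal (t / 2) * μ {x | ENNReal.ofReal t < MM μ g x} ≤
      2 * ∫⁻ x, (if ENNReal.ofReal (t / 2) < g x then g x else 0) ∂μ := by
  set g' : ℝ → ℝ≥0∞ := fun x => if ENNReal.ofReal (t / 2) < g x then g x else 0 with hg'
  have hm : Measurable g' := Measurable.ite (measurableSet_lt measurable_const hg) hg
    measurable_const
  refine le_trans ?_ (MM_weak μ hm (ENNReal.ofReal (t / 2)))
  refine mul_le_mul' le_rfl (measure_mono ?_)
  intro x h
  rw [mem_ofPred_eq, lt_MM_iff] at h ⊢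
  obtain ⟨a, b, hab, h⟩ := h
  refine ⟨a, b, hab, ?_⟩
  set I := Ioo a b with hI
  have h1 : ∫⁻ s in I, g s ∂μ ≤ ∫⁻ s in I, g' s ∂μ + ENNReal.ofReal (t / 2) * μ I := by
    calc ∫⁻ s in I, g s ∂μ ≤ ∫⁻ s in I, (g' s + ENNReal.ofReal (t / 2)) ∂μ := by
          refine lintegral_mono (fun s => ?_)
          simp only [hg']
          split_ifs with h
          · exact le_self_add
          · rw [zero_add]; exact not_lt.1 h
      _ = ∫⁻ s in I, g' s ∂μ + ENNReal.ofReal (t / 2) * μ I := by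
          rw [lintegral_add_right _ measurable_const, setLIntegral_const]
  have hI0 : μ I ≠ 0 := by
    intro h0
    have : ∫⁻ s in I, g s ∂μ = 0 := setLIntegral_measure_zero _ _ h0
    rw [this, ENNReal.zero_div] at h
    exact absurd h (not_lt.2 bot_le)
  have hIt : μ I ≠ ∞ := (measure_Ioo_lt_top).ne
  have h2 : (∫⁻ s in I, g s ∂μ) / μ I ≤ (∫⁻ s in I, g' s ∂μ) / μ I + ENNReal.ofReal (t / 2) := by
    calc (∫⁻ s in I, g s ∂μ) / μ I ≤ (∫⁻ s in I, g' s ∂μ + ENNReal.ofReal (t / 2) * μ I) / μ I := by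
          gcongr
      _ = (∫⁻ s in I, g' s ∂μ) / μ I + ENNReal.ofReal (t / 2) := by
          rw [ENNReal.add_div, ENNReal.mul_div_cancel_right hI0 hIt]
  by_contra hcon
  push Not at hcon
  have h3 : (∫⁻ s in I, g s ∂μ) / μ I ≤ ENNReal.ofReal t := by
    calc _ ≤ (∫⁻ s in I, g' s ∂μ) / μ I + ENNReal.ofReal (t / 2) := h2
      _ ≤ ENNReal.ofReal (t / 2) + ENNReal.ofReal (t / 2) := by gcongr
      _ = ENNReal.ofReal t := by
          rw [← ENNReal.ofReal_add (by positivity) (by positivity)]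
          congr 1; ring
  exact absurd h (not_lt.2 h3)

/-- Strong type estimate for the maximal function, for every locally finite measure. -/
theorem MM_strong {ρ : ℝ} (hρ : 1 < ρ) : ∃ C : ℝ≥0, ∀ (μ : Measure ℝ)
    [IsLocallyFiniteMeasure μ] (g : ℝ → ℝ≥0∞), Measurable g →
      ∫⁻ x, MM μ g x ^ ρ ∂μ ≤ C * ∫⁻ x, g x ^ ρ ∂μ := by
  have hρ0 : 0 < ρ := by linarith
  have hρ1 : 0 < ρ - 1 := by linarith
  refine ⟨(4 * ρ / (ρ - 1) * 2 ^ (ρ - 1)).toNNReal, fun μ _ g hg => ?_⟩
  calc ∫⁻ x, MM μ g x ^ ρ ∂μ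
      = ∫⁻ t in Ioi (0:ℝ), ENNReal.ofReal (ρ * t ^ (ρ - 1)) *
          μ {x | ENNReal.ofReal t < MM μ g x} := lintegral_rpow_layer μ (measurable_MM μ g) hρ0
    _ ≤ ∫⁻ t in Ioi (0:ℝ), ENNReal.ofReal (4 * ρ * t ^ (ρ - 2)) *
          ∫⁻ x, (if ENNReal.ofReal (t / 2) < g x then g x else 0) ∂μ := by
        refine setLIntegral_mono' measurableSet_Ioi (fun t ht => ?_)
        have ht0 : 0 < t := ht
        have h := MM_weak' μ hg ht0
        have e1 : ENNReal.ofReal (ρ * t ^ (ρ - 1)) =
            ENNReal.ofReal (2 * ρ * t ^ (ρ - 2)) * ENNReal.ofReal (t / 2) := by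
          rw [← ENNReal.ofReal_mul (by positivity)]
          congr 1
          have : t ^ (ρ - 1) = t ^ (ρ - 2) * t := by
            rw [← Real.rpow_add_one ht0.ne']; congr 1; ring
          rw [this]; ring
        have e2 : ENNReal.ofReal (4 * ρ * t ^ (ρ - 2)) =
            ENNReal.ofReal (2 * ρ * t ^ (ρ - 2)) * 2 := by
          have : (2:ℝ≥0∞) = ENNReal.ofReal 2 := by norm_num
          rw [this, ← ENNReal.ofReal_mul (by positivity)]
          congr 1; ring
        calc _ = ENNReal.ofReal (2 * ρ * t ^ (ρ - 2)) * (ENNReal.ofReal (t / 2) *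
                μ {x | ENNReal.ofReal t < MM μ g x}) := by rw [e1, mul_assoc]
          _ ≤ ENNReal.ofReal (2 * ρ * t ^ (ρ - 2)) * (2 *
                ∫⁻ x, (if ENNReal.ofReal (t / 2) < g x then g x else 0) ∂μ) :=
                mul_le_mul' le_rfl h
          _ = _ := by rw [e2]; exact (mul_assoc _ _ _).symm
    _ = ∫⁻ t in Ioi (0:ℝ), ∫⁻ x, (if ENNReal.ofReal (t / 2) < g x then
          ENNReal.ofReal (4 * ρ * t ^ (ρ - 2)) * g x else 0) ∂μ := by
        refine lintegral_congr (fun t => ?_)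
        rw [← lintegral_const_mul _ (Measurable.ite (measurableSet_lt measurable_const hg) hg
          measurable_const)]
        refine lintegral_congr (fun x => ?_)
        rw [mul_ite, mul_zero]
    _ = ∫⁻ x, (∫⁻ t in Ioi (0:ℝ), (if ENNReal.ofReal (t / 2) < g x then
          ENNReal.ofReal (4 * ρ * t ^ (ρ - 2)) * g x else 0)) ∂μ := by
        rw [lintegral_lintegral_swap]
        refine Measurable.aemeasurable ?_
        refine Measurable.ite ?_ ?_ measurable_const
        · exact measurableSet_lt (ENNReal.measurable_ofReal.comp (measurable_fst.div_const 2))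
            (hg.comp measurable_snd)
        · exact ((measurable_fst.pow_const _).const_mul (4 * ρ)).ennreal_ofReal.mul
            (hg.comp measurable_snd)
    _ = ∫⁻ x, ENNReal.ofReal (4 * ρ / (ρ - 1) * 2 ^ (ρ - 1)) * g x ^ ρ ∂μ := by
        refine lintegral_congr (fun x => ?_)
        have hi : ∫⁻ t in Ioi (0:ℝ), (if ENNReal.ofReal (t / 2) < g x then
            ENNReal.ofReal (4 * ρ * t ^ (ρ - 2)) * g x else 0)
            = ENNReal.ofReal (4 * ρ / (ρ - 1)) * g x * (2 * g x) ^ (ρ - 1) := by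
          rw [rpow_eq_lintegral hρ1, ← lintegral_const_mul]
          · refine setLIntegral_congr_fun measurableSet_Ioi (fun t ht => ?_)
            have ht0 : 0 < t := ht
            have hiff : ENNReal.ofReal (t / 2) < g x ↔ ENNReal.ofReal t < 2 * g x := by
              have h2 : ENNReal.ofReal t = 2 * ENNReal.ofReal (t / 2) := by
                have : (2:ℝ≥0∞) = ENNReal.ofReal 2 := by norm_num
                rw [this, ← ENNReal.ofReal_mul (by positivity)]
                congr 1; ring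
              rw [h2]
              exact (ENNReal.mul_lt_mul_iff_right (by norm_num) (by norm_num)).symm
            simp only [hiff]
            rw [mul_ite, mul_zero]
            split_ifs with h
            · have : ENNReal.ofReal (4 * ρ * t ^ (ρ - 2)) =
                  ENNReal.ofReal (4 * ρ / (ρ - 1)) * ENNReal.ofReal ((ρ - 1) * t ^ (ρ - 1 - 1)) := by
                rw [← ENNReal.ofReal_mul (by positivity)]
                congr 1
                have e : ρ - 1 - 1 = ρ - 2 := by ring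
                rw [e]
                field_simp
              rw [this]; ring
            · rfl
          · refine Measurable.ite ?_ ?_ measurable_const
            · exact measurableSet_lt ENNReal.measurable_ofReal measurable_const
            · exact ((measurable_id.pow_const _).const_mul (ρ - 1)).ennreal_ofReal
        rw [hi, ENNReal.mul_rpow_of_nonneg _ _ hρ1.le]
        have e3 : g x ^ ρ = g x * g x ^ (ρ - 1) := by
          rcases eq_or_ne (g x) 0 with h0 | h0
          · rw [h0, ENNReal.zero_rpow_of_pos hρ0, zero_mul]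
          · rcases eq_or_ne (g x) ⊤ with h1 | h1
            · rw [h1, ENNReal.top_rpow_of_pos hρ0, ENNReal.top_rpow_of_pos hρ1, ENNReal.top_mul_top]
            · have := ENNReal.rpow_add 1 (ρ - 1) h0 h1
              rw [ENNReal.rpow_one] at this
              rw [← this]; congr 1; ring
        have e4 : (2:ℝ≥0∞) ^ (ρ - 1) = ENNReal.ofReal (2 ^ (ρ - 1)) := by
          have : (2:ℝ≥0∞) = ENNReal.ofReal 2 := by norm_num
          rw [this, ENNReal.ofReal_rpow_of_pos (by norm_num)]
        rw [e3, e4, ENNReal.ofReal_mul (by positivity)]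
        ring
    _ = _ := by
        rw [lintegral_const_mul _ (hg.pow_const ρ)]
        rfl

end Pool.Agent.H779R2.Glam
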