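import Pool.Agent.H779R2.Glam.MaxFn

open MeasureTheory Set Filter
open scoped ENNReal NNReal Topology

namespace Pool.Agent.H779R2.Glam

/-- `A_p` weights in the form used in the proofs: positive, finite, measurable. -/
structure ApW (p : ℝ) (u : ℝ → ℝ≥0∞) (Q : ℝ≥0) : Prop where
  meas : Measurable u
  ne_zero : ∀ x, u x ≠ 0
  ne_top : ∀ x, u x ≠ ∞
  fin : ∀ a b, volume.withDensity u (Ioo a b) < ∞
  ap : ∀ a b : ℝ, a < b → volume.withDensity u (Ioo a b) *
    (volume.withDensity (fun x => u x ^ (-1 / (p - 1))) (Ioo a b)) ^ (p - 1) ≤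
      Q * ENNReal.ofReal (b - a) ^ p

lemma locallyFinite_of_Ioo {μ : Measure ℝ} (h : ∀ a b, μ (Ioo a b) < ∞) :
    IsLocallyFiniteMeasure μ :=
  ⟨fun x => ⟨Ioo (x - 1) (x + 1), Ioo_mem_nhds (by linarith) (by linarith), h _ _⟩⟩

lemma withDensity_Ioo_pos {u : ℝ → ℝ≥0∞} (hu : Measurable u) (h0 : ∀ x, u x ≠ 0) {a b : ℝ}
    (hab : a < b) : volume.withDensity u (Ioo a b) ≠ 0 := by
  rw [withDensity_apply _ measurableSet_Ioo]
  intro h
  rw [lintegral_eq_zero_iff hu] at h
  have h1 : ∀ᵐ x ∂(volume.restrict (Ioo a b)), False := by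
    filter_upwards [h] with x hx
    exact h0 x hx
  have h2 : (volume.restrict (Ioo a b)) {x | ¬ False} = 0 := ae_iff.1 h1
  rw [show {x : ℝ | ¬ False} = univ from by ext; simp] at h2
  rw [Measure.restrict_apply_univ, Real.volume_Ioo, ENNReal.ofReal_eq_zero] at h2
  linarith

namespace ApW

variable {p : ℝ} {u : ℝ → ℝ≥0∞} {Q : ℝ≥0}

/-- the dual weight -/
noncomputable abbrev sg (p : ℝ) (u : ℝ → ℝ≥0∞) : ℝ → ℝ≥0∞ := fun x => u x ^ (-1 / (p - 1))

lemma sg_meas (h : ApW p u Q) : Measurable (sg p u) := h.meas.pow_const _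

lemma sg_ne_zero (h : ApW p u Q) (x : ℝ) : sg p u x ≠ 0 := by
  intro h0
  rcases ENNReal.rpow_eq_zero_iff.1 h0 with h1 | h1
  · exact h.ne_zero x h1.1
  · exact h.ne_top x h1.1

lemma sg_ne_top (h : ApW p u Q) (x : ℝ) : sg p u x ≠ ∞ := by
  intro h0
  rcases ENNReal.rpow_eq_top_iff.1 h0 with h1 | h1
  · exact h.ne_zero x h1.1
  · exact h.ne_top x h1.1

lemma pos (h : ApW p u Q) {a b : ℝ} (hab : a < b) : volume.withDensity u (Ioo a b) ≠ 0 :=
  withDensity_Ioo_pos h.meas h.ne_zero hab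

lemma sg_pos (h : ApW p u Q) {a b : ℝ} (hab : a < b) :
    volume.withDensity (sg p u) (Ioo a b) ≠ 0 :=
  withDensity_Ioo_pos h.sg_meas h.sg_ne_zero hab

lemma sg_fin (h : ApW p u Q) (hp : 1 < p) (a b : ℝ) :
    volume.withDensity (sg p u) (Ioo a b) < ∞ := by
  rcases le_or_gt b a with hba | hab
  · rw [Ioo_eq_empty (not_lt.2 hba), measure_empty]; exact ENNReal.zero_lt_top
  · by_contra hcon
    have htop : volume.withDensity (sg p u) (Ioo a b) = ∞ := top_le_iff.1 (not_lt.1 hcon)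
    have h1 := h.ap a b hab
    rw [show volume.withDensity (fun x => u x ^ (-1 / (p - 1))) (Ioo a b) = ∞ from htop,
      ENNReal.top_rpow_of_pos (by linarith), ENNReal.mul_top (h.pos hab), top_le_iff] at h1
    exact ENNReal.mul_ne_top ENNReal.coe_ne_top
      (ENNReal.rpow_ne_top_of_nonneg (by linarith) ENNReal.ofReal_ne_top) h1

lemma lf (h : ApW p u Q) : IsLocallyFiniteMeasure (volume.withDensity u) :=
  locallyFinite_of_Ioo h.fin

lemma sg_lf (h : ApW p u Q) (hp : 1 < p) : IsLocallyFiniteMeasure (volume.withDensity (sg p u)) :=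
  locallyFinite_of_Ioo (h.sg_fin hp)

/-- Lerner's pointwise estimate. -/
lemma lerner (h : ApW p u Q) (hp : 1 < p) {f : ℝ → ℝ≥0∞} (hf : Measurable f) (x : ℝ) :
    MM volume f x ^ (p - 1) ≤ Q * MM (volume.withDensity u)
      (fun t => MM (volume.withDensity (sg p u)) (fun t => f t / sg p u t) t ^ (p - 1) / u t) x := by
  have hp1 : 0 < p - 1 := by linarith
  set μ := volume.withDensity u with hμ
  set ν := volume.withDensity (sg p u) with hν
  set g : ℝ → ℝ≥0∞ := fun t => f t / sg p u t with hg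
  set G : ℝ → ℝ≥0∞ := fun t => MM ν g t ^ (p - 1) / u t with hG
  have hgm : Measurable g := hf.div h.sg_meas
  have hGm : Measurable G := ((measurable_MM ν g).pow_const _).div h.meas
  -- reduce to a single interval
  have key : ∀ a b : ℝ, x ∈ Ioo a b →
      ((∫⁻ t in Ioo a b, f t) / volume (Ioo a b)) ^ (p - 1) ≤ Q * MM μ G x := by
    intro a b hx
    have hab : a < b := hx.1.trans hx.2
    set I := Ioo a b with hI
    have hvI : volume I = ENNReal.ofReal (b - a) := Real.volume_Ioo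
    have hv0 : volume I ≠ 0 := by
      rw [hvI]; simpa using hab
    have hvt : volume I ≠ ∞ := by rw [hvI]; exact ENNReal.ofReal_ne_top
    have hμ0 : μ I ≠ 0 := h.pos hab
    have hμt : μ I ≠ ∞ := (h.fin a b).ne
    have hν0 : ν I ≠ 0 := h.sg_pos hab
    have hνt : ν I ≠ ∞ := (h.sg_fin hp a b).ne
    set m : ℝ≥0∞ := (∫⁻ t in I, g t ∂ν) / ν I with hm
    have e1 : ∫⁻ t in I, g t ∂ν = ∫⁻ t in I, f t := by
      rw [hν, restrict_withDensity measurableSet_Ioo,
        lintegral_withDensity_eq_lintegral_mul _ h.sg_meas hgm]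
      refine lintegral_congr (fun t => ?_)
      simp only [Pi.mul_apply, hg]
      rw [ENNReal.mul_div_cancel (h.sg_ne_zero t) (h.sg_ne_top t)]
    have e2 : ∫⁻ t in I, G t ∂μ = ∫⁻ t in I, MM ν g t ^ (p - 1) := by
      rw [hμ, restrict_withDensity measurableSet_Ioo,
        lintegral_withDensity_eq_lintegral_mul _ h.meas hGm]
      refine lintegral_congr (fun t => ?_)
      simp only [Pi.mul_apply, hG]
      rw [ENNReal.mul_div_cancel (h.ne_zero t) (h.ne_top t)]
    have e3 : m ^ (p - 1) * volume I ≤ ∫⁻ t in I, G t ∂μ := by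
      rw [e2, ← setLIntegral_const]
      refine setLIntegral_mono' measurableSet_Ioo (fun t ht => ?_)
      exact ENNReal.rpow_le_rpow (le_MM ν g ht) hp1.le
    have hf1 : (∫⁻ t in I, f t) = m * ν I := by
      rw [← e1, hm, ENNReal.div_mul_cancel hν0 hνt]
    have hap : μ I * ν I ^ (p - 1) ≤ Q * volume I ^ p := by
      rw [hvI]; exact h.ap a b hab
    have hvp : volume I ^ (p - 1) ≠ 0 := by
      intro h0
      rcases ENNReal.rpow_eq_zero_iff.1 h0 with h1 | h1
      · exact hv0 h1.1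
      · exact hvt h1.1
    have hvpt : volume I ^ (p - 1) ≠ ∞ := ENNReal.rpow_ne_top_of_nonneg hp1.le hvt
    calc ((∫⁻ t in I, f t) / volume I) ^ (p - 1)
        = (m ^ (p - 1) * ν I ^ (p - 1)) / volume I ^ (p - 1) := by
          rw [hf1, ENNReal.div_rpow_of_nonneg _ _ hp1.le, ENNReal.mul_rpow_of_nonneg _ _ hp1.le]
      _ ≤ Q * ((m ^ (p - 1) * volume I) / μ I) := by
          rw [ENNReal.div_le_iff hvp hvpt]
          rw [mul_comm (Q : ℝ≥0∞), mul_assoc, ← ENNReal.mul_le_mul_iff_right hμ0 hμt]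
          calc μ I * (m ^ (p - 1) * ν I ^ (p - 1)) = m ^ (p - 1) * (μ I * ν I ^ (p - 1)) := by ring
            _ ≤ m ^ (p - 1) * (Q * volume I ^ p) := by gcongr
            _ = m ^ (p - 1) * (Q * (volume I * volume I ^ (p - 1))) := by
                have : volume I ^ p = volume I * volume I ^ (p - 1) := by
                  have := ENNReal.rpow_add 1 (p - 1) hv0 hvt
                  rw [ENNReal.rpow_one] at this
                  rw [← this]; congr 1; ring
                rw [this]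
            _ = μ I * (m ^ (p - 1) * volume I / μ I * (Q * volume I ^ (p - 1))) := by
                rw [← mul_assoc (μ I), ENNReal.mul_div_cancel hμ0 hμt]
                ring
      _ ≤ Q * ((∫⁻ t in I, G t ∂μ) / μ I) := by gcongr
      _ ≤ Q * MM μ G x := by
          gcongr
          exact le_MM μ G hx
  -- pass to the supremum
  have hinv : 0 < 1 / (p - 1) := by positivity
  have h2 : MM volume f x ≤ (Q * MM μ G x) ^ (1 / (p - 1)) := by
    unfold MM
    refine iSup_le fun a => iSup_le fun b => iSup_le fun hx => ?_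
    have h3 := key a b hx
    rw [one_div, ENNReal.le_rpow_inv_iff hp1]
    exact h3
  rw [one_div, ENNReal.le_rpow_inv_iff hp1] at h2
  exact h2

end ApW

/-- Muckenhoupt's theorem (sufficiency) for the uncentred maximal function. -/
theorem muckenhoupt {p : ℝ} (hp : 1 < p) (Q : ℝ≥0) : ∃ C : ℝ≥0, ∀ (u : ℝ → ℝ≥0∞), ApW p u Q →
    ∀ f : ℝ → ℝ≥0∞, Measurable f →
      ∫⁻ x, MM volume f x ^ p ∂(volume.withDensity u) ≤ C * ∫⁻ x, f x ^ p ∂(volume.withDensity u) := by
  have hp1 : 0 < p - 1 := by linarith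
  have hp0 : 0 < p := by linarith
  set p' : ℝ := p / (p - 1) with hp'
  have hp'1 : 1 < p' := by rw [hp', lt_div_iff₀ hp1]; linarith
  have hpp : (p - 1) * p' = p := by rw [hp']; field_simp
  obtain ⟨C1, hC1⟩ := MM_strong hp'1
  obtain ⟨C2, hC2⟩ := MM_strong hp
  refine ⟨Q ^ p' * C1 * C2, fun u h f hf => ?_⟩
  have := h.lf
  have := h.sg_lf hp
  set μ := volume.withDensity u with hμ
  set ν := volume.withDensity (ApW.sg p u) with hν
  set g : ℝ → ℝ≥0∞ := fun t => f t / ApW.sg p u t with hg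
  set G : ℝ → ℝ≥0∞ := fun t => MM ν g t ^ (p - 1) / u t with hG
  have hgm : Measurable g := hf.div h.sg_meas
  have hGm : Measurable G := ((measurable_MM ν g).pow_const _).div h.meas
  have s1 : ∀ x, MM volume f x ^ p ≤ (Q * MM μ G x) ^ p' := by
    intro x
    rw [← hpp, ENNReal.rpow_mul]
    exact ENNReal.rpow_le_rpow (h.lerner hp hf x) (by positivity)
  have s2 : ∫⁻ x, G x ^ p' ∂μ = ∫⁻ x, MM ν g x ^ p ∂ν := by
    rw [hμ, hν, lintegral_withDensity_eq_lintegral_mul _ h.meas (hGm.pow_const _),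
      lintegral_withDensity_eq_lintegral_mul _ h.sg_meas ((measurable_MM _ _).pow_const _)]
    refine lintegral_congr (fun t => ?_)
    simp only [Pi.mul_apply, hG]
    rw [ENNReal.div_rpow_of_nonneg _ _ (by positivity), ← ENNReal.rpow_mul, hpp]
    have h0 := h.ne_zero t
    have ht := h.ne_top t
    rw [ENNReal.div_eq_inv_mul, ← mul_assoc]
    congr 1
    rw [← ENNReal.rpow_neg]
    have := ENNReal.rpow_add 1 (-p') h0 ht
    rw [ENNReal.rpow_one] at this
    rw [← this]
    congr 1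
    rw [hp']
    field_simp
    ring
  have s3 : ∫⁻ x, g x ^ p ∂ν = ∫⁻ x, f x ^ p ∂μ := by
    rw [hμ, hν, lintegral_withDensity_eq_lintegral_mul _ h.meas (hf.pow_const _),
      lintegral_withDensity_eq_lintegral_mul _ h.sg_meas (hgm.pow_const _)]
    refine lintegral_congr (fun t => ?_)
    simp only [Pi.mul_apply, hg]
    rw [ENNReal.div_rpow_of_nonneg _ _ hp0.le, ← ENNReal.rpow_mul]
    have h0 := h.ne_zero t
    have ht := h.ne_top t
    rw [ENNReal.div_eq_inv_mul, ← mul_assoc]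
    congr 1
    rw [← ENNReal.rpow_neg, ← ENNReal.rpow_add _ _ h0 ht]
    have : -1 / (p - 1) + -(-1 / (p - 1) * p) = 1 := by field_simp; ring
    rw [this, ENNReal.rpow_one]
  calc ∫⁻ x, MM volume f x ^ p ∂μ ≤ ∫⁻ x, (Q * MM μ G x) ^ p' ∂μ := lintegral_mono s1
    _ = (Q : ℝ≥0∞) ^ p' * ∫⁻ x, MM μ G x ^ p' ∂μ := by
        rw [← lintegral_const_mul _ ((measurable_MM _ _).pow_const _)]
        refine lintegral_congr (fun x => ?_)
        rw [ENNReal.mul_rpow_of_nonneg _ _ (by positivity)]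
    _ ≤ (Q : ℝ≥0∞) ^ p' * (C1 * ∫⁻ x, G x ^ p' ∂μ) := by gcongr; exact hC1 μ G hGm
    _ = (Q : ℝ≥0∞) ^ p' * (C1 * ∫⁻ x, MM ν g x ^ p ∂ν) := by rw [s2]
    _ ≤ (Q : ℝ≥0∞) ^ p' * (C1 * (C2 * ∫⁻ x, g x ^ p ∂ν)) := by gcongr; exact hC2 ν g hgm
    _ = _ := by
        rw [s3]
        push_cast
        rw [ENNReal.coe_rpow_of_nonneg _ (by positivity)]
        ring

/-- The half-power averages control the averages of an `A_p` weight. -/
lemma ApW.half {p : ℝ} (hp : 1 < p) {u : ℝ → ℝ≥0∞} {Q : ℝ≥0} (h : ApW p u Q) {a b : ℝ}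
    (hab : a < b) : volume.withDensity u (Ioo a b) * ENNReal.ofReal (b - a) ≤
      Q * (∫⁻ x in Ioo a b, u x ^ (1 / 2 : ℝ)) ^ (2:ℝ) := by
  have hp1 : 0 < p - 1 := by linarith
  set I := Ioo a b with hI
  have hvI : volume I = ENNReal.ofReal (b - a) := Real.volume_Ioo
  have hv0 : volume I ≠ 0 := by
    rw [hvI]; simpa using hab
  have hvt : volume I ≠ ∞ := by rw [hvI]; exact ENNReal.ofReal_ne_top
  have hconj : ((p + 1) / 2).HolderConjugate ((p + 1) / (p - 1)) := by
    rw [Real.holderConjugate_iff]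
    constructor
    · linarith
    · field_simp; ring
  have hH := ENNReal.lintegral_mul_le_Lp_mul_Lq (volume.restrict I) hconj
    (f := fun x => u x ^ (1 / (p + 1))) (g := fun x => u x ^ (-1 / (p + 1)))
    (h.meas.pow_const _).aemeasurable (h.meas.pow_const _).aemeasurable
  have e1 : ∫⁻ x in I, ((fun x => u x ^ (1 / (p + 1))) * fun x => u x ^ (-1 / (p + 1))) x
      = volume I := by
    have : ∀ x, ((fun x => u x ^ (1 / (p + 1))) * fun x => u x ^ (-1 / (p + 1))) x = 1 := by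
      intro x
      simp only [Pi.mul_apply]
      rw [← ENNReal.rpow_add _ _ (h.ne_zero x) (h.ne_top x)]
      have : 1 / (p + 1) + -1 / (p + 1) = 0 := by ring
      rw [this, ENNReal.rpow_zero]
    simp only [this]
    rw [setLIntegral_const, one_mul]
  have e2 : ∀ x, (u x ^ (1 / (p + 1))) ^ ((p + 1) / 2) = u x ^ (1 / 2 : ℝ) := by
    intro x
    rw [← ENNReal.rpow_mul]
    congr 1; field_simp
  have e3 : ∀ x, (u x ^ (-1 / (p + 1))) ^ ((p + 1) / (p - 1)) = u x ^ (-1 / (p - 1)) := by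
    intro x
    rw [← ENNReal.rpow_mul]
    congr 1; field_simp
  rw [e1] at hH
  simp only [e2, e3] at hH
  set A := ∫⁻ x in I, u x ^ (1 / 2 : ℝ) with hA
  have eS : ∫⁻ x in I, u x ^ (-1 / (p - 1)) = volume.withDensity (fun x => u x ^ (-1 / (p - 1))) I := by
    rw [withDensity_apply _ measurableSet_Ioo]
  rw [eS] at hH
  set S := volume.withDensity (fun x => u x ^ (-1 / (p - 1))) I with hS
  -- raise to the power p + 1
  have h2 : volume I ^ (p + 1) ≤ A ^ (2:ℝ) * S ^ (p - 1) := by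
    have := ENNReal.rpow_le_rpow hH (by linarith : (0:ℝ) ≤ p + 1)
    rw [ENNReal.mul_rpow_of_nonneg _ _ (by linarith), ← ENNReal.rpow_mul, ← ENNReal.rpow_mul] at this
    have q1 : 1 / ((p + 1) / 2) * (p + 1) = 2 := by field_simp
    have q2 : 1 / ((p + 1) / (p - 1)) * (p + 1) = p - 1 := by field_simp
    rw [q1, q2] at this
    exact this
  have h3 : volume I ^ p * (volume.withDensity u I * volume I) ≤ volume I ^ p * (Q * A ^ (2:ℝ)) := by
    calc volume I ^ p * (volume.withDensity u I * volume I)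
        = volume.withDensity u I * volume I ^ (p + 1) := by
          rw [ENNReal.rpow_add _ _ hv0 hvt, ENNReal.rpow_one]; ring
      _ ≤ volume.withDensity u I * (A ^ (2:ℝ) * S ^ (p - 1)) := by gcongr
      _ = A ^ (2:ℝ) * (volume.withDensity u I * S ^ (p - 1)) := by ring
      _ ≤ A ^ (2:ℝ) * (Q * volume I ^ p) := by
          refine mul_le_mul' le_rfl ?_
          rw [hvI]
          exact h.ap a b hab
      _ = _ := by ring
  have hvp : volume I ^ p ≠ 0 := by
    intro h0
    rcases ENNReal.rpow_eq_zero_iff.1 h0 with h1 | h1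
    · exact hv0 h1.1
    · exact hvt h1.1
  have hvpt : volume I ^ p ≠ ∞ := ENNReal.rpow_ne_top_of_nonneg (by linarith) hvt
  rw [ENNReal.mul_le_mul_iff_right hvp hvpt] at h3
  rw [← hvI]
  exact h3

end Pool.Agent.H779R2.Glam
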