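import Pool.Agent.H779R2.Glam.Final2

open MeasureTheory Set Filter
open scoped ENNReal NNReal Topology

namespace Pool.Agent.H779R2.Glam

/-- Lower bound for the gradient of the Poisson integral away from the support. -/
lemma grad_lower {f : ℝ → ℝ} (hf : Measurable f) (hf0 : ∀ t, 0 ≤ f t) {a b : ℝ} (hab : a < b)
    (hsupp : ∀ t, t ∉ Ioo a b → f t = 0) (hint : Integrable f) {z y : ℝ}
    (hz : b + (b - a) < z) (hz2 : z < b + 2 * (b - a)) (hy : 0 < y) (hy2 : y < (b - a) / 4) :
    (∫ t, f t) / (968 * (b - a) ^ 2) ≤ ‖deriv (cauchyF f) ⟨z, y⟩‖ := by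
  set l := b - a with hl
  have hl0 : 0 < l := by linarith
  have hfi : Integrable (fun t => f t / (1 + t ^ 2)) := by
    refine hint.mono' (hf.div (by fun_prop : Measurable (fun t : ℝ => 1 + t ^ 2))).aestronglyMeasurable
      (Eventually.of_forall (fun t => ?_))
    rw [norm_div, Real.norm_of_nonneg (hf0 t), Real.norm_of_nonneg (by positivity : (0:ℝ) ≤ 1 + t ^ 2)]
    exact div_le_self (hf0 t) (by nlinarith [sq_nonneg t])
  have hd := hasDerivAt_cauchyF hf hfi (w := ⟨z, y⟩) hy
  rw [hd.deriv]
  have hre : ∀ t, ((f t : ℂ) * (((t:ℂ) - ⟨z, y⟩) ^ 2)⁻¹).re =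
      f t * (((t - z) ^ 2 - y ^ 2) / ((t - z) ^ 2 + y ^ 2) ^ 2) := by
    intro t
    rw [Complex.re_ofReal_mul, Complex.inv_re, map_pow, Complex.normSq_apply]
    simp only [pow_two, Complex.mul_re, Complex.sub_re, Complex.ofReal_re, Complex.sub_im,
      Complex.ofReal_im]
    congr 2 <;> ring
  have hmeas : Measurable (fun t : ℝ => (f t : ℂ) * (((t:ℂ) - ⟨z, y⟩) ^ 2)⁻¹) :=
    (Complex.measurable_ofReal.comp hf).mul
      ((Complex.measurable_ofReal.sub_const (⟨z, y⟩ : ℂ)).pow_const 2).inv
  have hI : Integrable (fun t : ℝ => (f t : ℂ) * (((t:ℂ) - ⟨z, y⟩) ^ 2)⁻¹) := by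
    refine (hint.mul_const ((y ^ 2)⁻¹)).mono' hmeas.aestronglyMeasurable
      (Eventually.of_forall (fun t => ?_))
    rw [norm_mul, Complex.norm_real, Real.norm_of_nonneg (hf0 t), norm_inv, norm_pow]
    apply mul_le_mul_of_nonneg_left _ (hf0 t)
    apply inv_anti₀ (by positivity)
    exact pow_le_pow_left₀ hy.le (norm_sub_ge (w := ⟨z, y⟩) t) 2
  have hle : (∫ t, f t) * (1 / (242 * l ^ 2)) ≤
      (∫ t : ℝ, (f t : ℂ) * (((t:ℂ) - ⟨z, y⟩) ^ 2)⁻¹).re := by
    have h1 := Complex.reCLM.integral_comp_comm hI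
    simp only [Complex.reCLM_apply] at h1
    rw [← h1, ← integral_mul_const]
    refine integral_mono (hint.mul_const _) hI.re (fun t => ?_)
    simp only
    have h1' : RCLike.re ((f t : ℂ) * (((t:ℂ) - ⟨z, y⟩) ^ 2)⁻¹) =
      ((f t : ℂ) * (((t:ℂ) - ⟨z, y⟩) ^ 2)⁻¹).re := rfl
    rw [hre t]
    by_cases ht : t ∈ Ioo a b
    · apply mul_le_mul_of_nonneg_left _ (hf0 t)
      have h2 : l ≤ z - t := by linarith [ht.2]
      have h3 : z - t ≤ 3 * l := by linarith [ht.1]
      have h4 : l ^ 2 ≤ (t - z) ^ 2 := by nlinarith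
      have h5 : (t - z) ^ 2 ≤ 9 * l ^ 2 := by nlinarith
      have h6 : y ^ 2 ≤ l ^ 2 / 16 := by nlinarith
      have h7 : 0 < (t - z) ^ 2 + y ^ 2 := by positivity
      have h8 : ((t - z) ^ 2 + y ^ 2) ^ 2 ≤ (10 * l ^ 2) ^ 2 := by
        apply pow_le_pow_left₀ h7.le
        linarith
      rw [div_le_div_iff₀ (by positivity) (by positivity), one_mul]
      have h9 : l ^ 2 / 2 ≤ (t - z) ^ 2 - y ^ 2 := by linarith
      calc ((t - z) ^ 2 + y ^ 2) ^ 2 ≤ (10 * l ^ 2) ^ 2 := h8
        _ ≤ l ^ 2 / 2 * (242 * l ^ 2) := by nlinarith [pow_pos hl0 4]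
        _ ≤ ((t - z) ^ 2 - y ^ 2) * (242 * l ^ 2) := by
            apply mul_le_mul_of_nonneg_right h9 (by positivity)
    · rw [hsupp t ht]; simp
  have hm0 : 0 ≤ ∫ t, f t := integral_nonneg hf0
  calc (∫ t, f t) / (968 * l ^ 2) = (1 / 4) * ((∫ t, f t) * (1 / (242 * l ^ 2))) := by
        field_simp; ring
    _ ≤ (1 / Real.pi) * ((∫ t, f t) * (1 / (242 * l ^ 2))) := by
        apply mul_le_mul_of_nonneg_right _ (by positivity)
        exact one_div_le_one_div_of_le Real.pi_pos Real.pi_le_four
    _ ≤ (1 / Real.pi) * (∫ t : ℝ, (f t : ℂ) * (((t:ℂ) - ⟨z, y⟩) ^ 2)⁻¹).re := by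
        apply mul_le_mul_of_nonneg_left hle
        have := Real.pi_pos
        positivity
    _ = (((1 / Real.pi : ℝ) : ℂ) * ∫ t : ℝ, (f t : ℂ) * (((t:ℂ) - ⟨z, y⟩) ^ 2)⁻¹).re := by
        rw [Complex.re_ofReal_mul]
    _ ≤ _ := (le_abs_self _).trans (Complex.abs_re_le_norm _)

/-- The constant in the lower bound for `g_λ^*`. -/
noncomputable def cl (lam : ℝ) : ℝ := (1 / 24) ^ lam / (8 * 968 ^ 2)

lemma cl_pos (lam : ℝ) : 0 < cl lam := by unfold cl; positivity

/-- Lower bound for the square of `g_λ^*`. -/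
lemma gsq_lower {lam : ℝ} (hlam : 0 < lam) {f : ℝ → ℝ} (hf : Measurable f) (hf0 : ∀ t, 0 ≤ f t)
    {a b : ℝ} (hab : a < b) (hsupp : ∀ t, t ∉ Ioo a b → f t = 0) (hint : Integrable f) (x : ℝ) :
    ENNReal.ofReal (cl lam * ((∫ t, f t) / (b - a)) ^ 2 *
      ((b - a) / (|x - (a + b) / 2| + (b - a))) ^ lam) ≤ gsq lam f x := by
  set l := b - a with hl
  have hl0 : 0 < l := by linarith
  set m := ∫ t, f t with hm
  have hm0 : 0 ≤ m := integral_nonneg hf0
  set B : Set (ℝ × ℝ) := Ioo (b + l) (b + 2 * l) ×ˢ Ioo (l / 8) (l / 4) with hB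
  have hBm : MeasurableSet B := measurableSet_Ioo.prod measurableSet_Ioo
  have hBU : B ⊆ UH := fun q hq => lt_trans (by positivity : (0:ℝ) < l / 8) hq.2.1
  have hvol : volume B = ENNReal.ofReal (l * (l / 8)) := by
    rw [hB, Measure.volume_eq_prod, Measure.prod_prod, Real.volume_Ioo, Real.volume_Ioo,
      ← ENNReal.ofReal_mul (by linarith)]
    congr 1; ring
  set R : ℝ := l / (|x - (a + b) / 2| + l) with hR
  have hR0 : 0 < R := by positivity
  calc ENNReal.ofReal (cl lam * (m / l) ^ 2 * R ^ lam)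
      = ENNReal.ofReal ((1 / 24 * R) ^ lam * (m / (968 * l ^ 2)) ^ 2) * volume B := by
        rw [hvol, ← ENNReal.ofReal_mul (by positivity)]
        congr 1
        rw [Real.mul_rpow (by norm_num) hR0.le]
        unfold cl
        field_simp
    _ = ∫⁻ q in B, ENNReal.ofReal ((1 / 24 * R) ^ lam * (m / (968 * l ^ 2)) ^ 2) := by
        rw [setLIntegral_const]
    _ ≤ ∫⁻ q in B, ENNReal.ofReal ((q.2 / (|x - q.1| + q.2)) ^ lam * DD f q) := by
        refine setLIntegral_mono' hBm (fun q hq => ?_)
        refine ENNReal.ofReal_le_ofReal ?_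
        have hz1 := hq.1.1
        have hz2 := hq.1.2
        have hy1 := hq.2.1
        have hy2 := hq.2.2
        have hq0 : 0 < q.2 := lt_trans (by positivity) hy1
        have hg := grad_lower hf hf0 hab hsupp hint (z := q.1) (y := q.2) hz1 hz2 hq0 hy2
        rw [DD_of_mem f (hBU hq)]
        apply mul_le_mul _ _ (by positivity) (by positivity)
        · apply Real.rpow_le_rpow (by positivity) _ hlam.le
          rw [hR, mul_div_assoc', div_le_div_iff₀ (by positivity) (by positivity)]
          have h1 : |x - q.1| ≤ |x - (a + b) / 2| + 5 / 2 * l := by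
            have h2 : |x - q.1| ≤ |x - (a + b) / 2| + |(a + b) / 2 - q.1| := abs_sub_le _ _ _
            have h3 : |(a + b) / 2 - q.1| ≤ 5 / 2 * l := by
              rw [abs_le]; constructor <;> linarith
            linarith
          have h4 : 0 ≤ |x - (a + b) / 2| := abs_nonneg _
          have h5 : |x - q.1| + q.2 ≤ 3 * (|x - (a + b) / 2| + l) := by linarith
          have h6 : 0 < |x - (a + b) / 2| + l := by linarith
          calc 1 / 24 * l * (|x - q.1| + q.2) ≤ 1 / 24 * l * (3 * (|x - (a + b) / 2| + l)) :=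
                mul_le_mul_of_nonneg_left h5 (by positivity)
            _ = (l / 8) * (|x - (a + b) / 2| + l) := by ring
            _ ≤ q.2 * (|x - (a + b) / 2| + l) := mul_le_mul_of_nonneg_right hy1.le h6.le
        · exact pow_le_pow_left₀ (by positivity) hg 2
    _ ≤ gsq lam f x := lintegral_mono_set hBU

/-- The lower bound for `g_λ^*` to the power `p`. -/
lemma gStar_lower {lam p : ℝ} (hlam : 0 < lam) (hp : 0 < p) {f : ℝ → ℝ} (hf : Measurable f)
    (hf0 : ∀ t, 0 ≤ f t) {a b : ℝ} (hab : a < b) (hsupp : ∀ t, t ∉ Ioo a b → f t = 0)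
    (hint : Integrable f) (x : ℝ) :
    ENNReal.ofReal (cl lam ^ (p / 2) * ((∫ t, f t) / (b - a)) ^ p *
      ((b - a) / (|x - (a + b) / 2| + (b - a))) ^ (lam * p / 2)) ≤ gStar lam f x ^ p := by
  have hfi : Integrable (fun t => f t / (1 + t ^ 2)) := by
    refine hint.mono' (hf.div (by fun_prop : Measurable (fun t : ℝ => 1 + t ^ 2))).aestronglyMeasurable
      (Eventually.of_forall (fun t => ?_))
    rw [norm_div, Real.norm_of_nonneg (hf0 t), Real.norm_of_nonneg (by positivity : (0:ℝ) ≤ 1 + t ^ 2)]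
    exact div_le_self (hf0 t) (by nlinarith [sq_nonneg t])
  rw [gStar_eq hf hfi, ← ENNReal.rpow_mul]
  have : 1 / 2 * p = p / 2 := by ring
  rw [this]
  have hl0 : 0 < b - a := by linarith
  have hm0 : 0 ≤ ∫ t, f t := integral_nonneg hf0
  have hR0 : 0 < (b - a) / (|x - (a + b) / 2| + (b - a)) := by positivity
  have hc := cl_pos lam
  have h := ENNReal.rpow_le_rpow (gsq_lower hlam hf hf0 hab hsupp hint x)
    (by positivity : 0 ≤ p / 2)
  refine le_trans (le_of_eq ?_) h
  rw [ENNReal.ofReal_rpow_of_nonneg (by positivity) (by positivity)]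
  congr 1
  rw [Real.mul_rpow (by positivity) (by positivity), Real.mul_rpow (by positivity) (by positivity),
    ← Real.rpow_natCast ((∫ t, f t) / (b - a)) 2, ← Real.rpow_mul (by positivity),
    ← Real.rpow_mul hR0.le]
  congr 2
  · congr 1
    push_cast
    ring
  · ring

/-- `(∗)` implies `B_(lam p/2)`. -/
theorem memB_of_star {lam p : ℝ} (hlam : 1 < lam) (hp1 : 2 / lam < p) {U : ℝ → ℝ}
    (hU : IsWeight U) (hS : Star lam p U) : MemB (lam * p / 2) U := by
  obtain ⟨C, hC⟩ := hS
  have hl0 : 0 < lam := by linarith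
  have hp0 : 0 < p := lt_trans (by positivity) hp1
  set r := lam * p / 2 with hr
  have hr0 : 0 < r := by positivity
  set c : ℝ := cl lam ^ (p / 2) with hc
  have hc0 : 0 < c := by rw [hc]; exact Real.rpow_pos_of_pos (cl_pos lam) _
  refine ⟨(2 ^ r / c).toNNReal * C, fun x0 l hl => ?_⟩
  set I := Ioo (x0 - l / 2) (x0 + l / 2) with hI
  set f : ℝ → ℝ := I.indicator (fun _ => 1) with hf
  have hfm : Measurable f := measurable_const.indicator measurableSet_Ioo
  have hf0 : ∀ t, 0 ≤ f t := fun t => indicator_nonneg (fun _ _ => zero_le_one) t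
  have hvol : volume I ≠ ∞ := by rw [Real.volume_Ioo]; exact ENNReal.ofReal_ne_top
  have hint : Integrable f := (integrable_indicator_iff measurableSet_Ioo).2
    (integrableOn_const hvol)
  have hsupp : ∀ t, t ∉ I → f t = 0 := fun t ht => indicator_of_notMem ht _
  have hm : ∫ t, f t = l := by
    rw [hf, integral_indicator measurableSet_Ioo, setIntegral_const, Measure.real, Real.volume_Ioo,
      ENNReal.toReal_ofReal (by linarith), smul_eq_mul]
    ring
  have hRHS : ∫⁻ x, ENNReal.ofReal (|f x| ^ p * U x) = ∫⁻ x in I, ENNReal.ofReal (U x) := by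
    rw [← lintegral_indicator measurableSet_Ioo]
    refine lintegral_congr (fun x => ?_)
    by_cases hx : x ∈ I
    · rw [indicator_of_mem hx, hf, indicator_of_mem hx]; simp
    · rw [indicator_of_notMem hx, hsupp x hx, abs_zero, Real.zero_rpow hp0.ne', zero_mul,
        ENNReal.ofReal_zero]
  have hfin : ∫⁻ x in I, ENNReal.ofReal (U x) < ∞ := by
    have := hU.fin (x0 - l / 2) (x0 + l / 2)
    rwa [wMeas, withDensity_apply _ measurableSet_Ioo] at this
  have h := hC f hfm.aestronglyMeasurable (by rw [hRHS]; exact hfin)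
  rw [hRHS] at h
  have hlow : ∀ x, ENNReal.ofReal (c * (l / (|x - x0| + l)) ^ r) ≤ gStar lam f x ^ p := by
    intro x
    have h1 := gStar_lower hl0 hp0 hfm hf0 (by linarith : x0 - l / 2 < x0 + l / 2) hsupp hint x
    rw [hm] at h1
    have e1 : x0 + l / 2 - (x0 - l / 2) = l := by ring
    have e2 : (x0 - l / 2 + (x0 + l / 2)) / 2 = x0 := by ring
    rw [e1, e2, div_self hl.ne', Real.one_rpow, mul_one] at h1
    exact h1
  calc ∫⁻ x, ENNReal.ofReal (l ^ (r - 1) * U x / (l ^ r + |x - x0| ^ r))
      ≤ ∫⁻ x, ENNReal.ofReal (2 ^ r / c / l) * (gStar lam f x ^ p * ENNReal.ofReal (U x)) := by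
        refine lintegral_mono (fun x => ?_)
        simp only
        have hU0 := hU.1 x
        calc ENNReal.ofReal (l ^ (r - 1) * U x / (l ^ r + |x - x0| ^ r))
            ≤ ENNReal.ofReal (2 ^ r / c / l) * (ENNReal.ofReal (c * (l / (|x - x0| + l)) ^ r) *
                ENNReal.ofReal (U x)) := by
              rw [← ENNReal.ofReal_mul (by positivity), ← ENNReal.ofReal_mul (by positivity)]
              refine ENNReal.ofReal_le_ofReal ?_
              have e1 : 2 ^ r / c / l * (c * (l / (|x - x0| + l)) ^ r * U x) =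
                  (2 ^ r * (l ^ r / (|x - x0| + l) ^ r) / l) * U x := by
                rw [Real.div_rpow hl.le (by positivity)]
                field_simp
              have e2 : l ^ (r - 1) * U x / (l ^ r + |x - x0| ^ r) =
                  (l ^ r / (l ^ r + |x - x0| ^ r) / l) * U x := by
                rw [Real.rpow_sub hl, Real.rpow_one]; field_simp
              rw [e1, e2]
              apply mul_le_mul_of_nonneg_right _ hU0
              apply div_le_div_of_nonneg_right _ hl.le
              set d := |x - x0| with hd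
              have hd0 : 0 ≤ d := abs_nonneg _
              have h3 : (d + l) ^ r ≤ 2 ^ r * (l ^ r + d ^ r) := by
                have hlr : 0 ≤ l ^ r := by positivity
                have hdr : 0 ≤ d ^ r := by positivity
                rcases le_total d l with hdl | hdl
                · calc (d + l) ^ r ≤ (2 * l) ^ r :=
                        Real.rpow_le_rpow (by positivity) (by linarith) hr0.le
                    _ = 2 ^ r * l ^ r := Real.mul_rpow (by norm_num) hl.le
                    _ ≤ _ := by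
                        apply mul_le_mul_of_nonneg_left _ (by positivity)
                        linarith
                · calc (d + l) ^ r ≤ (2 * d) ^ r :=
                        Real.rpow_le_rpow (by positivity) (by linarith) hr0.le
                    _ = 2 ^ r * d ^ r := Real.mul_rpow (by norm_num) hd0
                    _ ≤ _ := by
                        apply mul_le_mul_of_nonneg_left _ (by positivity)
                        linarith
              rw [mul_div_assoc', div_le_div_iff₀ (by positivity) (by positivity)]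
              calc l ^ r * (d + l) ^ r ≤ l ^ r * (2 ^ r * (l ^ r + d ^ r)) :=
                    mul_le_mul_of_nonneg_left h3 (by positivity)
                _ = _ := by ring
          _ ≤ _ := by
              refine mul_le_mul' le_rfl (mul_le_mul' (hlow x) le_rfl)
    _ = ENNReal.ofReal (2 ^ r / c / l) * ∫⁻ x, gStar lam f x ^ p * ENNReal.ofReal (U x) := by
        rw [lintegral_const_mul' _ _ ENNReal.ofReal_ne_top]
    _ ≤ ENNReal.ofReal (2 ^ r / c / l) * (C * ∫⁻ x in I, ENNReal.ofReal (U x)) := by gcongr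
    _ = _ := by
        rw [ENNReal.ofReal_div_of_pos hl]
        push_cast
        have : (((2 ^ r / c).toNNReal : ℝ≥0) : ℝ≥0∞) = ENNReal.ofReal (2 ^ r / c) := rfl
        rw [this]
        rw [ENNReal.div_eq_inv_mul, ENNReal.div_eq_inv_mul]
        ring

/-- `(∗)` implies `A_p`. -/
theorem memA_of_star {lam p : ℝ} (hlam : 1 < lam) (hp : 1 < p) {U : ℝ → ℝ}
    (hU : IsWeight U) (hS : Star lam p U) : MemA p U := by
  obtain ⟨C, hC⟩ := hS
  have hl0 : 0 < lam := by linarith
  have hp0 : 0 < p := by linarith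
  have hp1 : 0 < p - 1 := by linarith
  set r := lam * p / 2 with hr
  have hr0 : 0 < r := by positivity
  set c : ℝ := cl lam ^ (p / 2) * (1 / 2) ^ r with hc
  have hc0 : 0 < c := by
    rw [hc]
    have := Real.rpow_pos_of_pos (cl_pos lam) (p / 2)
    positivity
  have hUm : AEMeasurable U volume := hU.2.aestronglyMeasurable.aemeasurable
  set U' : ℝ → ℝ := fun x => max (hUm.mk U x) 0 with hU'
  have hU'm : Measurable U' := hUm.measurable_mk.max measurable_const
  have hU'0 : ∀ x, 0 ≤ U' x := fun x => le_max_right _ _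
  have hUU' : U =ᵐ[volume] U' := by
    filter_upwards [hUm.ae_eq_mk] with x hx
    simp only [hU']
    rw [← hx, max_eq_left (hU.1 x)]
  refine ⟨(1 / c).toNNReal * C, fun a b hab => ?_⟩
  set l := b - a with hl
  have hlp : 0 < l := by linarith
  set L := ENNReal.ofReal l with hL
  have hLt : L ≠ ∞ := ENNReal.ofReal_ne_top
  have hL0 : L ≠ 0 := by rw [hL]; simpa using hlp
  set I := Ioo a b with hI
  have hIm : MeasurableSet I := measurableSet_Ioo
  set m : ℝ≥0∞ := ∫⁻ x in I, ENNReal.ofReal (U x) with hm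
  have hmt : m ≠ ∞ := by
    have := hU.fin a b
    rw [wMeas, withDensity_apply _ measurableSet_Ioo] at this
    exact this.ne
  set e : ℝ := -1 / (p - 1) with he
  have he0 : e < 0 := div_neg_of_neg_of_pos (by norm_num) hp1
  set S : ℕ → ℝ≥0∞ := fun n => ∫⁻ x in I, ENNReal.ofReal (U' x + 1 / ((n:ℝ) + 1)) ^ e with hSn
  -- the estimate for fixed n
  have key : ∀ n, m * S n ^ (p - 1) ≤ (ENNReal.ofReal (1 / c) * C) * L ^ p := by
    intro n
    set ε : ℝ := 1 / ((n:ℝ) + 1) with hε
    have hε0 : 0 < ε := by positivity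
    set f : ℝ → ℝ := I.indicator (fun x => (U' x + ε) ^ e) with hf
    have hfm : Measurable f := ((hU'm.add_const ε).pow_const e).indicator hIm
    have hf0 : ∀ t, 0 ≤ f t := fun t => indicator_nonneg
      (fun x _ => Real.rpow_nonneg (by have := hU'0 x; linarith) _) t
    have hvol : volume I ≠ ∞ := by rw [Real.volume_Ioo]; exact ENNReal.ofReal_ne_top
    have hsupp : ∀ t, t ∉ I → f t = 0 := fun t ht => indicator_of_notMem ht _
    have hfb : ∀ t, f t ≤ ε ^ e := by
      intro t
      by_cases ht : t ∈ I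
      · rw [hf, indicator_of_mem ht]
        exact Real.rpow_le_rpow_of_nonpos hε0 (by have := hU'0 t; linarith) he0.le
      · rw [hsupp t ht]; positivity
    have hint : Integrable f := by
      rw [hf, integrable_indicator_iff hIm]
      refine Measure.integrableOn_of_bounded (M := ε ^ e) hvol
        ((hU'm.add_const ε).pow_const e).aestronglyMeasurable (Eventually.of_forall (fun x => ?_))
      have h1 : 0 < U' x + ε := by have := hU'0 x; linarith
      rw [Real.norm_of_nonneg (by positivity)]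
      exact Real.rpow_le_rpow_of_nonpos hε0 (by have := hU'0 x; linarith) he0.le
    set mm := ∫ t, f t with hmm
    have hmS : ENNReal.ofReal mm = S n := by
      rw [hmm, ofReal_integral_eq_lintegral_ofReal hint (Eventually.of_forall hf0), hSn]
      simp only
      rw [← lintegral_indicator hIm]
      refine lintegral_congr (fun x => ?_)
      by_cases hx : x ∈ I
      · rw [indicator_of_mem hx, hf, indicator_of_mem hx]
        exact (ENNReal.ofReal_rpow_of_pos (by have := hU'0 x; linarith)).symm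
      · rw [indicator_of_notMem hx, hsupp x hx, ENNReal.ofReal_zero]
    have hmm0 : 0 < mm := by
      rw [hmm, integral_pos_iff_support_of_nonneg hf0 hint]
      have hsub : I ⊆ Function.support f := by
        intro x hx
        rw [Function.mem_support, hf, indicator_of_mem hx]
        have : 0 < U' x + ε := by have := hU'0 x; linarith
        positivity
      refine lt_of_lt_of_le ?_ (measure_mono hsub)
      rw [Real.volume_Ioo]
      simpa using hab
    have hRHS : ∫⁻ x, ENNReal.ofReal (|f x| ^ p * U x) ≤ ENNReal.ofReal mm := by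
      rw [hmm, ofReal_integral_eq_lintegral_ofReal hint (Eventually.of_forall hf0)]
      refine lintegral_mono_ae ?_
      filter_upwards [hUU'] with x hx
      refine ENNReal.ofReal_le_ofReal ?_
      rw [hx, abs_of_nonneg (hf0 x)]
      by_cases hxI : x ∈ I
      · rw [hf, indicator_of_mem hxI]
        have h1 : 0 < U' x + ε := by have := hU'0 x; linarith
        have h2 : ((U' x + ε) ^ e) ^ p = (U' x + ε) ^ e * (U' x + ε)⁻¹ := by
          rw [← Real.rpow_mul h1.le, ← Real.rpow_neg_one, ← Real.rpow_add h1]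
          congr 1
          rw [he]; field_simp; ring
        rw [h2, mul_assoc]
        apply mul_le_of_le_one_right (by positivity)
        rw [inv_mul_le_iff₀ h1]
        linarith
      · rw [hsupp x hxI, Real.zero_rpow hp0.ne', zero_mul]
    have h := hC f hfm.aestronglyMeasurable (lt_of_le_of_lt hRHS ENNReal.ofReal_lt_top)
    have hlow : ENNReal.ofReal (c * (mm / l) ^ p) * m ≤
        ∫⁻ x, gStar lam f x ^ p * ENNReal.ofReal (U x) := by
      rw [hm, ← lintegral_const_mul' _ _ ENNReal.ofReal_ne_top]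
      refine le_trans (setLIntegral_mono' hIm (fun x hx => ?_)) (setLIntegral_le_lintegral I _)
      refine mul_le_mul' ?_ le_rfl
      refine le_trans ?_ (gStar_lower hl0 hp0 hfm hf0 hab hsupp hint x)
      refine ENNReal.ofReal_le_ofReal ?_
      rw [← hmm, ← hl, ← hr, hc]
      have h1 : (1:ℝ) / 2 ≤ l / (|x - (a + b) / 2| + l) := by
        rw [div_le_div_iff₀ (by norm_num) (by positivity)]
        have : |x - (a + b) / 2| ≤ l := by
          rw [abs_le]
          constructor <;> linarith [hx.1, hx.2]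
        linarith
      have h2 : (1 / 2 : ℝ) ^ r ≤ (l / (|x - (a + b) / 2| + l)) ^ r :=
        Real.rpow_le_rpow (by norm_num) h1 hr0.le
      have h3 : 0 ≤ cl lam ^ (p / 2) * (mm / l) ^ p := by
        have := (cl_pos lam).le
        positivity
      calc cl lam ^ (p / 2) * (1 / 2) ^ r * (mm / l) ^ p =
            cl lam ^ (p / 2) * (mm / l) ^ p * (1 / 2) ^ r := by ring
        _ ≤ _ := mul_le_mul_of_nonneg_left h2 h3
    have h4 : ENNReal.ofReal (c * (mm / l) ^ p) * m ≤ C * ENNReal.ofReal mm :=
      hlow.trans (h.trans (by gcongr))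
    -- multiply by l^p / (c mm)
    have h5 := mul_le_mul' (le_refl (ENNReal.ofReal (l ^ p / (c * mm)))) h4
    have e1 : ENNReal.ofReal (l ^ p / (c * mm)) * (ENNReal.ofReal (c * (mm / l) ^ p) * m) =
        m * S n ^ (p - 1) := by
      rw [← mul_assoc, ← ENNReal.ofReal_mul (by positivity), ← hmS,
        ENNReal.ofReal_rpow_of_pos hmm0, mul_comm]
      congr 2
      rw [Real.div_rpow hmm0.le hlp.le, Real.rpow_sub hmm0, Real.rpow_one]
      field_simp
    have e2 : ENNReal.ofReal (l ^ p / (c * mm)) * (C * ENNReal.ofReal mm) =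
        (ENNReal.ofReal (1 / c) * C) * L ^ p := by
      rw [hL, ENNReal.ofReal_rpow_of_pos hlp]
      have : ENNReal.ofReal (l ^ p / (c * mm)) * (C * ENNReal.ofReal mm) =
          (ENNReal.ofReal (l ^ p / (c * mm)) * ENNReal.ofReal mm) * C := by ring
      rw [this, ← ENNReal.ofReal_mul (by positivity)]
      have : l ^ p / (c * mm) * mm = 1 / c * l ^ p := by field_simp
      rw [this, ENNReal.ofReal_mul (by positivity)]
      ring
    rw [e1, e2] at h5
    exact h5
  -- pass to the limit
  have hS' : ∫⁻ x in I, ENNReal.ofReal (U x) ^ e = ∫⁻ x in I, ENNReal.ofReal (U' x) ^ e := by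
    refine lintegral_congr_ae (ae_restrict_of_ae ?_)
    filter_upwards [hUU'] with x hx
    rw [hx]
  have hεlim : Tendsto (fun n : ℕ => 1 / ((n:ℝ) + 1)) atTop (𝓝 0) :=
    tendsto_one_div_add_atTop_nhds_zero_nat
  have hlim : Tendsto S atTop (𝓝 (∫⁻ x in I, ENNReal.ofReal (U' x) ^ e)) := by
    refine lintegral_tendsto_of_tendsto_of_monotone (fun n => ?_) (Eventually.of_forall (fun x => ?_))
      (Eventually.of_forall (fun x => ?_))
    · exact ((hU'm.add_const _).ennreal_ofReal.pow_const e).aemeasurable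
    · intro j k hjk
      simp only
      have h1 : 1 / ((k:ℝ) + 1) ≤ 1 / ((j:ℝ) + 1) := by
        apply one_div_le_one_div_of_le (by positivity)
        have : (j:ℝ) ≤ k := by exact_mod_cast hjk
        linarith
      have h2 : ENNReal.ofReal (U' x + 1 / ((k:ℝ) + 1)) ≤ ENNReal.ofReal (U' x + 1 / ((j:ℝ) + 1)) :=
        ENNReal.ofReal_le_ofReal (by linarith)
      have hrw : ∀ a : ℝ≥0∞, a ^ e = (a ^ (-e))⁻¹ := by
        intro a
        rw [← ENNReal.rpow_neg, neg_neg]
      rw [hrw, hrw, ENNReal.inv_le_inv]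
      exact ENNReal.rpow_le_rpow h2 (by linarith)
    · have h1 : Tendsto (fun n : ℕ => U' x + 1 / ((n:ℝ) + 1)) atTop (𝓝 (U' x + 0)) :=
        hεlim.const_add _
      rw [add_zero] at h1
      exact ((ENNReal.continuous_rpow_const (y := e)).tendsto _).comp
        ((ENNReal.continuous_ofReal.tendsto _).comp h1)
  have hfinal : m * (∫⁻ x in I, ENNReal.ofReal (U' x) ^ e) ^ (p - 1) ≤
      (ENNReal.ofReal (1 / c) * C) * L ^ p := by
    refine le_of_tendsto' (x := atTop) (f := fun n => m * S n ^ (p - 1)) ?_ key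
    exact ENNReal.Tendsto.const_mul
      (((ENNReal.continuous_rpow_const (y := p - 1)).tendsto _).comp hlim) (Or.inr hmt)
  rw [hS']
  set T := ∫⁻ x in I, ENNReal.ofReal (U' x) ^ e with hT
  have hLp : L ^ p = L * L ^ (p - 1) := by
    have := ENNReal.rpow_add 1 (p - 1) hL0 hLt
    rw [ENNReal.rpow_one] at this
    rw [← this]; congr 1; ring
  have hLp0 : L ^ p ≠ 0 := by
    intro h0
    rcases ENNReal.rpow_eq_zero_iff.1 h0 with h1 | h1
    · exact hL0 h1.1
    · exact hLt h1.1
  have hLpt : L ^ p ≠ ∞ := ENNReal.rpow_ne_top_of_nonneg hp0.le hLt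
  have hcoe : (((1 / c).toNNReal * C : ℝ≥0) : ℝ≥0∞) = ENNReal.ofReal (1 / c) * C := by
    push_cast; rfl
  rw [hcoe, ← ENNReal.mul_le_mul_iff_left hLp0 hLpt]
  refine le_trans (le_of_eq ?_) hfinal
  rw [hLp]
  calc m / L * (T / L) ^ (p - 1) * (L * L ^ (p - 1))
      = (m / L * L) * ((T / L) ^ (p - 1) * L ^ (p - 1)) := by ring
    _ = (m / L * L) * (T / L * L) ^ (p - 1) := by rw [ENNReal.mul_rpow_of_nonneg _ _ hp1.le]
    _ = m * T ^ (p - 1) := by
        rw [ENNReal.div_mul_cancel hL0 hLt, ENNReal.div_mul_cancel hL0 hLt]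

end Pool.Agent.H779R2.Glam
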